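import Pool.Agent.Lib.MP_8a5982_an.HOST.Defs

/-!
Project HOST: integer iterates of an invertible measurable map.
-/

open MeasureTheory

namespace HOST

theorem iter_zero {X : Type*} [MeasurableSpace X] (T : X ≃ᵐ X) (x : X) : iter T 0 x = x := by
  simp [iter]

theorem iter_one {X : Type*} [MeasurableSpace X] (T : X ≃ᵐ X) (x : X) : iter T 1 x = T x := by
  simp [iter]

theorem iter_add {X : Type*} [MeasurableSpace X] (T : X ≃ᵐ X) (m n : ℤ) (x : X) :
    iter T (m + n) x = iter T m (iter T n x) := by
  simp [iter, zpow_add]

theorem iter_neg_one {X : Type*} [MeasurableSpace X] (T : X ≃ᵐ X) (x : X) :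
    iter T (-1) x = T.symm x := by
  simp only [iter, zpow_neg, zpow_one]
  rfl

theorem iter_nat_succ {X : Type*} [MeasurableSpace X] (T : X ≃ᵐ X) (n : ℕ) :
    iter T ((n + 1 : ℕ) : ℤ) = T ∘ iter T (n : ℤ) := by
  funext x
  have : ((n + 1 : ℕ) : ℤ) = 1 + (n : ℤ) := by push_cast; ring
  rw [this, iter_add, iter_one]; rfl

theorem iter_neg_succ {X : Type*} [MeasurableSpace X] (T : X ≃ᵐ X) (n : ℕ) :
    iter T (-((n + 1 : ℕ) : ℤ)) = T.symm ∘ iter T (-(n : ℤ)) := by
  funext x
  have : (-((n + 1 : ℕ) : ℤ)) = -1 + (-(n : ℤ)) := by push_cast; ring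
  rw [this, iter_add, iter_neg_one]; rfl

theorem measurable_iter {X : Type*} [MeasurableSpace X] (T : X ≃ᵐ X) (n : ℤ) :
    Measurable (iter T n) := by
  rcases Int.eq_nat_or_neg n with ⟨k, rfl | rfl⟩
  · induction k with
    | zero =>
      have : iter T ((0 : ℕ) : ℤ) = id := by funext x; exact iter_zero T x
      rw [this]; exact measurable_id
    | succ k ih => rw [iter_nat_succ]; exact T.measurable.comp ih
  · induction k with
    | zero =>
      have : iter T (-((0 : ℕ) : ℤ)) = id := by funext x; simpa using iter_zero T x
      rw [this]; exact measurable_id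
    | succ k ih => rw [iter_neg_succ]; exact T.symm.measurable.comp ih

theorem measurePreserving_iter {X : Type*} [MeasurableSpace X] {T : X ≃ᵐ X} {μ : Measure X}
    (hT : MeasurePreserving T μ μ) (n : ℤ) : MeasurePreserving (iter T n) μ μ := by
  rcases Int.eq_nat_or_neg n with ⟨k, rfl | rfl⟩
  · induction k with
    | zero =>
      have : iter T ((0 : ℕ) : ℤ) = id := by funext x; exact iter_zero T x
      rw [this]; exact MeasurePreserving.id μ
    | succ k ih => rw [iter_nat_succ]; exact hT.comp ih
  · have hs : MeasurePreserving T.symm μ μ := hT.symm T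
    induction k with
    | zero =>
      have : iter T (-((0 : ℕ) : ℤ)) = id := by funext x; simpa using iter_zero T x
      rw [this]; exact MeasurePreserving.id μ
    | succ k ih => rw [iter_neg_succ]; exact hs.comp ih

theorem iter_shift (n : ℤ) (ω : ℤ → ℝ) (k : ℤ) : iter shift n ω k = ω (k + n) := by
  rcases Int.eq_nat_or_neg n with ⟨j, rfl | rfl⟩
  · induction j generalizing k with
    | zero =>
      have := iter_zero shift ω
      simpa using congrFun this k
    | succ j ih =>
      rw [iter_nat_succ]
      change iter shift (j : ℤ) ω (k + 1) = _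
      rw [ih]; congr 1; push_cast; ring
  · induction j generalizing k with
    | zero =>
      have := iter_zero shift ω
      simpa using congrFun this k
    | succ j ih =>
      rw [iter_neg_succ]
      change iter shift (-(j : ℤ)) ω (k - 1) = _
      rw [ih]; congr 1; push_cast; ring

/-- Iterates of a product map. -/
theorem iter_prodMap {X Y : Type*} [MeasurableSpace X] [MeasurableSpace Y] (T : X ≃ᵐ X)
    (S : Y ≃ᵐ Y) (n : ℤ) (p : X × Y) :
    iter (MeasurableEquiv.prodCongr T S) n p = (iter T n p.1, iter S n p.2) := by
  rcases Int.eq_nat_or_neg n with ⟨j, rfl | rfl⟩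
  · induction j with
    | zero =>
      have h1 := iter_zero (MeasurableEquiv.prodCongr T S) p
      have h2 := iter_zero T p.1
      have h3 := iter_zero S p.2
      simp only [Nat.cast_zero]
      rw [h1, h2, h3]
    | succ j ih =>
      rw [iter_nat_succ, iter_nat_succ, iter_nat_succ]
      simp only [Function.comp_apply]
      rw [ih]; rfl
  · induction j with
    | zero =>
      have h1 := iter_zero (MeasurableEquiv.prodCongr T S) p
      have h2 := iter_zero T p.1
      have h3 := iter_zero S p.2
      simp only [Nat.cast_zero, neg_zero]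
      rw [h1, h2, h3]
    | succ j ih =>
      rw [iter_neg_succ, iter_neg_succ, iter_neg_succ]
      simp only [Function.comp_apply]
      rw [ih]; rfl

end HOST
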