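import Pool.Agent.Lib.MP_8a5982_an.HOST.Moments

/-!
Project HOST: linear functionals of a Gaussian process.
-/

open MeasureTheory Filter

namespace HOST

theorem norm_sq_toLp {α E : Type*} [MeasurableSpace α] [NormedAddCommGroup E] {m : Measure α}
    {f : α → E} (hf : MemLp f 2 m) : ‖hf.toLp f‖ ^ 2 = ∫ x, ‖f x‖ ^ 2 ∂m := by
  rw [Lp.norm_toLp, hf.eLpNorm_eq_integral_rpow_norm (by norm_num) (by norm_num)]
  have h0 : 0 ≤ ∫ x, ‖f x‖ ^ 2 ∂m := integral_nonneg fun x => by positivity
  have e : ∫ x, ‖f x‖ ^ (2 : ENNReal).toReal ∂m = ∫ x, ‖f x‖ ^ 2 ∂m := by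
    congr 1; funext x; norm_num
  rw [e, ENNReal.toReal_ofReal (Real.rpow_nonneg h0 _)]
  rw [← Real.rpow_natCast, ← Real.rpow_mul h0]
  norm_num

/-- Convergence in `L²` implies convergence of the second moments. -/
theorem tendsto_sq {α E : Type*} [MeasurableSpace α] [NormedAddCommGroup E] {m : Measure α}
    {f : α → E} {g : ℕ → α → E} (hf : MemLp f 2 m) (hg : ∀ n, MemLp (g n) 2 m)
    (h : Tendsto (fun n => eLpNorm (f - g n) 2 m) atTop (nhds 0)) :
    Tendsto (fun n => ∫ x, ‖g n x‖ ^ 2 ∂m) atTop (nhds (∫ x, ‖f x‖ ^ 2 ∂m)) := by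
  have h1 : Tendsto (fun n => (hg n).toLp (g n)) atTop (nhds (hf.toLp f)) := by
    rw [Lp.tendsto_Lp_iff_tendsto_eLpNorm'']
    refine h.congr fun n => ?_
    rw [← eLpNorm_neg]; congr 1; funext x; simp
  have h2 := (h1.norm).pow 2
  simpa only [norm_sq_toLp] using h2

/-- The pair `(h, v)` is a limit in `L²(σ) × L²(μ)` of pairs `(rtrig a, lin a)`. -/
def Rel (σ : Measure UnitAddCircle) (μ : Measure (ℤ → ℝ)) (h : UnitAddCircle → ℂ)
    (v : (ℤ → ℝ) → ℝ) : Prop :=
  MemLp h 2 σ ∧ MemLp v 2 μ ∧ ∃ a : ℕ → ℤ →₀ ℝ,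
    Tendsto (fun n => eLpNorm (h - rtrig (a n)) 2 σ) atTop (nhds 0) ∧
    Tendsto (fun n => eLpNorm (v - lin (a n)) 2 μ) atTop (nhds 0)

theorem memLp_rtrig (σ : Measure UnitAddCircle) [IsFiniteMeasure σ] (a : ℤ →₀ ℝ) :
    MemLp (rtrig a) 2 σ :=
  (continuous_rtrig a).memLp_of_hasCompactSupport (HasCompactSupport.of_compactSpace _)

section

variable {σ : Measure UnitAddCircle} [IsFiniteMeasure σ] {μ : Measure (ℤ → ℝ)}
  {h h' : UnitAddCircle → ℂ} {v v' : (ℤ → ℝ) → ℝ}

theorem rel_lin (hμ : IsGaussianShift σ μ) (a : ℤ →₀ ℝ) : Rel σ μ (rtrig a) (lin a) := by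
  refine ⟨memLp_rtrig σ a, memLp_lin hμ a, fun _ => a, ?_, ?_⟩ <;> simp

theorem Rel.add (hμ : IsGaussianShift σ μ) (h1 : Rel σ μ h v) (h2 : Rel σ μ h' v') :
    Rel σ μ (h + h') (v + v') := by
  obtain ⟨m1, m2, a, ha, ha'⟩ := h1
  obtain ⟨n1, n2, b, hb, hb'⟩ := h2
  refine ⟨m1.add n1, m2.add n2, fun n => a n + b n, ?_, ?_⟩
  · refine tendsto_of_tendsto_of_tendsto_of_le_of_le tendsto_const_nhds
      (by simpa using ha.add hb) (fun n => bot_le) (fun n => ?_)
    have e : h + h' - rtrig (a n + b n) = (h - rtrig (a n)) + (h' - rtrig (b n)) := by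
      funext x; simp only [Pi.sub_apply, Pi.add_apply, rtrig_add]; ring
    rw [e]
    exact eLpNorm_add_le (m1.sub (memLp_rtrig σ _)).1 (n1.sub (memLp_rtrig σ _)).1 (by norm_num)
  · refine tendsto_of_tendsto_of_tendsto_of_le_of_le tendsto_const_nhds
      (by simpa using ha'.add hb') (fun n => bot_le) (fun n => ?_)
    have e : v + v' - lin (a n + b n) = (v - lin (a n)) + (v' - lin (b n)) := by
      funext x; simp only [Pi.sub_apply, Pi.add_apply, lin_add]; ring
    rw [e]
    exact eLpNorm_add_le (m2.sub (memLp_lin hμ _)).1 (n2.sub (memLp_lin hμ _)).1 (by norm_num)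

omit [IsFiniteMeasure σ] in
theorem Rel.smul (c : ℝ) (h1 : Rel σ μ h v) :
    Rel σ μ (fun x => (c : ℂ) * h x) (fun ω => c * v ω) := by
  obtain ⟨m1, m2, a, ha, ha'⟩ := h1
  refine ⟨m1.const_mul _, m2.const_mul _, fun n => c • a n, ?_, ?_⟩
  · have e : ∀ n, eLpNorm ((fun x => (c : ℂ) * h x) - rtrig (c • a n)) 2 σ =
        ‖(c : ℂ)‖ₑ * eLpNorm (h - rtrig (a n)) 2 σ := by
      intro n
      rw [← eLpNorm_const_smul]
      congr 1
      funext x
      simp only [Pi.sub_apply, Pi.smul_apply, rtrig_smul, smul_eq_mul]; ring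
    simp only [e]
    simpa using ENNReal.Tendsto.const_mul ha (Or.inr (by simp))
  · have e : ∀ n, eLpNorm ((fun ω => c * v ω) - lin (c • a n)) 2 μ =
        ‖c‖ₑ * eLpNorm (v - lin (a n)) 2 μ := by
      intro n
      rw [← eLpNorm_const_smul]
      congr 1
      funext x
      simp only [Pi.sub_apply, Pi.smul_apply, lin_smul, smul_eq_mul]; ring
    simp only [e]
    simpa using ENNReal.Tendsto.const_mul ha' (Or.inr (by simp))

omit [IsFiniteMeasure σ] in
theorem rel_zero : Rel σ μ (fun _ => 0) (fun _ => 0) := by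
  refine ⟨MemLp.zero', MemLp.zero', fun _ => 0, ?_, ?_⟩
  · have e : (fun _ => (0 : ℂ)) - rtrig 0 = 0 := by funext x; simp [rtrig_zero]
    simp [e]
  · have e : (fun _ => (0 : ℝ)) - lin 0 = 0 := by funext x; simp [lin_zero]
    simp [e]

theorem Rel.sum (hμ : IsGaussianShift σ μ) {ι : Type*} (s : Finset ι)
    (H : ι → UnitAddCircle → ℂ) (V : ι → (ℤ → ℝ) → ℝ) (hr : ∀ i ∈ s, Rel σ μ (H i) (V i)) :
    Rel σ μ (fun x => ∑ i ∈ s, H i x) (fun ω => ∑ i ∈ s, V i ω) := by
  classical
  induction s using Finset.induction_on with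
  | empty => simpa using rel_zero
  | insert i s hi ih =>
    have h1 := hr i (Finset.mem_insert_self i s)
    have h2 := ih fun j hj => hr j (Finset.mem_insert_of_mem hj)
    have h3 := Rel.add hμ h1 h2
    simpa [Finset.sum_insert hi, Pi.add_def] using h3

theorem Rel.sub (hμ : IsGaussianShift σ μ) (h1 : Rel σ μ h v) (h2 : Rel σ μ h' v') :
    Rel σ μ (fun x => h x - h' x) (fun ω => v ω - v' ω) := by
  have h3 := Rel.add hμ h1 (Rel.smul (-1) h2)
  have e1 : (h + fun x => ((-1 : ℝ) : ℂ) * h' x) = fun x => h x - h' x := by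
    funext x; simp [sub_eq_add_neg]
  have e2 : (v + fun ω => (-1 : ℝ) * v' ω) = fun ω => v ω - v' ω := by
    funext x; simp [sub_eq_add_neg]
  rwa [e1, e2] at h3

theorem Rel.shift (hμ : IsGaussianShift σ μ) (h1 : Rel σ μ h v) :
    Rel σ μ (fun x => (fourier 1 x : ℂ) * h x) (fun ω => v (shift ω)) := by
  obtain ⟨m1, m2, a, ha, ha'⟩ := h1
  have hs := gauss_shift σ μ hμ
  have hn : ∀ f : UnitAddCircle → ℂ,
      eLpNorm (fun x => (fourier 1 x : ℂ) * f x) 2 σ = eLpNorm f 2 σ := by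
    intro f
    refine eLpNorm_congr_norm_ae (Eventually.of_forall fun x => ?_)
    rw [norm_mul, norm_fourier_one, one_mul]
  refine ⟨⟨(map_continuous (fourier 1)).aestronglyMeasurable.mul m1.1, ?_⟩,
    m2.comp_measurePreserving hs, fun n => moveF (a n), ?_, ?_⟩
  · rw [hn]; exact m1.2
  · refine ha.congr fun n => ?_
    rw [← hn]
    congr 1
    funext x
    simp only [Pi.sub_apply, rtrig_moveF]; ring
  · refine ha'.congr fun n => ?_
    rw [← eLpNorm_comp_measurePreserving (m2.sub (memLp_lin hμ _)).1 hs]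
    congr 1
    funext x
    simp only [Pi.sub_apply, Function.comp_apply, lin_moveF]

theorem Rel.sq (hμ : IsGaussianShift σ μ) (h1 : Rel σ μ h v) :
    ∫ ω, v ω ^ 2 ∂μ = ∫ x, ‖h x‖ ^ 2 ∂σ := by
  obtain ⟨m1, m2, a, ha, ha'⟩ := h1
  have t1 := tendsto_sq m1 (fun n => memLp_rtrig σ (a n)) ha
  have t2 := tendsto_sq m2 (fun n => memLp_lin hμ (a n)) ha'
  simp only [Real.norm_eq_abs, sq_abs] at t2
  simp only [integral_lin_sq hμ] at t2
  exact tendsto_nhds_unique t2 t1

theorem Rel.exp (hμ : IsGaussianShift σ μ) (h1 : Rel σ μ h v) :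
    ∫ ω, Complex.exp (Complex.I * (v ω : ℂ)) ∂μ =
      Complex.exp (-(1 / 2) * ((∫ x, ‖h x‖ ^ 2 ∂σ : ℝ) : ℂ)) := by
  have := hμ.1
  obtain ⟨m1, m2, a, ha, ha'⟩ := h1
  have t1 := tendsto_sq m1 (fun n => memLp_rtrig σ (a n)) ha
  have t2 : Tendsto (fun n => ∫ ω, Complex.exp (Complex.I * (lin (a n) ω : ℂ)) ∂μ) atTop
      (nhds (Complex.exp (-(1 / 2) * ((∫ x, ‖h x‖ ^ 2 ∂σ : ℝ) : ℂ)))) := by
    simp only [charFun_lin hμ]
    have hc : Continuous fun r : ℝ => Complex.exp (-(1 / 2) * (r : ℂ)) := by fun_prop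
    exact (hc.tendsto _).comp t1
  refine tendsto_nhds_unique ?_ t2
  have hm : ∀ w : (ℤ → ℝ) → ℝ, AEStronglyMeasurable w μ →
      Integrable (fun ω => Complex.exp (Complex.I * (w ω : ℂ))) μ := by
    intro w hw
    refine Integrable.of_bound (C := 1) ?_ (Eventually.of_forall fun ω => ?_)
    · have hc : Continuous fun r : ℝ => Complex.exp (Complex.I * (r : ℂ)) := by fun_prop
      exact hc.comp_aestronglyMeasurable hw
    · rw [mul_comm, Complex.norm_exp_ofReal_mul_I]
  rw [tendsto_iff_norm_sub_tendsto_zero]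
  have hb : ∀ n, ‖(∫ ω, Complex.exp (Complex.I * (lin (a n) ω : ℂ)) ∂μ) -
      ∫ ω, Complex.exp (Complex.I * (v ω : ℂ)) ∂μ‖ ≤ (eLpNorm (v - lin (a n)) 2 μ).toReal := by
    intro n
    rw [← integral_sub (hm _ (memLp_lin hμ _).1) (hm _ m2.1)]
    refine (norm_integral_le_integral_norm _).trans ?_
    have hd := m2.sub (memLp_lin hμ (a n))
    have hi : Integrable (v - lin (a n)) μ := hd.integrable (by norm_num)
    have hle : ∫ ω, ‖Complex.exp (Complex.I * (lin (a n) ω : ℂ)) -
        Complex.exp (Complex.I * (v ω : ℂ))‖ ∂μ ≤ ∫ ω, ‖(v - lin (a n)) ω‖ ∂μ := by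
      refine integral_mono ((hm _ (memLp_lin hμ _).1).sub (hm _ m2.1)).norm hi.norm fun ω => ?_
      have := Real.norm_exp_I_mul_ofReal_sub_one_le (x := lin (a n) ω - v ω)
      have e : Complex.exp (Complex.I * (lin (a n) ω : ℂ)) - Complex.exp (Complex.I * (v ω : ℂ)) =
          Complex.exp (Complex.I * (v ω : ℂ)) *
            (Complex.exp (Complex.I * ((lin (a n) ω - v ω : ℝ) : ℂ)) - 1) := by
        rw [mul_sub, ← Complex.exp_add]; push_cast; ring_nf
      simp only [e, norm_mul, Pi.sub_apply]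
      rw [mul_comm Complex.I (v ω : ℂ), Complex.norm_exp_ofReal_mul_I, one_mul, norm_sub_rev (v ω)]
      exact this
    refine hle.trans ?_
    have h2 : ∫ ω, ‖(v - lin (a n)) ω‖ ∂μ = (eLpNorm (v - lin (a n)) 1 μ).toReal := by
      rw [eLpNorm_one_eq_lintegral_enorm, integral_norm_eq_lintegral_enorm hi.1]
    rw [h2]
    exact ENNReal.toReal_mono hd.2.ne
      (eLpNorm_le_eLpNorm_of_exponent_le (by norm_num) hd.1)
  refine squeeze_zero (fun n => norm_nonneg _) hb ?_
  have := (ENNReal.tendsto_toReal (a := 0) (by simp)).comp ha'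
  simpa [Function.comp_def] using this

end

/-- Real trigonometric polynomials approximate the symmetric functions. -/
theorem exists_rtrig_near (σ : Measure UnitAddCircle) [IsFiniteMeasure σ]
    (hsymm : σ.map (fun x => -x) = σ) (h : UnitAddCircle → ℂ) (hh : MemLp h 2 σ)
    (hreal : ∀ x, h (-x) = (starRingEnd ℂ) (h x)) (ε : ENNReal) (hε : ε ≠ 0) :
    ∃ a : ℤ →₀ ℝ, eLpNorm (h - rtrig a) 2 σ ≤ ε := by
  have hε2 : ε / 2 ≠ 0 := by simp [hε]
  obtain ⟨g, hg1, hg2⟩ := hh.exists_boundedContinuous_eLpNorm_sub_le (by norm_num) hε2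
  -- approximate `g` uniformly
  obtain ⟨δ, hδ0, hδ⟩ : ∃ δ : ℝ, 0 < δ ∧
      σ Set.univ ^ ((2 : ENNReal).toReal⁻¹) * ENNReal.ofReal δ ≤ ε / 2 := by
    have ht : Tendsto (fun δ : ℝ => σ Set.univ ^ ((2 : ENNReal).toReal⁻¹) * ENNReal.ofReal δ)
        (nhdsWithin 0 (Set.Ioi 0)) (nhds 0) := by
      have h1 : Tendsto (fun δ : ℝ => ENNReal.ofReal δ) (nhdsWithin 0 (Set.Ioi 0)) (nhds 0) := by
        have := (ENNReal.continuous_ofReal.tendsto 0).mono_left
          (nhdsWithin_le_nhds (s := Set.Ioi (0 : ℝ)))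
        simpa using this
      have h2 := ENNReal.Tendsto.const_mul (a := σ Set.univ ^ ((2 : ENNReal).toReal⁻¹)) h1
        (Or.inr (ENNReal.rpow_ne_top_of_nonneg (by positivity) (measure_ne_top σ _)))
      simpa using h2
    have hev := (ht.eventually_le_const (pos_iff_ne_zero.2 hε2)).and self_mem_nhdsWithin
    obtain ⟨δ, h1, h2⟩ := hev.exists
    exact ⟨δ, h2, h1⟩
  obtain ⟨q, hqs, hq⟩ : ∃ q ∈ (Submodule.span ℂ (Set.range (@fourier 1)) :
      Submodule ℂ C(UnitAddCircle, ℂ)), ‖g.toContinuousMap - q‖ < δ := by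
    have hmem : g.toContinuousMap ∈
        (Submodule.span ℂ (Set.range (@fourier 1))).topologicalClosure := by
      rw [span_fourier_closure_eq_top]; exact Submodule.mem_top
    have h1 := Metric.mem_closure_iff.1 hmem δ hδ0
    obtain ⟨q, hq1, hq2⟩ := h1
    exact ⟨q, hq1, by rwa [dist_eq_norm] at hq2⟩
  obtain ⟨c, hc⟩ := Finsupp.mem_span_range_iff_exists_finsupp.1 hqs
  have hqx : ∀ x, q x = c.sum fun k z => z * (fourier k x : ℂ) := by
    intro x
    rw [← hc]
    simp [Finsupp.sum, ContinuousMap.sum_apply]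
  -- the distance between `h` and `q`
  have hhq : eLpNorm (h - ⇑q) 2 σ ≤ ε := by
    have e : h - ⇑q = (h - ⇑g) + (⇑g - ⇑q) := by
      funext x; simp
    rw [e]
    refine (eLpNorm_add_le (hh.sub hg2).1 ?_ (by norm_num)).trans ?_
    · exact (g.continuous.sub q.continuous).aestronglyMeasurable
    · have h3 : eLpNorm (⇑g - ⇑q) 2 σ ≤ ε / 2 := by
        refine (eLpNorm_le_of_ae_bound (C := δ) (Eventually.of_forall fun x => ?_)).trans hδ
        have := (ContinuousMap.norm_coe_le_norm (g.toContinuousMap - q) x).trans hq.le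
        simpa using this
      calc _ ≤ ε / 2 + ε / 2 := add_le_add hg1 h3
        _ = ε := ENNReal.add_halves ε
  -- symmetrise
  refine ⟨c.mapRange Complex.re Complex.zero_re, ?_⟩
  have htr : ∀ x, rtrig (c.mapRange Complex.re Complex.zero_re) x =
      (1 / 2) * (q x + (starRingEnd ℂ) (q (-x))) := by
    intro x
    unfold rtrig
    rw [Finsupp.sum_mapRange_index (by intro k; simp), hqx, hqx]
    simp only [Finsupp.sum, map_sum, map_mul]
    rw [← Finset.sum_add_distrib, Finset.mul_sum]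
    refine Finset.sum_congr rfl fun k _ => ?_
    have e1 : (starRingEnd ℂ) (fourier k (-x) : ℂ) = (fourier k x : ℂ) := by
      rw [← fourier_neg]; simp [fourier_apply]
    rw [e1, Complex.re_eq_add_conj]; ring
  have hneg : MeasurePreserving (fun x : UnitAddCircle => -x) σ σ := ⟨by fun_prop, hsymm⟩
  have e : h - rtrig (c.mapRange Complex.re Complex.zero_re) =
      (1 / 2 : ℂ) • (h - ⇑q) + (1 / 2 : ℂ) • (fun x => (starRingEnd ℂ) ((h - ⇑q) (-x))) := by
    funext x
    simp only [Pi.sub_apply, Pi.add_apply, Pi.smul_apply, smul_eq_mul, htr, map_sub, hreal,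
      Complex.conj_conj]
    ring
  have hm1 : AEStronglyMeasurable (h - ⇑q) σ := hh.1.sub q.continuous.aestronglyMeasurable
  have hm2 : AEStronglyMeasurable (fun x => (starRingEnd ℂ) ((h - ⇑q) (-x))) σ :=
    Complex.continuous_conj.comp_aestronglyMeasurable (hm1.comp_measurePreserving hneg)
  have hn2 : eLpNorm (fun x => (starRingEnd ℂ) ((h - ⇑q) (-x))) 2 σ = eLpNorm (h - ⇑q) 2 σ := by
    rw [← eLpNorm_comp_measurePreserving hm1 hneg]
    refine eLpNorm_congr_norm_ae (Eventually.of_forall fun x => ?_)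
    change ‖(starRingEnd ℂ) ((h - ⇑q) (-x))‖ = ‖(h - ⇑q) (-x)‖
    rw [RCLike.norm_conj]
  rw [e]
  refine (eLpNorm_add_le (hm1.const_smul _) (hm2.const_smul _) (by norm_num)).trans ?_
  rw [eLpNorm_const_smul, eLpNorm_const_smul, hn2, ← add_mul]
  have e2 : ‖(1 / 2 : ℂ)‖ₑ + ‖(1 / 2 : ℂ)‖ₑ = 1 := by
    rw [← ofReal_norm, ← ENNReal.ofReal_add (norm_nonneg _) (norm_nonneg _)]
    norm_num
  rw [e2, one_mul]
  exact hhq

theorem exists_rel (σ : Measure UnitAddCircle) [IsFiniteMeasure σ]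
    (hsymm : σ.map (fun x => -x) = σ) (μ : Measure (ℤ → ℝ)) (hμ : IsGaussianShift σ μ)
    (h : UnitAddCircle → ℂ) (hh : MemLp h 2 σ)
    (hreal : ∀ x, h (-x) = (starRingEnd ℂ) (h x)) :
    ∃ v : (ℤ → ℝ) → ℝ, Measurable v ∧ Rel σ μ h v := by
  choose a ha using fun n : ℕ => exists_rtrig_near σ hsymm h hh hreal
    (ENNReal.ofReal (1 / ((n : ℝ) + 1))) (by simp; positivity)
  have ht : Tendsto (fun n => eLpNorm (h - rtrig (a n)) 2 σ) atTop (nhds 0) := by
    refine tendsto_of_tendsto_of_tendsto_of_le_of_le tendsto_const_nhds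
      (?_ : Tendsto (fun n : ℕ => ENNReal.ofReal (1 / ((n : ℝ) + 1))) atTop (nhds 0))
      (fun n => bot_le) ha
    have := (ENNReal.continuous_ofReal.tendsto 0).comp tendsto_one_div_add_atTop_nhds_zero_nat
    simpa [Function.comp_def] using this
  have hU : CauchySeq fun n => (memLp_rtrig σ (a n)).toLp (rtrig (a n)) := by
    have h1 : Tendsto (fun n => (memLp_rtrig σ (a n)).toLp (rtrig (a n))) atTop
        (nhds (hh.toLp h)) := by
      rw [Lp.tendsto_Lp_iff_tendsto_eLpNorm'']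
      refine ht.congr fun n => ?_
      rw [← eLpNorm_neg]; congr 1; funext x; simp
    exact h1.cauchySeq
  have hdist : ∀ m n, dist ((memLp_lin hμ (a m)).toLp (lin (a m)))
      ((memLp_lin hμ (a n)).toLp (lin (a n))) =
      dist ((memLp_rtrig σ (a m)).toLp (rtrig (a m))) ((memLp_rtrig σ (a n)).toLp (rtrig (a n))) := by
    intro m n
    rw [dist_eq_norm, dist_eq_norm, ← MemLp.toLp_sub, ← MemLp.toLp_sub]
    rw [← sq_eq_sq₀ (norm_nonneg _) (norm_nonneg _), norm_sq_toLp, norm_sq_toLp]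
    have e1 : ∀ ω, ‖(lin (a m) - lin (a n)) ω‖ ^ 2 = lin (a m + (-1 : ℝ) • a n) ω ^ 2 := by
      intro ω
      rw [lin_add, lin_smul, Real.norm_eq_abs, sq_abs]; simp [sub_eq_add_neg]
    have e2 : ∀ x, ‖(rtrig (a m) - rtrig (a n)) x‖ ^ 2 = ‖rtrig (a m + (-1 : ℝ) • a n) x‖ ^ 2 := by
      intro x
      rw [rtrig_add, rtrig_smul]; simp [sub_eq_add_neg]
    simp only [e1, e2]
    exact integral_lin_sq hμ _
  have hV : CauchySeq fun n => (memLp_lin hμ (a n)).toLp (lin (a n)) := by
    rw [Metric.cauchySeq_iff] at hU ⊢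
    simpa only [hdist] using hU
  obtain ⟨w, hw⟩ := cauchySeq_tendsto_of_complete hV
  refine ⟨w, (Lp.stronglyMeasurable w).measurable, hh, Lp.memLp w, a, ht, ?_⟩
  rw [Lp.tendsto_Lp_iff_tendsto_eLpNorm'] at hw
  refine hw.congr fun n => ?_
  rw [← eLpNorm_neg]
  refine eLpNorm_congr_ae ?_
  filter_upwards [(memLp_lin hμ (a n)).coeFn_toLp] with ω hω
  simp only [Pi.neg_apply, Pi.sub_apply, hω]
  ring

/-- Integrals against `|g|² σ`. -/
theorem integral_density (σ : Measure UnitAddCircle) (g : UnitAddCircle → ℂ) (hg : Measurable g)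
    (F : UnitAddCircle → ℝ) :
    ∫ x, F x ∂(σ.withDensity (fun x => ENNReal.ofReal (‖g x‖ ^ 2))) =
      ∫ x, ‖g x‖ ^ 2 * F x ∂σ := by
  have h := integral_withDensity_eq_integral_toReal_smul (μ := σ)
    (f := fun x => ENNReal.ofReal (‖g x‖ ^ 2)) (by fun_prop)
    (Eventually.of_forall fun x => ENNReal.ofReal_lt_top) F
  rw [h]
  refine integral_congr_ae (Eventually.of_forall fun x => ?_)
  simp only [smul_eq_mul]
  rw [ENNReal.toReal_ofReal (by positivity)]

theorem finite_density (σ : Measure UnitAddCircle) (g : UnitAddCircle → ℂ)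
    (hg : MemLp g 2 σ) :
    IsFiniteMeasure (σ.withDensity (fun x => ENNReal.ofReal (‖g x‖ ^ 2))) := by
  refine isFiniteMeasure_withDensity_ofReal ?_
  exact (hg.integrable_norm_pow (by norm_num)).2

theorem gaussian_pieces (σ : Measure UnitAddCircle) [IsFiniteMeasure σ]
    (hsymm : σ.map (fun x => -x) = σ) (μ : Measure (ℤ → ℝ)) (hμ : IsGaussianShift σ μ)
    (g : ℕ → UnitAddCircle → ℂ) (hgm : ∀ j, Measurable (g j)) (hg : ∀ j, MemLp (g j) 2 σ)
    (hreal : ∀ j x, g j (-x) = (starRingEnd ℂ) (g j x))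
    (hdisj : ∀ i j, i ≠ j → ∀ x, g i x = 0 ∨ g j x = 0) :
    ∃ Ψ : ℕ → (ℤ → ℝ) → (ℤ → ℝ), (∀ j, Measurable (Ψ j)) ∧
      (∀ j, ∀ᵐ ω ∂μ, Ψ j (shift ω) = shift (Ψ j ω)) ∧
      (∀ j, IsGaussianShift (σ.withDensity (fun x => ENNReal.ofReal (‖g j x‖ ^ 2)))
        (μ.map (Ψ j))) ∧
      (∀ N : ℕ, μ.map (fun ω (j : Fin N) => Ψ j ω) =
        Measure.pi (fun j : Fin N => μ.map (Ψ j))) ∧
      ((∀ x, ∃ j, g j x = 1) → ∀ k : ℤ,
        Tendsto (fun N : ℕ => ∫ ω, (ω k - ∑ j ∈ Finset.range N, Ψ j ω k) ^ 2 ∂μ) atTop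
          (nhds 0)) := by
  have hP := hμ.1
  have hmem : ∀ j (k : ℤ), MemLp (fun x => g j x * (fourier k x : ℂ)) 2 σ := by
    intro j k
    refine ⟨(hg j).1.mul (map_continuous (fourier k)).aestronglyMeasurable, ?_⟩
    have : eLpNorm (fun x => g j x * (fourier k x : ℂ)) 2 σ = eLpNorm (g j) 2 σ := by
      refine eLpNorm_congr_norm_ae (Eventually.of_forall fun x => ?_)
      rw [norm_mul, norm_fourier_one, mul_one]
    rw [this]; exact (hg j).2
  have hre : ∀ j (k : ℤ) x, g j (-x) * (fourier k (-x) : ℂ) =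
      (starRingEnd ℂ) (g j x * (fourier k x : ℂ)) := by
    intro j k x
    rw [map_mul, hreal]
    congr 1
    rw [← fourier_neg]; simp [fourier_apply]
  choose V hVm hV using fun (j : ℕ) (k : ℤ) =>
    exists_rel σ hsymm μ hμ (fun x => g j x * (fourier k x : ℂ)) (hmem j k) (hre j k)
  have hΨm : ∀ j, Measurable (fun ω (k : ℤ) => V j k ω) := fun j =>
    measurable_pi_lambda _ fun k => hVm j k
  -- the finite combinations
  have hcomb : ∀ (S : Finset ℕ) (s : Finset ℤ) (a : ℕ → ℤ → ℝ),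
      Rel σ μ (fun x => ∑ j ∈ S, g j x * ∑ k ∈ s, (a j k : ℂ) * (fourier k x : ℂ))
        (fun ω => ∑ j ∈ S, ∑ k ∈ s, a j k * V j k ω) := by
    intro S s a
    refine Rel.sum hμ S _ _ fun j _ => ?_
    have h1 := Rel.sum hμ s (fun k x => (a j k : ℂ) * (g j x * (fourier k x : ℂ)))
      (fun k ω => a j k * V j k ω) fun k _ => Rel.smul (a j k) (hV j k)
    have e : (fun x => ∑ k ∈ s, (a j k : ℂ) * (g j x * (fourier k x : ℂ))) =
        fun x => g j x * ∑ k ∈ s, (a j k : ℂ) * (fourier k x : ℂ) := by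
      funext x
      rw [Finset.mul_sum]
      exact Finset.sum_congr rfl fun k _ => by ring
    rwa [e] at h1
  have hnorm : ∀ (S : Finset ℕ) (p : ℕ → ℂ) (x : UnitAddCircle),
      ‖∑ j ∈ S, g j x * p j‖ ^ 2 = ∑ j ∈ S, ‖g j x * p j‖ ^ 2 := by
    intro S p x
    by_cases hz : ∀ j ∈ S, g j x = 0
    · rw [Finset.sum_eq_zero (fun j hj => by rw [hz j hj, zero_mul]),
        Finset.sum_eq_zero (fun j hj => by rw [hz j hj, zero_mul]; simp)]
      simp
    · push Not at hz
      obtain ⟨i, hi, hi0⟩ := hz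
      have h0 : ∀ j ∈ S, j ≠ i → g j x = 0 := by
        intro j _ hji
        rcases hdisj j i hji x with h | h
        · exact h
        · exact absurd h hi0
      rw [Finset.sum_eq_single_of_mem i hi (fun j hj hji => by rw [h0 j hj hji, zero_mul]),
        Finset.sum_eq_single_of_mem i hi (fun j hj hji => by rw [h0 j hj hji, zero_mul]; simp)]
  refine ⟨fun j ω k => V j k ω, hΨm, ?_, ?_, ?_, ?_⟩
  · -- equivariance
    intro j
    have hall : ∀ k : ℤ, ∀ᵐ ω ∂μ, V j k (shift ω) = V j (k + 1) ω := by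
      intro k
      have h1 := Rel.sub hμ (Rel.shift hμ (hV j k)) (hV j (k + 1))
      have h2 := Rel.sq hμ h1
      have h3 : ∫ x, ‖(fourier 1 x : ℂ) * (g j x * (fourier k x : ℂ)) -
          g j x * (fourier (k + 1) x : ℂ)‖ ^ 2 ∂σ = 0 := by
        have : ∀ x : UnitAddCircle, ‖(fourier 1 x : ℂ) * (g j x * (fourier k x : ℂ)) -
            g j x * (fourier (k + 1) x : ℂ)‖ ^ 2 = 0 := by
          intro x
          rw [fourier_add]
          have : (fourier 1 x : ℂ) * (g j x * (fourier k x : ℂ)) -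
            g j x * ((fourier k x : ℂ) * (fourier 1 x : ℂ)) = 0 := by ring
          rw [this]; simp
        simp only [this, integral_zero]
      rw [h3] at h2
      have h4 := (integral_eq_zero_iff_of_nonneg (fun ω => sq_nonneg _)
        (h1.2.1.integrable_sq)).1 h2
      filter_upwards [h4] with ω hω
      have := pow_eq_zero_iff (two_ne_zero) |>.1 hω
      linarith
    have h5 := ae_all_iff.2 hall
    filter_upwards [h5] with ω hω
    funext k
    exact hω k
  · -- the law of a piece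
    intro j
    have := finite_density σ (g j) (hg j)
    refine ⟨Measure.isProbabilityMeasure_map (hΨm j).aemeasurable, fun s a => ?_⟩
    rw [quad_form]
    rw [integral_map (hΨm j).aemeasurable]
    · have h1 := Rel.exp hμ (hcomb {j} s (fun _ => a))
      simp only [Finset.sum_singleton] at h1
      rw [h1, integral_density σ (g j) (hgm j)]
      simp only [norm_mul, mul_pow]
    · refine Measurable.aestronglyMeasurable ?_
      fun_prop
  · -- independence
    intro N
    have hpr : ∀ j : Fin N, IsProbabilityMeasure (μ.map (fun ω (k : ℤ) => V j k ω)) := fun j =>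
      Measure.isProbabilityMeasure_map (hΨm j).aemeasurable
    have hjm : Measurable (fun ω (j : Fin N) (k : ℤ) => V j k ω) :=
      measurable_pi_lambda _ fun j => hΨm j
    have : IsProbabilityMeasure (μ.map (fun ω (j : Fin N) (k : ℤ) => V j k ω)) :=
      Measure.isProbabilityMeasure_map hjm.aemeasurable
    refine ext_family N _ _ fun s a => ?_
    rw [integral_map hjm.aemeasurable]
    · -- the right side is a product
      have hR : ∫ ω, Complex.exp (Complex.I * ((∑ j, ∑ k ∈ s, a j k * ω j k : ℝ) : ℂ))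
          ∂(Measure.pi fun j : Fin N => μ.map (fun ω (k : ℤ) => V j k ω)) =
          ∏ j : Fin N, ∫ ω, Complex.exp (Complex.I * ((∑ k ∈ s, a j k * ω k : ℝ) : ℂ))
            ∂(μ.map (fun ω (k : ℤ) => V j k ω)) := by
        rw [← integral_fintype_prod_eq_prod]
        refine integral_congr_ae (Eventually.of_forall fun ω => ?_)
        simp only
        rw [← Complex.exp_sum]
        congr 1
        push_cast
        rw [Finset.mul_sum]
      rw [hR]
      let a' : ℕ → ℤ → ℝ := fun j k => if hj : j < N then a ⟨j, hj⟩ k else 0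
      have ha' : ∀ (j : Fin N) k, a' j k = a j k := by
        intro j k; simp [a', j.2]
      have hL := Rel.exp hμ (hcomb (Finset.range N) s a')
      have e1 : ∀ ω, ∑ j ∈ Finset.range N, ∑ k ∈ s, a' j k * V j k ω =
          ∑ j : Fin N, ∑ k ∈ s, a j k * V j k ω := by
        intro ω
        rw [Finset.sum_range]
        simp only [ha']
      simp only [e1] at hL
      rw [hL]
      have hj : ∀ j : Fin N, ∫ ω, Complex.exp (Complex.I * ((∑ k ∈ s, a j k * ω k : ℝ) : ℂ))
            ∂(μ.map (fun ω (k : ℤ) => V j k ω)) =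
          Complex.exp (-(1 / 2) * ((∫ x, ‖g j x * ∑ k ∈ s, (a' j k : ℂ) *
            (fourier k x : ℂ)‖ ^ 2 ∂σ : ℝ) : ℂ)) := by
        intro j
        rw [integral_map (hΨm j).aemeasurable]
        · have h1 := Rel.exp hμ (hcomb {(j : ℕ)} s a')
          simp only [Finset.sum_singleton] at h1
          rw [← h1]
          simp only [ha']
        · refine Measurable.aestronglyMeasurable ?_
          fun_prop
      simp only [hj]
      rw [← Complex.exp_sum]
      congr 1
      rw [← Finset.mul_sum]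
      congr 1
      rw [← Complex.ofReal_sum]
      congr 1
      rw [← Finset.sum_range (fun j => ∫ x, ‖g j x * ∑ k ∈ s, (a' j k : ℂ) *
            (fourier k x : ℂ)‖ ^ 2 ∂σ)]
      rw [← integral_finsetSum]
      · refine integral_congr_ae (Eventually.of_forall fun x => ?_)
        exact hnorm _ _ x
      · intro j _
        have h2 := (hcomb {j} s a').1
        simp only [Finset.sum_singleton] at h2
        exact h2.integrable_norm_pow (by norm_num)
    · refine Measurable.aestronglyMeasurable ?_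
      fun_prop
  · -- the sum of the pieces
    intro hone k
    have hfin : ∀ N : ℕ, ∫ ω, (ω k - ∑ j ∈ Finset.range N, V j k ω) ^ 2 ∂μ =
        ∫ x, ‖(1 - ∑ j ∈ Finset.range N, g j x) * (fourier k x : ℂ)‖ ^ 2 ∂σ := by
      intro N
      have h1 := hcomb (Finset.range N) {k} (fun _ _ => 1)
      have h2 := Rel.sub hμ (rel_lin hμ (Finsupp.single k 1)) h1
      have h3 := Rel.sq hμ h2
      simp only [lin_single, rtrig_single, Finset.sum_singleton, one_mul, Complex.ofReal_one] at h3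
      rw [h3]
      refine integral_congr_ae (Eventually.of_forall fun x => ?_)
      simp only
      rw [sub_mul, one_mul, Finset.sum_mul]
    simp only [hfin]
    have hz : (0 : ℝ) = ∫ _ : UnitAddCircle, (0 : ℝ) ∂σ := by simp
    rw [hz]
    have hval : ∀ x (N : ℕ), ‖(1 - ∑ j ∈ Finset.range N, g j x) * (fourier k x : ℂ)‖ ^ 2 ≤ 1 ∧
        ((∃ j ∈ Finset.range N, g j x = 1) →
          ‖(1 - ∑ j ∈ Finset.range N, g j x) * (fourier k x : ℂ)‖ ^ 2 = 0) := by
      intro x N
      obtain ⟨i, hi⟩ := hone x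
      have h0 : ∀ j, j ≠ i → g j x = 0 := by
        intro j hji
        rcases hdisj j i hji x with h | h
        · exact h
        · rw [hi] at h; exact absurd h one_ne_zero
      by_cases hiN : i ∈ Finset.range N
      · have : ∑ j ∈ Finset.range N, g j x = 1 := by
          rw [Finset.sum_eq_single_of_mem i hiN (fun j _ hji => h0 j hji), hi]
        rw [this]; simp
      · have : ∑ j ∈ Finset.range N, g j x = 0 := by
          refine Finset.sum_eq_zero fun j hj => h0 j ?_
          rintro rfl; exact hiN hj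
        rw [this, sub_zero, one_mul, norm_fourier_one]
        refine ⟨by norm_num, ?_⟩
        rintro ⟨j, hj, hj1⟩
        have : j = i := by
          by_contra hne
          rw [h0 j hne] at hj1; exact absurd hj1 zero_ne_one
        exact absurd (this ▸ hj) hiN
    refine tendsto_integral_of_dominated_convergence (fun _ => (1 : ℝ)) ?_ (integrable_const _)
      ?_ ?_
    · intro N
      refine Measurable.aestronglyMeasurable ?_
      have hf : Measurable (fun x : UnitAddCircle => (fourier k x : ℂ)) :=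
        (map_continuous (fourier k)).measurable
      exact (((measurable_const.sub (Finset.measurable_fun_sum _ fun j _ => hgm j)).mul
        hf).norm).pow_const 2
    · intro N
      refine Eventually.of_forall fun x => ?_
      rw [Real.norm_eq_abs, abs_of_nonneg (by positivity)]
      exact (hval x N).1
    · refine Eventually.of_forall fun x => ?_
      obtain ⟨i, hi⟩ := hone x
      refine tendsto_const_nhds.congr' ?_
      filter_upwards [eventually_gt_atTop i] with N hN
      exact ((hval x N).2 ⟨i, Finset.mem_range.2 hN, hi⟩).symm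

end HOST
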