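import Pool.Agent.Lib.MP_8a5982_an.HO.H84.Four2

/-!
Project HOST: module UNIQ (helper84): Fourier uniqueness on the circle.
-/

open MeasureTheory

namespace HOST

theorem measure_ext_fourier (μ ν : Measure UnitAddCircle) [IsFiniteMeasure μ] [IsFiniteMeasure ν]
    (h : ∀ n : ℤ, ∫ x, (fourier n x : ℂ) ∂μ = ∫ x, (fourier n x : ℂ) ∂ν) : μ = ν := by
  have hm : Measurable fun x : UnitAddCircle => (x, (0 : UnitAddCircle)) :=
    measurable_id.prodMk measurable_const
  have key : μ.map (fun x => (x, (0 : UnitAddCircle))) = ν.map (fun x => (x, (0 : UnitAddCircle))) := by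
    refine HostSn.H84.measure_ext_chi fun m n => ?_
    rw [integral_map hm.aemeasurable (HostSn.H84.measurable_chi m n).aestronglyMeasurable,
      integral_map hm.aemeasurable (HostSn.H84.measurable_chi m n).aestronglyMeasurable]
    have e : ∀ x : UnitAddCircle, HostSn.H84.chi m n (x, 0) = fourier m x := by
      intro x
      have h0 : (fourier n (0 : UnitAddCircle) : ℂ) = 1 := by simp [fourier_apply]
      simp only [HostSn.H84.chi]
      rw [h0, mul_one]
    simp only [e]
    exact h m
  have h2 : (μ.map (fun x => (x, (0 : UnitAddCircle)))).map Prod.fst =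
      (ν.map (fun x => (x, (0 : UnitAddCircle)))).map Prod.fst := by rw [key]
  rw [Measure.map_map measurable_fst hm, Measure.map_map measurable_fst hm] at h2
  have e : (Prod.fst ∘ fun x : UnitAddCircle => (x, (0 : UnitAddCircle))) = id := rfl
  rwa [e, Measure.map_id, Measure.map_id] at h2

end HOST
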