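import Pool.Agent.Lib.MP_8a5982_an.HOST.CharF

/-!
Project HOST: second moments of a Gaussian process and the bridge between real trigonometric
polynomials and finite linear combinations of the coordinates.
-/

open MeasureTheory Filter

namespace HOST

/-- The trigonometric polynomial with the real coefficients `a`. -/
noncomputable def rtrig (a : ℤ →₀ ℝ) (x : UnitAddCircle) : ℂ :=
  a.sum fun k c => (c : ℂ) * (fourier k x : ℂ)

/-- The finite linear combination of the coordinates with the coefficients `a`. -/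
noncomputable def lin (a : ℤ →₀ ℝ) (ω : ℤ → ℝ) : ℝ := a.sum fun k c => c * ω k

theorem rtrig_add (a b : ℤ →₀ ℝ) (x : UnitAddCircle) : rtrig (a + b) x = rtrig a x + rtrig b x := by
  unfold rtrig
  rw [Finsupp.sum_add_index']
  · intro k; simp
  · intro k c d; push_cast; ring

theorem rtrig_smul (t : ℝ) (a : ℤ →₀ ℝ) (x : UnitAddCircle) :
    rtrig (t • a) x = (t : ℂ) * rtrig a x := by
  unfold rtrig
  rw [Finsupp.sum_smul_index', Finsupp.sum, Finsupp.sum, Finset.mul_sum]
  · refine Finset.sum_congr rfl fun k _ => ?_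
    simp only [smul_eq_mul]; push_cast; ring
  · intro k; simp

theorem lin_add (a b : ℤ →₀ ℝ) (ω : ℤ → ℝ) : lin (a + b) ω = lin a ω + lin b ω := by
  unfold lin
  rw [Finsupp.sum_add_index']
  · intro k; simp
  · intro k c d; ring

theorem lin_smul (t : ℝ) (a : ℤ →₀ ℝ) (ω : ℤ → ℝ) : lin (t • a) ω = t * lin a ω := by
  unfold lin
  rw [Finsupp.sum_smul_index', Finsupp.sum, Finsupp.sum, Finset.mul_sum]
  · refine Finset.sum_congr rfl fun k _ => ?_
    simp only [smul_eq_mul]; ring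
  · intro k; simp

theorem rtrig_single (k : ℤ) (c : ℝ) (x : UnitAddCircle) :
    rtrig (Finsupp.single k c) x = (c : ℂ) * (fourier k x : ℂ) := by
  unfold rtrig
  rw [Finsupp.sum_single_index]; simp

theorem lin_single (k : ℤ) (c : ℝ) (ω : ℤ → ℝ) : lin (Finsupp.single k c) ω = c * ω k := by
  unfold lin
  rw [Finsupp.sum_single_index]; simp

theorem continuous_rtrig (a : ℤ →₀ ℝ) : Continuous (rtrig a) := by
  unfold rtrig Finsupp.sum
  refine continuous_finsetSum _ fun k _ => ?_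
  exact continuous_const.mul (map_continuous _)

theorem measurable_lin (a : ℤ →₀ ℝ) : Measurable (lin a) := by
  unfold lin Finsupp.sum
  refine Finset.measurable_fun_sum _ fun k _ => ?_
  exact (measurable_pi_apply k).const_mul _

/-- The quadratic form of a finite measure on the circle. -/
theorem quad_form (τ : Measure UnitAddCircle) [IsFiniteMeasure τ] (s : Finset ℤ) (a : ℤ → ℝ) :
    ∑ k ∈ s, ∑ l ∈ s, ((a k * a l : ℝ) : ℂ) * ∫ x, (fourier (k - l) x : ℂ) ∂τ =
      ((∫ x, ‖∑ k ∈ s, (a k : ℂ) * (fourier k x : ℂ)‖ ^ 2 ∂τ : ℝ) : ℂ) := by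
  rw [← integral_complex_ofReal]
  have hc : ∀ n : ℤ, Integrable (fun x : UnitAddCircle => (fourier n x : ℂ)) τ := fun n =>
    ((fourier n : C(UnitAddCircle, ℂ)).continuous).integrable_of_hasCompactSupport
      (HasCompactSupport.of_compactSpace _)
  have h1 : ∀ x : UnitAddCircle,
      (((‖∑ k ∈ s, (a k : ℂ) * (fourier k x : ℂ)‖ ^ 2 : ℝ)) : ℂ) =
        ∑ k ∈ s, ∑ l ∈ s, ((a k * a l : ℝ) : ℂ) * (fourier (k - l) x : ℂ) := by
    intro x
    have h2 : (((‖∑ k ∈ s, (a k : ℂ) * (fourier k x : ℂ)‖ ^ 2 : ℝ)) : ℂ) =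
        (∑ k ∈ s, (a k : ℂ) * (fourier k x : ℂ)) *
          (starRingEnd ℂ) (∑ l ∈ s, (a l : ℂ) * (fourier l x : ℂ)) := by
      rw [Complex.mul_conj, Complex.normSq_eq_norm_sq]
    rw [h2, map_sum, Finset.sum_mul_sum]
    refine Finset.sum_congr rfl fun k _ => Finset.sum_congr rfl fun l _ => ?_
    rw [map_mul, Complex.conj_ofReal, ← fourier_neg, sub_eq_add_neg, fourier_add]
    push_cast; ring
  simp only [h1]
  rw [integral_finsetSum]
  · refine Finset.sum_congr rfl fun k _ => ?_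
    rw [integral_finsetSum]
    · refine Finset.sum_congr rfl fun l _ => ?_
      rw [integral_const_mul]
    · intro l _; exact (hc _).const_mul _
  · intro k _
    exact integrable_finsetSum _ fun l _ => (hc _).const_mul _

/-- The characteristic function of a linear combination, in terms of the norm of the
trigonometric polynomial. -/
theorem charFun_lin {σ : Measure UnitAddCircle} [IsFiniteMeasure σ] {μ : Measure (ℤ → ℝ)}
    (hμ : IsGaussianShift σ μ) (a : ℤ →₀ ℝ) :
    ∫ ω, Complex.exp (Complex.I * (lin a ω : ℂ)) ∂μ =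
      Complex.exp (-(1 / 2) * ((∫ x, ‖rtrig a x‖ ^ 2 ∂σ : ℝ) : ℂ)) := by
  have h := hμ.2 a.support a
  rw [quad_form] at h
  exact h

theorem integral_rtrig_smul {σ : Measure UnitAddCircle} [IsFiniteMeasure σ] (t : ℝ) (a : ℤ →₀ ℝ) :
    ∫ x, ‖rtrig (t • a) x‖ ^ 2 ∂σ = t ^ 2 * ∫ x, ‖rtrig a x‖ ^ 2 ∂σ := by
  rw [← integral_const_mul]
  congr 1
  funext x
  rw [rtrig_smul, norm_mul, mul_pow, Complex.norm_real, Real.norm_eq_abs, sq_abs]

/-- The law of a linear combination. -/
theorem map_lin {σ : Measure UnitAddCircle} [IsFiniteMeasure σ] {μ : Measure (ℤ → ℝ)}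
    (hμ : IsGaussianShift σ μ) (a : ℤ →₀ ℝ) :
    μ.map (lin a) = ProbabilityTheory.gaussianReal 0 (∫ x, ‖rtrig a x‖ ^ 2 ∂σ).toNNReal := by
  have := hμ.1
  have : IsProbabilityMeasure (μ.map (lin a)) :=
    Measure.isProbabilityMeasure_map (measurable_lin a).aemeasurable
  have hq : 0 ≤ ∫ x, ‖rtrig a x‖ ^ 2 ∂σ := integral_nonneg fun x => by positivity
  refine Measure.ext_of_charFun (funext fun t => ?_)
  rw [charFun_apply_real, ProbabilityTheory.charFun_gaussianReal,
    integral_map (measurable_lin a).aemeasurable (by fun_prop)]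
  have h := charFun_lin hμ (t • a)
  rw [integral_rtrig_smul] at h
  have e1 : ∀ ω, Complex.exp ((t : ℂ) * (lin a ω : ℂ) * Complex.I) =
      Complex.exp (Complex.I * (lin (t • a) ω : ℂ)) := by
    intro ω; rw [lin_smul]; push_cast; ring_nf
  simp only [e1]
  rw [h]
  congr 1
  have : (((∫ x, ‖rtrig a x‖ ^ 2 ∂σ).toNNReal : ℝ) : ℂ) = ((∫ x, ‖rtrig a x‖ ^ 2 ∂σ : ℝ) : ℂ) := by
    rw [Real.coe_toNNReal _ hq]
  push_cast at this ⊢
  rw [this]; ring

theorem memLp_lin {σ : Measure UnitAddCircle} [IsFiniteMeasure σ] {μ : Measure (ℤ → ℝ)}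
    (hμ : IsGaussianShift σ μ) (a : ℤ →₀ ℝ) : MemLp (lin a) 2 μ := by
  have h : MemLp id 2 (μ.map (lin a)) := by
    rw [map_lin hμ a]
    exact ProbabilityTheory.memLp_id_gaussianReal 2
  exact (memLp_map_measure_iff aestronglyMeasurable_id (measurable_lin a).aemeasurable).1 h

theorem integral_lin_sq {σ : Measure UnitAddCircle} [IsFiniteMeasure σ] {μ : Measure (ℤ → ℝ)}
    (hμ : IsGaussianShift σ μ) (a : ℤ →₀ ℝ) :
    ∫ ω, lin a ω ^ 2 ∂μ = ∫ x, ‖rtrig a x‖ ^ 2 ∂σ := by
  have hq : 0 ≤ ∫ x, ‖rtrig a x‖ ^ 2 ∂σ := integral_nonneg fun x => by positivity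
  have h1 : ∫ ω, lin a ω ^ 2 ∂μ = ∫ x, x ^ 2 ∂(μ.map (lin a)) := by
    rw [integral_map (measurable_lin a).aemeasurable (by fun_prop)]
  rw [h1, map_lin hμ a]
  have h2 := ProbabilityTheory.variance_id_gaussianReal (μ := 0)
    (v := (∫ x, ‖rtrig a x‖ ^ 2 ∂σ).toNNReal)
  rw [ProbabilityTheory.variance_of_integral_eq_zero aemeasurable_id
    (by simp [ProbabilityTheory.integral_id_gaussianReal])] at h2
  rw [Real.coe_toNNReal _ hq] at h2
  simpa using h2

theorem gauss_memLp (σ : Measure UnitAddCircle) [IsFiniteMeasure σ]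
    (hsymm : σ.map (fun x => -x) = σ) (μ : Measure (ℤ → ℝ)) (hμ : IsGaussianShift σ μ) (k : ℤ) :
    MemLp (fun ω : ℤ → ℝ => ω k) 2 μ := by
  have h := memLp_lin hμ (Finsupp.single k 1)
  have e : lin (Finsupp.single k 1) = fun ω : ℤ → ℝ => ω k := by
    funext ω; rw [lin_single, one_mul]
  rwa [e] at h

theorem rtrig_sub_norm (a b : ℤ →₀ ℝ) (x : UnitAddCircle) :
    ‖rtrig (a + b) x‖ ^ 2 - ‖rtrig (a + (-1 : ℝ) • b) x‖ ^ 2 =
      4 * (rtrig a x * (starRingEnd ℂ) (rtrig b x)).re := by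
  rw [rtrig_add, rtrig_add, rtrig_smul, ← Complex.normSq_eq_norm_sq, ← Complex.normSq_eq_norm_sq]
  simp only [Complex.normSq_apply, Complex.add_re, Complex.add_im, Complex.mul_re, Complex.mul_im,
    Complex.conj_re, Complex.conj_im, Complex.ofReal_re, Complex.ofReal_im]
  ring

theorem integral_lin_mul {σ : Measure UnitAddCircle} [IsFiniteMeasure σ] {μ : Measure (ℤ → ℝ)}
    (hμ : IsGaussianShift σ μ) (a b : ℤ →₀ ℝ) :
    ∫ ω, lin a ω * lin b ω ∂μ = ∫ x, (rtrig a x * (starRingEnd ℂ) (rtrig b x)).re ∂σ := by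
  have hI : ∀ c : ℤ →₀ ℝ, Integrable (fun ω => lin c ω ^ 2) μ := fun c =>
    (memLp_lin hμ c).integrable_sq
  have hJ : ∀ c : ℤ →₀ ℝ, Integrable (fun x => ‖rtrig c x‖ ^ 2) σ := fun c =>
    ((continuous_rtrig c).norm.pow 2).integrable_of_hasCompactSupport
      (HasCompactSupport.of_compactSpace _)
  have h1 := integral_lin_sq hμ (a + b)
  have h2 := integral_lin_sq hμ (a + (-1 : ℝ) • b)
  have h3 : ∫ ω, lin (a + b) ω ^ 2 - lin (a + (-1 : ℝ) • b) ω ^ 2 ∂μ =
      ∫ x, ‖rtrig (a + b) x‖ ^ 2 - ‖rtrig (a + (-1 : ℝ) • b) x‖ ^ 2 ∂σ := by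
    rw [integral_sub (hI _) (hI _), integral_sub (hJ _) (hJ _), h1, h2]
  have e1 : ∀ ω, lin (a + b) ω ^ 2 - lin (a + (-1 : ℝ) • b) ω ^ 2 = 4 * (lin a ω * lin b ω) := by
    intro ω; rw [lin_add, lin_add, lin_smul]; ring
  simp only [e1, rtrig_sub_norm] at h3
  rw [integral_const_mul, integral_const_mul] at h3
  linarith

theorem gauss_cov (σ : Measure UnitAddCircle) [IsFiniteMeasure σ]
    (hsymm : σ.map (fun x => -x) = σ) (μ : Measure (ℤ → ℝ)) (hμ : IsGaussianShift σ μ)
    (k l : ℤ) : ((∫ ω, ω k * ω l ∂μ : ℝ) : ℂ) = ∫ x, (fourier (k - l) x : ℂ) ∂σ := by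
  have h := integral_lin_mul hμ (Finsupp.single k 1) (Finsupp.single l 1)
  simp only [lin_single, rtrig_single, one_mul, Complex.ofReal_one] at h
  have e : ∀ x : UnitAddCircle, (fourier k x : ℂ) * (starRingEnd ℂ) (fourier l x : ℂ) =
      (fourier (k - l) x : ℂ) := by
    intro x; rw [← fourier_neg, sub_eq_add_neg, fourier_add]
  simp only [e] at h
  rw [h]
  have hc : ∀ n : ℤ, Integrable (fun x : UnitAddCircle => (fourier n x : ℂ)) σ := fun n =>
    ((fourier n : C(UnitAddCircle, ℂ)).continuous).integrable_of_hasCompactSupport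
      (HasCompactSupport.of_compactSpace _)
  have hconj : ∀ n : ℤ, (starRingEnd ℂ) (∫ x, (fourier n x : ℂ) ∂σ) =
      ∫ x, (fourier n x : ℂ) ∂σ := by
    intro n
    rw [← integral_conj]
    conv_rhs => rw [← hsymm]
    rw [integral_map (by fun_prop) ((map_continuous _).aestronglyMeasurable)]
    congr 1
    funext x
    rw [← fourier_neg]
    simp [fourier_apply]
  have hre : ∫ x, (fourier (k - l) x : ℂ).re ∂σ = (∫ x, (fourier (k - l) x : ℂ) ∂σ).re :=
    integral_re (hc _)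
  rw [hre]
  exact (Complex.conj_eq_iff_re.1 (hconj (k - l)))

/-- The coefficients of `a` moved by one. -/
noncomputable def moveF (a : ℤ →₀ ℝ) : ℤ →₀ ℝ := a.mapDomain (fun k => k + 1)

theorem lin_moveF (a : ℤ →₀ ℝ) (ω : ℤ → ℝ) : lin (moveF a) ω = lin a (shift ω) := by
  unfold lin moveF
  rw [Finsupp.sum_mapDomain_index]
  · rfl
  · intro k; simp
  · intro k c d; ring

theorem rtrig_moveF (a : ℤ →₀ ℝ) (x : UnitAddCircle) :
    rtrig (moveF a) x = (fourier 1 x : ℂ) * rtrig a x := by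
  unfold rtrig moveF
  rw [Finsupp.sum_mapDomain_index]
  · unfold Finsupp.sum
    rw [Finset.mul_sum]
    refine Finset.sum_congr rfl fun k _ => ?_
    change (a k : ℂ) * (fourier (k + 1) x : ℂ) =
      (fourier 1 x : ℂ) * ((a k : ℂ) * (fourier k x : ℂ))
    rw [fourier_add]; ring
  · intro k; simp
  · intro k c d; push_cast; ring

/-- A finitely supported function with prescribed values on `s`. -/
noncomputable def ofFun (s : Finset ℤ) (a : ℤ → ℝ) : ℤ →₀ ℝ :=
  ∑ k ∈ s, Finsupp.single k (a k)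

theorem lin_zero (ω : ℤ → ℝ) : lin 0 ω = 0 := by simp [lin]

theorem rtrig_zero (x : UnitAddCircle) : rtrig 0 x = 0 := by simp [rtrig]

theorem lin_sum {ι : Type*} (s : Finset ι) (a : ι → ℤ →₀ ℝ) (ω : ℤ → ℝ) :
    lin (∑ i ∈ s, a i) ω = ∑ i ∈ s, lin (a i) ω := by
  classical
  induction s using Finset.induction_on with
  | empty => simp [lin_zero]
  | insert i s hi ih => rw [Finset.sum_insert hi, Finset.sum_insert hi, lin_add, ih]

theorem rtrig_sum {ι : Type*} (s : Finset ι) (a : ι → ℤ →₀ ℝ) (x : UnitAddCircle) :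
    rtrig (∑ i ∈ s, a i) x = ∑ i ∈ s, rtrig (a i) x := by
  classical
  induction s using Finset.induction_on with
  | empty => simp [rtrig_zero]
  | insert i s hi ih => rw [Finset.sum_insert hi, Finset.sum_insert hi, rtrig_add, ih]

theorem lin_ofFun (s : Finset ℤ) (a : ℤ → ℝ) (ω : ℤ → ℝ) :
    lin (ofFun s a) ω = ∑ k ∈ s, a k * ω k := by
  unfold ofFun; rw [lin_sum]
  exact Finset.sum_congr rfl fun k _ => lin_single _ _ _

theorem rtrig_ofFun (s : Finset ℤ) (a : ℤ → ℝ) (x : UnitAddCircle) :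
    rtrig (ofFun s a) x = ∑ k ∈ s, (a k : ℂ) * (fourier k x : ℂ) := by
  unfold ofFun; rw [rtrig_sum]
  exact Finset.sum_congr rfl fun k _ => rtrig_single _ _ _

theorem norm_fourier_one (n : ℤ) (x : UnitAddCircle) : ‖(fourier n x : ℂ)‖ = 1 := by
  rw [fourier_apply]; exact Circle.norm_coe _

theorem gauss_shift (σ : Measure UnitAddCircle) [IsFiniteMeasure σ]
    (μ : Measure (ℤ → ℝ)) (hμ : IsGaussianShift σ μ) : MeasurePreserving shift μ μ := by
  have := hμ.1
  have : IsProbabilityMeasure (μ.map shift) :=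
    Measure.isProbabilityMeasure_map shift.measurable.aemeasurable
  refine ⟨shift.measurable, ext_seq _ _ fun s a => ?_⟩
  simp only [← lin_ofFun]
  rw [integral_map shift.measurable.aemeasurable]
  · simp only [← lin_moveF]
    rw [charFun_lin hμ, charFun_lin hμ]
    congr 3
    refine integral_congr_ae (Eventually.of_forall fun x => ?_)
    simp only [rtrig_moveF, norm_mul, norm_fourier_one, one_mul]
  · refine Measurable.aestronglyMeasurable ?_
    exact (Complex.measurable_exp.comp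
      ((Complex.measurable_ofReal.comp (measurable_lin _)).const_mul _))

end HOST
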