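import Pool.Agent.Lib.MP_8a5982_an.HOST.Defs

/-!
Project HOST: module CHARF (helper84): characteristic functions determine measures on `ℝ^ℤ` and
on `(ℝ^ℤ)^N`; a criterion for the class `H`.
-/

open MeasureTheory Set Filter Topology
open scoped ENNReal NNReal ComplexConjugate

set_option linter.unusedSectionVars false

namespace HOST

/-- general index set: finite measures on `ι → ℝ` are determined by the exponentials of finite
linear combinations of coordinates -/
theorem ext_index {ι : Type*} (ν₁ ν₂ : Measure (ι → ℝ)) [IsFiniteMeasure ν₁] [IsFiniteMeasure ν₂]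
    (h : ∀ (s : Finset ι) (a : ι → ℝ),
      ∫ ω, Complex.exp (Complex.I * ((∑ k ∈ s, a k * ω k : ℝ) : ℂ)) ∂ν₁ =
      ∫ ω, Complex.exp (Complex.I * ((∑ k ∈ s, a k * ω k : ℝ) : ℂ)) ∂ν₂) : ν₁ = ν₂ := by
  classical
  refine IsProjectiveLimit.unique (P := fun I : Finset ι => ν₁.map I.restrict)
    (fun I => rfl) (fun I => ?_)
  have hm : Measurable (I.restrict : (ι → ℝ) → (I → ℝ)) := Finset.measurable_restrict I
  have f1 : IsFiniteMeasure (ν₁.map (I.restrict : (ι → ℝ) → (I → ℝ))) := inferInstance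
  have f2 : IsFiniteMeasure (ν₂.map (I.restrict : (ι → ℝ) → (I → ℝ))) := inferInstance
  refine Measure.ext_of_charFunDual (funext fun L => ?_)
  rw [charFunDual_apply, charFunDual_apply]
  have hL : ∀ ω : ι → ℝ, L (I.restrict ω) =
      ∑ k ∈ I, (if hk : k ∈ I then L (Pi.single ⟨k, hk⟩ 1) else 0) * ω k := by
    intro ω
    have e1 : (I.restrict ω : I → ℝ) = ∑ j : I, ω j • Pi.single j (1 : ℝ) := by
      ext j
      rw [Finset.sum_apply]
      simp only [Pi.smul_apply, smul_eq_mul, Finset.restrict_def]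
      rw [Finset.sum_eq_single j]
      · simp
      · intro b _ hb
        rw [Pi.single_eq_of_ne (Ne.symm hb), mul_zero]
      · simp
    rw [e1, map_sum, ← Finset.sum_coe_sort I]
    refine Finset.sum_congr rfl fun j _ => ?_
    rw [map_smul, smul_eq_mul, dif_pos j.2, mul_comm]
  have hexp : ∀ (ν : Measure (ι → ℝ)), ∫ x, Complex.exp (L x * Complex.I) ∂(ν.map I.restrict) =
      ∫ ω, Complex.exp (Complex.I * ((∑ k ∈ I,
        (if hk : k ∈ I then L (Pi.single ⟨k, hk⟩ 1) else 0) * ω k : ℝ) : ℂ)) ∂ν := by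
    intro ν
    rw [integral_map hm.aemeasurable]
    · congr 1
      ext ω
      rw [← hL ω, mul_comm]
    · have : Continuous fun x : I → ℝ => Complex.exp (L x * Complex.I) := by fun_prop
      exact this.measurable.aestronglyMeasurable
  rw [hexp ν₁, hexp ν₂]
  exact (h I _).symm

theorem ext_seq (ν₁ ν₂ : Measure (ℤ → ℝ)) [IsFiniteMeasure ν₁] [IsFiniteMeasure ν₂]
    (h : ∀ (s : Finset ℤ) (a : ℤ → ℝ),
      ∫ ω, Complex.exp (Complex.I * ((∑ k ∈ s, a k * ω k : ℝ) : ℂ)) ∂ν₁ =
      ∫ ω, Complex.exp (Complex.I * ((∑ k ∈ s, a k * ω k : ℝ) : ℂ)) ∂ν₂) : ν₁ = ν₂ :=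
  ext_index ν₁ ν₂ h

theorem ext_family (N : ℕ) (ν₁ ν₂ : Measure (Fin N → ℤ → ℝ)) [IsFiniteMeasure ν₁]
    [IsFiniteMeasure ν₂]
    (h : ∀ (s : Finset ℤ) (a : Fin N → ℤ → ℝ),
      ∫ ω, Complex.exp (Complex.I * ((∑ j, ∑ k ∈ s, a j k * ω j k : ℝ) : ℂ)) ∂ν₁ =
      ∫ ω, Complex.exp (Complex.I * ((∑ j, ∑ k ∈ s, a j k * ω j k : ℝ) : ℂ)) ∂ν₂) :
    ν₁ = ν₂ := by
  classical
  set c := (MeasurableEquiv.curry (Fin N) ℤ ℝ).symm with hc
  have key : ν₁.map c = ν₂.map c := by
    refine ext_index _ _ fun s a => ?_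
    have hmeas : Measurable fun ω : Fin N × ℤ → ℝ =>
        Complex.exp (Complex.I * ((∑ k ∈ s, a k * ω k : ℝ) : ℂ)) := by
      have : Measurable fun ω : Fin N × ℤ → ℝ => ∑ k ∈ s, a k * ω k := by fun_prop
      exact Complex.measurable_exp.comp
        (measurable_const.mul (Complex.measurable_ofReal.comp this))
    rw [integral_map c.measurable.aemeasurable hmeas.aestronglyMeasurable,
      integral_map c.measurable.aemeasurable hmeas.aestronglyMeasurable]
    have e : ∀ ω : Fin N → ℤ → ℝ, ∑ k ∈ s, a k * c ω k =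
        ∑ j, ∑ k ∈ s.image Prod.snd, (if (j, k) ∈ s then a (j, k) else 0) * ω j k := by
      intro ω
      have e1 : ∀ p : Fin N × ℤ, c ω p = ω p.1 p.2 := fun p => rfl
      simp only [e1]
      rw [← Finset.sum_product' (s := Finset.univ) (t := s.image Prod.snd)
        (f := fun j k => (if (j, k) ∈ s then a (j, k) else 0) * ω j k)]
      symm
      refine Finset.sum_subset_zero_on_sdiff ?_ ?_ ?_ |>.symm
      · intro p hp
        simp only [Finset.mem_product, Finset.mem_univ, true_and]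
        exact Finset.mem_image_of_mem _ hp
      · intro p hp
        rw [Finset.mem_sdiff] at hp
        rw [if_neg hp.2, zero_mul]
      · intro p hp
        rw [if_pos hp]
    simp only [e]
    exact h _ _
  have h2 : (ν₁.map c).map c.symm = (ν₂.map c).map c.symm := by rw [key]
  rw [Measure.map_map c.symm.measurable c.measurable,
    Measure.map_map c.symm.measurable c.measurable] at h2
  simpa using h2

/-- criterion: it suffices to split the exponentials -/
theorem classH_of_exp (μ : Measure (ℤ → ℝ)) [IsProbabilityMeasure μ]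
    (h : ∀ (Ω₁ Ω₂ : Type) [MeasurableSpace Ω₁] [MeasurableSpace Ω₂] (T₁ : Ω₁ ≃ᵐ Ω₁)
      (T₂ : Ω₂ ≃ᵐ Ω₂) (L : Measure (Ω₁ × Ω₂ × (ℤ → ℝ))), IsProbabilityMeasure L →
      MeasurePreserving (fun p : Ω₁ × Ω₂ × (ℤ → ℝ) => (T₁ p.1, T₂ p.2.1, shift p.2.2)) L L →
      L.map (fun p => p.2.2) = μ →
      L.map (fun p => (p.1, p.2.1)) = (L.map (fun p => p.1)).prod (L.map (fun p => p.2.1)) →
      L.map (fun p => (p.1, p.2.2)) = (L.map (fun p => p.1)).prod μ →
      L.map (fun p => (p.2.1, p.2.2)) = (L.map (fun p => p.2.1)).prod μ →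
      ∀ (A : Set Ω₁) (B : Set Ω₂), MeasurableSet A → MeasurableSet B →
      ∀ (s : Finset ℤ) (a : ℤ → ℝ),
      ∫ p in {p | p.1 ∈ A ∧ p.2.1 ∈ B},
          Complex.exp (Complex.I * ((∑ k ∈ s, a k * p.2.2 k : ℝ) : ℂ)) ∂L =
        ((L.map (fun p => p.1)).real A : ℂ) * ((L.map (fun p => p.2.1)).real B : ℂ) *
          ∫ ω, Complex.exp (Complex.I * ((∑ k ∈ s, a k * ω k : ℝ) : ℂ)) ∂μ) :
    ClassH shift μ := by
  intro Ω₁ Ω₂ _ _ T₁ T₂ L hL hinv h3 h12 h13 h23
  have hexp := h Ω₁ Ω₂ T₁ T₂ L hL hinv h3 h12 h13 h23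
  have hm1 : Measurable fun p : Ω₁ × Ω₂ × (ℤ → ℝ) => p.1 := measurable_fst
  have hm2 : Measurable fun p : Ω₁ × Ω₂ × (ℤ → ℝ) => p.2.1 := measurable_fst.comp measurable_snd
  have hm3 : Measurable fun p : Ω₁ × Ω₂ × (ℤ → ℝ) => p.2.2 := measurable_snd.comp measurable_snd
  have i1 : IsProbabilityMeasure (L.map (fun p => p.1)) :=
    Measure.isProbabilityMeasure_map hm1.aemeasurable
  have i2 : IsProbabilityMeasure (L.map (fun p => p.2.1)) :=
    Measure.isProbabilityMeasure_map hm2.aemeasurable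
  refine Measure.ext_prod₃ fun {A B C} hA hB hC => ?_
  set D : Set (Ω₁ × Ω₂ × (ℤ → ℝ)) := {p | p.1 ∈ A ∧ p.2.1 ∈ B} with hD
  have hDm : MeasurableSet D := (hm1 hA).inter (hm2 hB)
  have key : (L.restrict D).map (fun p => p.2.2) =
      (L.map (fun p => p.1) A * L.map (fun p => p.2.1) B) • μ := by
    have i3 : IsFiniteMeasure ((L.restrict D).map (fun p => p.2.2)) := inferInstance
    have i4 : IsFiniteMeasure ((L.map (fun p => p.1) A * L.map (fun p => p.2.1) B) • μ) :=
      Measure.smul_finite _ (ENNReal.mul_ne_top (measure_ne_top _ _) (measure_ne_top _ _))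
    refine ext_seq _ _ fun s a => ?_
    have hmeas : Measurable fun ω : ℤ → ℝ =>
        Complex.exp (Complex.I * ((∑ k ∈ s, a k * ω k : ℝ) : ℂ)) := by
      have : Measurable fun ω : ℤ → ℝ => ∑ k ∈ s, a k * ω k := by fun_prop
      exact Complex.measurable_exp.comp
        (measurable_const.mul (Complex.measurable_ofReal.comp this))
    rw [integral_map hm3.aemeasurable hmeas.aestronglyMeasurable, integral_smul_measure,
      ENNReal.toReal_mul, Complex.real_smul]
    rw [hexp A B hA hB s a]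
    push_cast
    rfl
  have h4 : L (A ×ˢ B ×ˢ C) = ((L.restrict D).map (fun p => p.2.2)) C := by
    rw [Measure.map_apply hm3 hC, Measure.restrict_apply (hm3 hC)]
    congr 1
    ext p
    simp only [mem_prod, hD, mem_inter_iff, mem_preimage, mem_ofPred_eq]
    tauto
  rw [h4, key, Measure.smul_apply, Measure.prod_prod, Measure.prod_prod, smul_eq_mul, mul_assoc]

end HOST
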