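import Pool.Agent.Lib.MP_8a5982_an.HOST.Base

/-!
Project HOST: systems in the class `H` have all properties `S(m,n)`.
-/

open MeasureTheory Set MeasurableSpace
open scoped ENNReal

namespace HOST

theorem prod_pi_eq {ι : Type} [Fintype ι] {X β : Type} [MeasurableSpace X] [MeasurableSpace β]
    (μ : ι → Measure X) [∀ i, IsProbabilityMeasure (μ i)] (ν : Measure β)
    [IsProbabilityMeasure ν] (ρ : Measure ((ι → X) × β))
    (h : ∀ A : ι → Set X, (∀ i, MeasurableSet (A i)) → ∀ B, MeasurableSet B →
      ρ ((Set.univ.pi A) ×ˢ B) = (∏ i, μ i (A i)) * ν B) : (Measure.pi μ).prod ν = ρ := by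
  refine Measure.prod_eq_generateFrom generateFrom_pi MeasurableSpace.generateFrom_measurableSet isPiSystem_pi
    MeasurableSpace.isPiSystem_measurableSet ?_ ?_ ?_
  · exact ⟨fun _ => univ, fun _ => ⟨fun _ => univ, by simp, by simp⟩, fun _ => by simp,
      by simp [iUnion_const]⟩
  · exact ⟨fun _ => univ, fun _ => MeasurableSet.univ, fun _ => by simp, by simp [iUnion_const]⟩
  · rintro _ ⟨A, hA, rfl⟩ B hB
    rw [Measure.pi_pi]
    exact h A (fun i => hA i (mem_univ i)) B hB

section

variable {X : Type} [MeasurableSpace X] {n : ℕ}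

/-- The face `s` of `L` gives boxes the product mass. -/
def Box (L : Measure (Fin n → X)) (μ : Measure X) (s : Finset (Fin n)) : Prop :=
  ∀ A : Fin n → Set X, (∀ i, MeasurableSet (A i)) →
    L {x | ∀ i ∈ s, x i ∈ A i} = ∏ i ∈ s, μ (A i)

theorem Box.mono {L : Measure (Fin n → X)} {μ : Measure X} [IsProbabilityMeasure μ]
    {s t : Finset (Fin n)} (h : Box L μ t) (hst : s ⊆ t) : Box L μ s := by
  classical
  intro A hA
  have h1 := h (fun i => if i ∈ s then A i else univ) (fun i => by
    by_cases hi : i ∈ s
    · simp [hi, hA i]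
    · simp [hi])
  have h2 : {x : Fin n → X | ∀ i ∈ t, x i ∈ if i ∈ s then A i else univ} =
      {x | ∀ i ∈ s, x i ∈ A i} := by
    ext x
    constructor
    · intro hx i hi
      have := hx i (hst hi)
      simpa [hi] using this
    · intro hx i _
      by_cases hi : i ∈ s
      · simpa [hi] using hx i hi
      · simp [hi]
  rw [h2] at h1
  rw [h1, ← Finset.prod_subset hst]
  · refine Finset.prod_congr rfl fun i hi => ?_
    simp [hi]
  · intro i _ hi
    simp [hi]

theorem box_of_face {L : Measure (Fin n → X)} {μ : Measure X} [IsProbabilityMeasure μ]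
    {s : Finset (Fin n)}
    (h : L.map (fun x (i : s) => x i) = Measure.pi (fun _ : s => μ)) : Box L μ s := by
  intro A hA
  have hm : Measurable (fun (x : Fin n → X) (i : s) => x i) :=
    measurable_pi_lambda _ fun i => measurable_pi_apply _
  have h1 : L {x | ∀ i ∈ s, x i ∈ A i} =
      (L.map (fun x (i : s) => x i)) (univ.pi fun i : s => A i) := by
    rw [Measure.map_apply hm (MeasurableSet.univ_pi fun i => hA i)]
    congr 1
    ext x
    simp [Set.mem_pi]
  rw [h1, h, Measure.pi_pi]
  exact Finset.prod_coe_sort s fun i => μ (A i)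

theorem box_step (T : X ≃ᵐ X) (μ : Measure X) [IsProbabilityMeasure μ] (h : ClassH T μ)
    (L : Measure (Fin n → X)) [IsProbabilityMeasure L]
    (hL : MeasurePreserving (fun (x : Fin n → X) i => T (x i)) L L) (s : Finset (Fin n))
    (b c : Fin n) (hbc : b ≠ c) (hb : b ∉ s) (hc : c ∉ s)
    (h1 : Box L μ (insert b s)) (h2 : Box L μ (insert c s)) (h3 : Box L μ {b, c}) :
    Box L μ (insert b (insert c s)) := by
  classical
  have hs : Box L μ s := h1.mono (Finset.subset_insert _ _)
  let φ : (Fin n → X) → (s → X) × X × X := fun x => (fun i => x i, x b, x c)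
  have hφ : Measurable φ :=
    (measurable_pi_lambda _ fun i => measurable_pi_apply _).prodMk
      ((measurable_pi_apply b).prodMk (measurable_pi_apply c))
  let T₁ : (s → X) ≃ᵐ (s → X) := MeasurableEquiv.piCongrRight fun _ => T
  have hLp : IsProbabilityMeasure (L.map φ) := Measure.isProbabilityMeasure_map hφ.aemeasurable
  have hT₁ : ∀ (y : s → X) (i : s), T₁ y i = T (y i) := fun y i => rfl
  -- marginals
  have m1 : (L.map φ).map (fun p => p.1) = Measure.pi fun _ : s => μ := by
    symm
    refine Measure.pi_eq fun A hA => ?_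
    rw [Measure.map_map measurable_fst hφ, Measure.map_apply (measurable_fst.comp hφ)
      (MeasurableSet.univ_pi hA)]
    have h4 := hs (fun i => if hi : i ∈ s then A ⟨i, hi⟩ else univ) (fun i => by
      by_cases hi : i ∈ s
      · simp [hi, hA]
      · simp [hi])
    have h5 : ((fun p : (s → X) × X × X => p.1) ∘ φ) ⁻¹' (univ.pi A) =
        {x : Fin n → X | ∀ i ∈ s, x i ∈ if hi : i ∈ s then A ⟨i, hi⟩ else univ} := by
      ext x
      simp only [mem_preimage, Function.comp_apply, Set.mem_pi, mem_univ, true_imp_iff,
        mem_ofPred_eq, φ]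
      constructor
      · intro hx i hi
        simpa [hi] using hx ⟨i, hi⟩
      · intro hx i
        have := hx i i.2
        simpa using this
    rw [h5, h4, ← Finset.prod_coe_sort]
    refine Finset.prod_congr rfl fun i _ => ?_
    simp
  have m2 : (L.map φ).map (fun p => p.2.1) = μ := by
    ext B hB
    rw [Measure.map_map (by fun_prop) hφ, Measure.map_apply (by fun_prop) hB]
    have h4 := (h1.mono (s := {b}) (by simp)) (fun _ => B) (fun _ => hB)
    simp only [Finset.mem_singleton, forall_eq, Finset.prod_singleton] at h4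
    exact h4
  have m3 : (L.map φ).map (fun p => p.2.2) = μ := by
    ext B hB
    rw [Measure.map_map (by fun_prop) hφ, Measure.map_apply (by fun_prop) hB]
    have h4 := (h2.mono (s := {c}) (by simp)) (fun _ => B) (fun _ => hB)
    simp only [Finset.mem_singleton, forall_eq, Finset.prod_singleton] at h4
    exact h4
  -- a general computation
  have key : ∀ (d : Fin n), d ∉ s → Box L μ (insert d s) → ∀ (g : (s → X) × X × X → (s → X) × X),
      Measurable g → (∀ x : Fin n → X, g (φ x) = ((fun i : s => x i), x d)) →
      (L.map φ).map g = (Measure.pi fun _ : s => μ).prod μ := by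
    intro d hd hbox g hg hgφ
    symm
    refine prod_pi_eq _ _ _ fun A hA B hB => ?_
    rw [Measure.map_map hg hφ, Measure.map_apply (hg.comp hφ)
      ((MeasurableSet.univ_pi hA).prod hB)]
    have h4 := hbox (fun i => if hi : i ∈ s then A ⟨i, hi⟩ else B) (fun i => by
      by_cases hi : i ∈ s
      · simp [hi, hA]
      · simp [hi, hB])
    have h5 : (g ∘ φ) ⁻¹' ((univ.pi A) ×ˢ B) =
        {x : Fin n → X | ∀ i ∈ insert d s, x i ∈ if hi : i ∈ s then A ⟨i, hi⟩ else B} := by
      ext x
      simp only [mem_preimage, Function.comp_apply, hgφ, mem_prod, Set.mem_pi, mem_univ,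
        true_imp_iff, mem_ofPred_eq, Finset.forall_mem_insert]
      constructor
      · rintro ⟨hx, hxd⟩
        refine ⟨by simpa [hd] using hxd, fun i hi => ?_⟩
        simpa [hi] using hx ⟨i, hi⟩
      · rintro ⟨hxd, hx⟩
        refine ⟨fun i => ?_, by simpa [hd] using hxd⟩
        have := hx i i.2
        simpa using this
    rw [h5, h4, Finset.prod_insert hd, mul_comm]
    congr 1
    · rw [← Finset.prod_coe_sort]
      refine Finset.prod_congr rfl fun i _ => ?_
      simp
    · simp [hd]
  have k1 : (L.map φ).map (fun p => (p.1, p.2.1)) = (Measure.pi fun _ : s => μ).prod μ :=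
    key b hb h1 _ (by fun_prop) (fun x => rfl)
  have k2 : (L.map φ).map (fun p => (p.1, p.2.2)) = (Measure.pi fun _ : s => μ).prod μ :=
    key c hc h2 _ (by fun_prop) (fun x => rfl)
  have k3 : (L.map φ).map (fun p => (p.2.1, p.2.2)) = μ.prod μ := by
    symm
    refine Measure.prod_eq fun B C hB hC => ?_
    rw [Measure.map_map (by fun_prop) hφ, Measure.map_apply (by fun_prop) (hB.prod hC)]
    have h4 := h3 (fun i => if i = b then B else C) (fun i => by
      by_cases hi : i = b
      · simp [hi, hB]
      · simp [hi, hC])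
    rw [Finset.prod_pair hbc] at h4
    simp only [if_true, if_neg hbc.symm, Finset.forall_mem_insert, Finset.mem_singleton,
      forall_eq] at h4
    exact h4
  have hmp : MeasurePreserving (fun p : (s → X) × X × X => (T₁ p.1, T p.2.1, T p.2.2))
      (L.map φ) (L.map φ) := by
    have hmeas : Measurable (fun p : (s → X) × X × X => (T₁ p.1, T p.2.1, T p.2.2)) := by
      fun_prop
    refine ⟨hmeas, ?_⟩
    rw [Measure.map_map hmeas hφ]
    have : (fun p : (s → X) × X × X => (T₁ p.1, T p.2.1, T p.2.2)) ∘ φ =
        φ ∘ (fun (x : Fin n → X) i => T (x i)) := by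
      funext x; rfl
    rw [this, ← Measure.map_map hφ hL.measurable, hL.map_eq]
  have hfin := h (s → X) X T₁ T (L.map φ) hLp hmp m3 (by rw [k1, m1, m2]) (by rw [k2, m1])
    (by rw [k3, m2])
  rw [m1, m2] at hfin
  intro A hA
  have h6 : L {x | ∀ i ∈ insert b (insert c s), x i ∈ A i} =
      (L.map φ) ((univ.pi fun i : s => A i) ×ˢ (A b ×ˢ A c)) := by
    rw [Measure.map_apply hφ ((MeasurableSet.univ_pi fun i : s => hA i).prod ((hA b).prod (hA c)))]
    congr 1
    ext x
    simp only [mem_ofPred_eq, Finset.forall_mem_insert, mem_preimage, mem_prod, Set.mem_pi,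
      mem_univ, true_imp_iff, φ, Subtype.forall]
    tauto
  rw [h6, hfin, Measure.prod_prod, Measure.prod_prod, Measure.pi_pi,
    Finset.prod_insert (by simp [hbc, hb]), Finset.prod_insert hc,
    Finset.prod_coe_sort s fun i => μ (A i)]
  ring

theorem classH_hasS (T : X ≃ᵐ X) (μ : Measure X)
    [IsProbabilityMeasure μ] (h : ClassH T μ) (m n : ℕ) (hm : 1 < m) (hmn : m < n) :
    HasS T μ m n := by
  classical
  intro L hLp hL hface
  have small : ∀ s : Finset (Fin n), s.card ≤ m → Box L μ s := by
    intro s hs
    obtain ⟨t, hst, ht⟩ := Finset.exists_superset_card_eq hs (by simpa using hmn.le)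
    exact (box_of_face (hface t ht)).mono hst
  have all : ∀ (k : ℕ) (s : Finset (Fin n)), s.card = k → Box L μ s := by
    intro k
    induction k using Nat.strong_induction_on with
    | _ k ih =>
      intro s hs
      by_cases hk : k ≤ m
      · exact small s (hs ▸ hk)
      · push Not at hk
        obtain ⟨b, hb⟩ : s.Nonempty := by
          rw [← Finset.card_pos]; omega
        have hc1 : (s.erase b).card = k - 1 := by rw [Finset.card_erase_of_mem hb, hs]
        obtain ⟨c, hc⟩ : (s.erase b).Nonempty := by
          rw [← Finset.card_pos]; omega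
        have hcs : c ∈ s := Finset.mem_of_mem_erase hc
        have hcb : c ≠ b := Finset.ne_of_mem_erase hc
        have hc2 : ((s.erase b).erase c).card = k - 2 := by
          rw [Finset.card_erase_of_mem hc, hc1]; omega
        set s' := (s.erase b).erase c with hs'
        have hbs' : b ∉ s' := by simp [hs']
        have hcs' : c ∉ s' := by simp [hs']
        have e1 : insert c s' = s.erase b := Finset.insert_erase hc
        have e2 : insert b (insert c s') = s := by rw [e1, Finset.insert_erase hb]
        rw [← e2]
        refine box_step T μ h L hL s' b c hcb.symm hbs' hcs' ?_ ?_ ?_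
        · refine ih (k - 1) (by omega) _ ?_
          rw [Finset.card_insert_of_notMem hbs', hc2]; omega
        · refine ih (k - 1) (by omega) _ ?_
          rw [e1, hc1]
        · refine small _ ?_
          rw [Finset.card_pair hcb.symm]; omega
  have hu := all _ Finset.univ rfl
  symm
  refine Measure.pi_eq fun A hA => ?_
  have := hu A hA
  rw [← this]
  congr 1
  ext x
  simp [Set.mem_pi]

end

end HOST
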