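import Pool.Agent.Lib.MP_8a5982_an.HOST.Defs

/-!
Project HOST (MP_8a5982_an), module EXIST: every symmetric finite measure on the circle is the
spectral measure of a Gaussian shift.
-/

open MeasureTheory ProbabilityTheory InnerProductSpace
open scoped RealInnerProductSpace

namespace HOST

namespace ExistAux

section GS

variable {H : Type*} [NormedAddCommGroup H] [InnerProductSpace ℝ H]

/-- the coefficients of `e n` in the Gram-Schmidt system -/
noncomputable def coef (e : ℕ → H) (n j : ℕ) : ℝ :=
  ⟪gramSchmidtNormed ℝ e j, e n⟫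

theorem coef_eq_zero (e : ℕ → H) {n j : ℕ} (h : n < j) : coef e n j = 0 := by
  unfold coef gramSchmidtNormed
  rw [real_inner_smul_left, gramSchmidt_inv_triangular ℝ e h, mul_zero]

theorem expand (e : ℕ → H) (n : ℕ) :
    e n = ∑ j ∈ Finset.range (n + 1), coef e n j • gramSchmidtNormed ℝ e j := by
  rw [Finset.sum_range_succ]
  have hdef := gramSchmidt_def'' ℝ e n
  have hterm : ∀ j, coef e n j • gramSchmidtNormed ℝ e j =
      ((⟪gramSchmidt ℝ e j, e n⟫ : ℝ) / ((‖gramSchmidt ℝ e j‖ : ℝ) : ℝ) ^ 2) • gramSchmidt ℝ e j := by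
    intro j
    unfold coef gramSchmidtNormed
    rw [real_inner_smul_left, smul_smul]
    congr 1
    simp only [RCLike.ofReal_real_eq_id, id_eq]
    field_simp
  have hlast : coef e n n • gramSchmidtNormed ℝ e n = gramSchmidt ℝ e n := by
    rw [hterm]
    have h1 : ⟪gramSchmidt ℝ e n, e n⟫ = ‖gramSchmidt ℝ e n‖ ^ 2 := by
      conv_lhs => rw [hdef]
      rw [inner_add_right, inner_sum, real_inner_self_eq_norm_sq]
      rw [Finset.sum_eq_zero, add_zero]
      intro i hi
      rw [real_inner_smul_right]
      have : ⟪gramSchmidt ℝ e n, gramSchmidt ℝ e i⟫ = 0 :=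
        gramSchmidt_orthogonal ℝ e (by have := Finset.mem_Iio.1 hi; omega)
      rw [this, mul_zero]
    rw [h1]
    by_cases h0 : gramSchmidt ℝ e n = 0
    · rw [h0]; simp
    · rw [div_self (by positivity), one_smul]
  rw [hlast]
  conv_lhs => rw [hdef]
  rw [add_comm]
  congr 1
  have hI : Finset.Iio n = Finset.range n := by
    ext x; simp
  rw [hI]
  refine Finset.sum_congr rfl fun j _ => ?_
  rw [hterm]
  simp

theorem expand' (e : ℕ → H) {n N : ℕ} (h : n < N) :
    e n = ∑ j ∈ Finset.range N, coef e n j • gramSchmidtNormed ℝ e j := by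
  conv_lhs => rw [expand e n]
  refine Finset.sum_subset ?_ ?_
  · intro x hx
    simp only [Finset.mem_range] at hx ⊢
    omega
  · intro x _ hx
    simp only [Finset.mem_range] at hx
    rw [coef_eq_zero e (by omega), zero_smul]

theorem norm_sq_sum (e : ℕ → H) (s : Finset ℕ) (a : ℕ → ℝ) (N : ℕ) (hN : ∀ n ∈ s, n < N) :
    ‖∑ n ∈ s, a n • e n‖ ^ 2 =
      ∑ j ∈ Finset.range N, (∑ n ∈ s, a n * coef e n j) ^ 2 := by
  have h1 : ∑ n ∈ s, a n • e n =
      ∑ j ∈ Finset.range N, (∑ n ∈ s, a n * coef e n j) • gramSchmidtNormed ℝ e j := by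
    calc ∑ n ∈ s, a n • e n
        = ∑ n ∈ s, ∑ j ∈ Finset.range N, (a n * coef e n j) • gramSchmidtNormed ℝ e j := by
          refine Finset.sum_congr rfl fun n hn => ?_
          conv_lhs => rw [expand' e (hN n hn)]
          rw [Finset.smul_sum]
          refine Finset.sum_congr rfl fun j _ => ?_
          rw [smul_smul]
      _ = ∑ j ∈ Finset.range N, ∑ n ∈ s, (a n * coef e n j) • gramSchmidtNormed ℝ e j :=
          Finset.sum_comm
      _ = _ := by
          refine Finset.sum_congr rfl fun j _ => ?_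
          rw [Finset.sum_smul]
  rw [h1, ← real_inner_self_eq_norm_sq, sum_inner]
  refine Finset.sum_congr rfl fun j hj => ?_
  rw [inner_sum, Finset.sum_eq_single j]
  · rw [real_inner_smul_left, real_inner_smul_right, real_inner_self_eq_norm_sq]
    by_cases h0 : gramSchmidtNormed ℝ e j = 0
    · have : ∑ n ∈ s, a n * coef e n j = 0 := by
        refine Finset.sum_eq_zero fun n _ => ?_
        unfold coef
        rw [h0, inner_zero_left, mul_zero]
      rw [this]; simp
    · have := gramSchmidtNormed_unit_length' (𝕜 := ℝ) h0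
      rw [this]; ring
  · intro i _ hij
    rw [real_inner_smul_left, real_inner_smul_right]
    have h0 : ⟪gramSchmidtNormed ℝ e j, gramSchmidtNormed ℝ e i⟫ = 0 := by
      unfold gramSchmidtNormed
      rw [real_inner_smul_left, real_inner_smul_right,
        gramSchmidt_orthogonal ℝ e (Ne.symm hij)]
      simp
    rw [h0]; ring
  · intro h; exact absurd hj h

end GS

/-- the standard Gaussian measure on `ℕ → ℝ` -/
noncomputable def γ : Measure (ℕ → ℝ) := Measure.infinitePi fun _ : ℕ => gaussianReal 0 1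

instance : IsProbabilityMeasure γ := by unfold γ; infer_instance

theorem integral_gauss (t : ℝ) :
    ∫ x, Complex.exp (Complex.I * ((t * x : ℝ) : ℂ)) ∂(gaussianReal 0 1) =
      Complex.exp (-(1 / 2) * ((t ^ 2 : ℝ) : ℂ)) := by
  have h := charFun_gaussianReal (μ := 0) (v := 1) t
  rw [charFun_apply_real] at h
  calc ∫ x, Complex.exp (Complex.I * ((t * x : ℝ) : ℂ)) ∂(gaussianReal 0 1)
      = ∫ x, Complex.exp (t * x * Complex.I) ∂(gaussianReal 0 1) := by
        refine integral_congr_ae (Filter.Eventually.of_forall fun x => ?_)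
        simp only
        congr 1
        push_cast
        ring
    _ = _ := by
        rw [h]
        congr 1
        push_cast
        simp
        ring

theorem integral_γ (N : ℕ) (d : ℕ → ℝ) :
    ∫ ω, Complex.exp (Complex.I * ((∑ j ∈ Finset.range N, d j * ω j : ℝ) : ℂ)) ∂γ =
      Complex.exp (-(1 / 2) * ((∑ j ∈ Finset.range N, d j ^ 2 : ℝ) : ℂ)) := by
  set s := Finset.range N with hs
  set f : (s → ℝ) → ℂ := fun y => ∏ i : s, Complex.exp (Complex.I * ((d i * y i : ℝ) : ℂ)) with hf
  have hfc : Continuous f := by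
    rw [hf]
    refine continuous_finsetProd _ fun i _ => ?_
    refine Complex.continuous_exp.comp ?_
    refine continuous_const.mul ?_
    refine Complex.continuous_ofReal.comp ?_
    exact continuous_const.mul (continuous_apply i)
  have h1 : ∀ ω : ℕ → ℝ,
      Complex.exp (Complex.I * ((∑ j ∈ s, d j * ω j : ℝ) : ℂ)) = f (s.restrict ω) := by
    intro ω
    rw [hf]
    simp only [Finset.restrict_def]
    rw [← Complex.exp_sum]
    congr 1
    rw [← Finset.mul_sum]
    congr 1
    push_cast
    rw [Finset.sum_coe_sort s (fun j => (d j : ℂ) * (ω j : ℂ))]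
  simp only [h1]
  unfold γ
  rw [integral_restrict_infinitePi (X := fun _ : ℕ => ℝ) (μ := fun _ : ℕ => gaussianReal 0 1)
    (f := f) hfc.aestronglyMeasurable]
  rw [hf]
  rw [integral_fintype_prod_eq_prod (fun (i : s) (x : ℝ) =>
    Complex.exp (Complex.I * ((d i * x : ℝ) : ℂ)))]
  simp only [integral_gauss]
  rw [← Complex.exp_sum]
  congr 1
  rw [← Finset.mul_sum]
  congr 1
  push_cast
  rw [Finset.sum_coe_sort s (fun j => (d j : ℂ) ^ 2)]

/-- A centred Gaussian family with prescribed Gram matrix. -/
theorem exists_gauss_family {H : Type*} [NormedAddCommGroup H] [InnerProductSpace ℝ H]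
    (e : ℤ → H) : ∃ μ : Measure (ℤ → ℝ), IsProbabilityMeasure μ ∧
      ∀ (s : Finset ℤ) (a : ℤ → ℝ),
        ∫ ω, Complex.exp (Complex.I * ((∑ k ∈ s, a k * ω k : ℝ) : ℂ)) ∂μ =
          Complex.exp (-(1 / 2) * ((‖∑ k ∈ s, a k • e k‖ ^ 2 : ℝ) : ℂ)) := by
  obtain ⟨q⟩ : Nonempty (ℕ ≃ ℤ) := ⟨(Denumerable.eqv ℤ).symm⟩
  set e' : ℕ → H := fun n => e (q n) with he'
  set ξ : (ℕ → ℝ) → (ℤ → ℝ) := fun ω k =>
    ∑ j ∈ Finset.range (q.symm k + 1), coef e' (q.symm k) j * ω j with hξ
  have hξm : Measurable ξ := by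
    rw [hξ]
    refine measurable_pi_lambda _ fun k => ?_
    refine Finset.measurable_sum _ fun j _ => ?_
    exact (measurable_pi_apply j).const_mul _
  refine ⟨γ.map ξ, Measure.isProbabilityMeasure_map hξm.aemeasurable, ?_⟩
  intro s a
  have hmeas : AEStronglyMeasurable
      (fun ω : ℤ → ℝ => Complex.exp (Complex.I * ((∑ k ∈ s, a k * ω k : ℝ) : ℂ))) (γ.map ξ) := by
    refine Measurable.aestronglyMeasurable ?_
    refine Complex.measurable_exp.comp ?_
    refine Measurable.const_mul ?_ _
    refine Complex.measurable_ofReal.comp ?_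
    refine Finset.measurable_sum _ fun k _ => ?_
    exact (measurable_pi_apply k).const_mul _
  rw [integral_map hξm.aemeasurable hmeas]
  -- pass to natural indices
  set s' : Finset ℕ := s.map q.symm.toEmbedding with hs'
  set a' : ℕ → ℝ := fun n => a (q n) with ha'
  set N : ℕ := s'.sup id + 1 with hN
  have hlt : ∀ n ∈ s', n < N := by
    intro n hn
    have := Finset.le_sup (f := id) hn
    simp only [id_eq] at this
    omega
  have hsum : ∑ k ∈ s, a k • e k = ∑ n ∈ s', a' n • e' n := by
    rw [hs', Finset.sum_map]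
    refine Finset.sum_congr rfl fun k _ => ?_
    simp [ha', he']
  rw [hsum, norm_sq_sum e' s' a' N hlt, ← integral_γ]
  refine integral_congr_ae (Filter.Eventually.of_forall fun ω => ?_)
  simp only
  congr 3
  have h1 : ∑ k ∈ s, a k * ξ ω k =
      ∑ n ∈ s', a' n * ∑ j ∈ Finset.range N, coef e' n j * ω j := by
    rw [hs', Finset.sum_map]
    refine Finset.sum_congr rfl fun k hk => ?_
    simp only [ha', hξ, Equiv.coe_toEmbedding, Equiv.apply_symm_apply]
    congr 1
    refine Finset.sum_subset ?_ ?_
    · intro x hx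
      simp only [Finset.mem_range] at hx ⊢
      have : q.symm k < N := hlt _ (by rw [hs']; exact Finset.mem_map_of_mem _ hk)
      omega
    · intro x _ hx
      simp only [Finset.mem_range] at hx
      rw [coef_eq_zero e' (by omega), zero_mul]
  rw [h1]
  calc ∑ n ∈ s', a' n * ∑ j ∈ Finset.range N, coef e' n j * ω j
      = ∑ n ∈ s', ∑ j ∈ Finset.range N, a' n * coef e' n j * ω j := by
        refine Finset.sum_congr rfl fun n _ => ?_
        rw [Finset.mul_sum]
        refine Finset.sum_congr rfl fun j _ => ?_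
        ring
    _ = ∑ j ∈ Finset.range N, ∑ n ∈ s', a' n * coef e' n j * ω j := Finset.sum_comm
    _ = _ := by
        refine Finset.sum_congr rfl fun j _ => ?_
        rw [Finset.sum_mul]

section Circle

variable (σ : Measure UnitAddCircle) [IsFiniteMeasure σ]

/-- the class of the character in `L²(σ)` -/
noncomputable def ek (k : ℤ) : Lp ℂ 2 σ :=
  (MemLp.of_bound (p := 2) (f := fun x => (fourier k x : ℂ))
    (by exact (fourier (T := 1) k).continuous.aestronglyMeasurable) 1
    (Filter.Eventually.of_forall fun x => by simp)).toLp _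

theorem inner_ek (k l : ℤ) :
    ⟪ek σ k, ek σ l⟫ = (∫ x, (fourier (l - k) x : ℂ) ∂σ).re := by
  rw [L2.inner_def]
  have h1 : (∫ x, (fourier (l - k) x : ℂ) ∂σ).re = ∫ x, ((fourier (l - k) x : ℂ)).re ∂σ := by
    have hint : Integrable (fun x => (fourier (l - k) x : ℂ)) σ := by
      refine Integrable.of_bound (C := 1) ?_ (Filter.Eventually.of_forall fun x => by simp)
      exact (fourier (T := 1) (l - k)).continuous.aestronglyMeasurable
    exact (integral_re hint).symm
  rw [h1]
  refine integral_congr_ae ?_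
  filter_upwards [MemLp.coeFn_toLp (MemLp.of_bound (p := 2) (μ := σ)
      (f := fun x => (fourier k x : ℂ))
      (by exact (fourier (T := 1) k).continuous.aestronglyMeasurable) 1
      (Filter.Eventually.of_forall fun x => by simp)),
    MemLp.coeFn_toLp (MemLp.of_bound (p := 2) (μ := σ)
      (f := fun x => (fourier l x : ℂ))
      (by exact (fourier (T := 1) l).continuous.aestronglyMeasurable) 1
      (Filter.Eventually.of_forall fun x => by simp))] with x hx hy
  unfold ek
  rw [hx, hy]
  rw [real_inner_eq_re_inner ℂ]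
  simp only [RCLike.inner_apply]
  rw [sub_eq_add_neg, fourier_add, fourier_neg]
  rfl

omit [IsFiniteMeasure σ] in
theorem integral_fourier_real (hsymm : σ.map (fun x => -x) = σ) (n : ℤ) :
    ∫ x, (fourier n x : ℂ) ∂σ = ((∫ x, (fourier n x : ℂ) ∂σ).re : ℂ) := by
  have h : (starRingEnd ℂ) (∫ x, (fourier n x : ℂ) ∂σ) = ∫ x, (fourier n x : ℂ) ∂σ := by
    rw [← integral_conj]
    conv_rhs => rw [← hsymm]
    rw [integral_map (measurable_neg).aemeasurable
      ((fourier (T := 1) n).continuous.aestronglyMeasurable)]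
    refine integral_congr_ae (Filter.Eventually.of_forall fun x => ?_)
    simp only
    rw [← fourier_neg]
    simp [fourier_apply]
  exact (Complex.conj_eq_iff_re.1 h).symm

end Circle

end ExistAux

open ExistAux in
/-- **EXIST.** -/
theorem exists_gaussianShift (σ : Measure UnitAddCircle) [IsFiniteMeasure σ]
    (hsymm : σ.map (fun x => -x) = σ) :
    ∃ μ : Measure (ℤ → ℝ), IsGaussianShift σ μ := by
  obtain ⟨μ, hμ, h⟩ := exists_gauss_family (ek σ)
  refine ⟨μ, hμ, fun s a => ?_⟩
  rw [h s a]
  congr 2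
  rw [← real_inner_self_eq_norm_sq, sum_inner]
  push_cast
  refine Finset.sum_congr rfl fun k _ => ?_
  rw [inner_sum]
  push_cast
  refine Finset.sum_congr rfl fun l _ => ?_
  rw [real_inner_smul_left, real_inner_smul_right, inner_ek]
  rw [integral_fourier_real σ hsymm (k - l)]
  have hneg : (∫ x, (fourier (l - k) x : ℂ) ∂σ).re = (∫ x, (fourier (k - l) x : ℂ) ∂σ).re := by
    have : ∀ x : UnitAddCircle, (fourier (l - k) x : ℂ) =
        (starRingEnd ℂ) (fourier (k - l) x : ℂ) := by
      intro x
      rw [← fourier_neg, neg_sub]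
    simp only [this]
    rw [integral_conj, Complex.conj_re]
  rw [hneg]
  push_cast
  ring

end HOST
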