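import Pool.Agent.Lib.MP_8a5982_an.HOST.Factor
import Pool.Agent.Lib.MP_8a5982_an.HOST.Exist
import Pool.Agent.Lib.MP_8a5982_an.HOST.Pieces

/-!
Project HOST: the class `H` and absolutely continuous spectral measures.
-/

open MeasureTheory Filter Set
open scoped ENNReal

namespace HOST

theorem exists_symm_sqrt (σ τ : Measure UnitAddCircle) [IsFiniteMeasure σ] [IsFiniteMeasure τ]
    (hσ : σ.map (fun x => -x) = σ) (hτ : τ.map (fun x => -x) = τ) (hac : τ ≪ σ) :
    ∃ g : UnitAddCircle → ℂ, Measurable g ∧ MemLp g 2 σ ∧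
      (∀ x, g (-x) = (starRingEnd ℂ) (g x)) ∧
      σ.withDensity (fun x => ENNReal.ofReal (‖g x‖ ^ 2)) = τ := by
  have hneg : Measurable (fun x : UnitAddCircle => -x) := measurable_neg
  set f : UnitAddCircle → ℝ≥0∞ := τ.rnDeriv σ with hf
  have hfm : Measurable f := Measure.measurable_rnDeriv _ _
  have hLD := Measure.haveLebesgueDecomposition_of_sigmaFinite τ σ
  have hfd : σ.withDensity f = τ := Measure.withDensity_rnDeriv_eq _ _ hac
  -- symmetrised real density
  set r : UnitAddCircle → ℝ := fun x => ((f x).toReal + (f (-x)).toReal) / 2 with hr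
  have hrm : Measurable r := ((hfm.ennreal_toReal).add ((hfm.comp hneg).ennreal_toReal)).div_const 2
  have hr0 : ∀ x, 0 ≤ r x := fun x => by positivity
  have hrs : ∀ x, r (-x) = r x := fun x => by simp only [hr, neg_neg]; ring
  -- f(-x) = f(x) almost everywhere
  have hfneg : ∀ᵐ x ∂σ, f (-x) = f x := by
    refine ae_eq_of_forall_setLIntegral_eq_of_sigmaFinite (hfm.comp hneg) hfm fun D hD _ => ?_
    have h1 : MeasurePreserving (fun x : UnitAddCircle => -x) σ σ := ⟨hneg, hσ⟩
    have h2 := h1.setLIntegral_comp_preimage (s := (fun x : UnitAddCircle => -x) ⁻¹' D)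
      (hneg hD) (f := f) hfm
    have h3 : (fun x : UnitAddCircle => -x) ⁻¹' ((fun x : UnitAddCircle => -x) ⁻¹' D) = D := by
      ext x; simp
    rw [h3] at h2
    refine Eq.trans h2 ?_
    rw [← withDensity_apply _ (hneg hD), ← withDensity_apply _ hD, hfd]
    conv_rhs => rw [← hτ]
    rw [Measure.map_apply hneg hD]
  have hflt : ∀ᵐ x ∂σ, f x < ∞ := Measure.rnDeriv_lt_top _ _
  have hrf : ∀ᵐ x ∂σ, ENNReal.ofReal (r x) = f x := by
    filter_upwards [hfneg, hflt] with x h1 h2
    simp only [hr, h1]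
    rw [add_self_div_two, ENNReal.ofReal_toReal h2.ne]
  refine ⟨fun x => ((Real.sqrt (r x) : ℝ) : ℂ), ?_, ?_, ?_, ?_⟩
  · exact Complex.measurable_ofReal.comp hrm.sqrt
  · have hm : Measurable fun x => ((Real.sqrt (r x) : ℝ) : ℂ) :=
      Complex.measurable_ofReal.comp hrm.sqrt
    rw [memLp_two_iff_integrable_sq_norm hm.aestronglyMeasurable]
    have h1 : Integrable r σ := by
      refine ⟨hrm.aestronglyMeasurable, ?_⟩
      rw [hasFiniteIntegral_iff_ofReal (Eventually.of_forall hr0), lintegral_congr_ae hrf]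
      have h2 : ∫⁻ x, f x ∂σ = τ univ := by
        rw [← hfd, withDensity_apply _ MeasurableSet.univ, Measure.restrict_univ]
      rw [h2]
      exact measure_lt_top τ _
    refine h1.congr (Eventually.of_forall fun x => ?_)
    simp only [Complex.norm_real, Real.norm_eq_abs, sq_abs]
    exact (Real.sq_sqrt (hr0 x)).symm
  · intro x
    simp only [hrs, Complex.conj_ofReal]
  · rw [← hfd]
    refine withDensity_congr_ae ?_
    filter_upwards [hrf] with x hx
    rw [← hx]
    congr 1
    simp only [Complex.norm_real, Real.norm_eq_abs, sq_abs]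
    exact Real.sq_sqrt (hr0 x)

theorem classH_ac (σ τ : Measure UnitAddCircle) [IsFiniteMeasure σ] [IsFiniteMeasure τ]
    (hσ : σ.map (fun x => -x) = σ) (hτ : τ.map (fun x => -x) = τ) (hac : τ ≪ σ)
    (h : ∀ μ : Measure (ℤ → ℝ), IsGaussianShift σ μ → ClassH shift μ)
    (μ : Measure (ℤ → ℝ)) (hμ : IsGaussianShift τ μ) : ClassH shift μ := by
  obtain ⟨m, hm⟩ := exists_gaussianShift σ hσ
  have hmp : IsProbabilityMeasure m := hm.1
  have hμp : IsProbabilityMeasure μ := hμ.1
  obtain ⟨g, hgm, hg2, hgr, hgd⟩ := exists_symm_sqrt σ τ hσ hτ hac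
  let G : ℕ → UnitAddCircle → ℂ := fun j => if j = 0 then g else 0
  have hG0 : G 0 = g := by simp [G]
  have hGj : ∀ j, j ≠ 0 → G j = 0 := fun j hj => by simp [G, hj]
  obtain ⟨Ψ, hΨm, hΨe, hΨG, -, -⟩ := gaussian_pieces σ hσ m hm G
    (fun j => by
      by_cases hj : j = 0
      · subst hj; rw [hG0]; exact hgm
      · rw [hGj j hj]; exact measurable_zero)
    (fun j => by
      by_cases hj : j = 0
      · subst hj; rw [hG0]; exact hg2
      · rw [hGj j hj]; exact MemLp.zero)
    (fun j x => by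
      by_cases hj : j = 0
      · subst hj; rw [hG0]; exact hgr x
      · rw [hGj j hj]; simp)
    (fun i j hij x => by
      by_cases hj : j = 0
      · left; rw [hGj i (fun hi => hij (by rw [hi, hj]))]; rfl
      · right; rw [hGj j hj]; rfl)
  have hlaw : m.map (Ψ 0) = μ := by
    have h1 := hΨG 0
    rw [hG0, hgd] at h1
    have h1p : IsProbabilityMeasure (m.map (Ψ 0)) := h1.1
    exact ext_seq _ _ fun s a => by rw [h1.2 s a, hμ.2 s a]
  rw [← hlaw]
  exact classH_factor shift shift m (gauss_shift σ m hm) (Ψ 0) (hΨm 0) (hΨe 0) (h m hm)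

end HOST
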