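import Mathlib

/-!
Project HOST (MP_8a5982_an): definitions.

The circle is `UnitAddCircle = ℝ/ℤ`; the character `x ↦ exp(2 π i n x)` is `fourier n`, and
`volume` is the Haar (Lebesgue) probability measure.
-/

open MeasureTheory

namespace HOST

/-- Convolution powers of a measure on the circle: `convPow σ k` is `σ * ... * σ` (`k` factors). -/
noncomputable def convPow (σ : Measure UnitAddCircle) : ℕ → Measure UnitAddCircle
  | 0 => Measure.dirac 0
  | (k + 1) => σ.conv (convPow σ k)

/-- The left shift on real two-sided sequences. -/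
def shift : (ℤ → ℝ) ≃ᵐ (ℤ → ℝ) where
  toFun ω k := ω (k + 1)
  invFun ω k := ω (k - 1)
  left_inv ω := by funext k; simp
  right_inv ω := by funext k; simp
  measurable_toFun := measurable_pi_lambda _ fun k => measurable_pi_apply _
  measurable_invFun := measurable_pi_lambda _ fun k => measurable_pi_apply _

/-- `μ` is the law on `ℝ^ℤ` of the centred stationary real Gaussian process with spectral measure
`σ`, i.e. with `E[ξ_k ξ_l] = ∫ exp(2 π i (k - l) x) dσ(x)`: this says that the characteristic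
function of every finite linear combination `∑ a_k ξ_k` is the Gaussian one. -/
def IsGaussianShift (σ : Measure UnitAddCircle) (μ : Measure (ℤ → ℝ)) : Prop :=
  IsProbabilityMeasure μ ∧ ∀ (s : Finset ℤ) (a : ℤ → ℝ),
    ∫ ω, Complex.exp (Complex.I * ((∑ k ∈ s, a k * ω k : ℝ) : ℂ)) ∂μ =
      Complex.exp (-(1 / 2) * ∑ k ∈ s, ∑ l ∈ s,
        ((a k * a l : ℝ) : ℂ) * ∫ x, (fourier (k - l) x : ℂ) ∂σ)

/-- The property `S(m,n)`: every self-joining of order `n` all of whose `m`-dimensional faces are
product measures is the product measure. -/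
def HasS {X : Type} [MeasurableSpace X] (T : X ≃ᵐ X) (μ : Measure X) (m n : ℕ) : Prop :=
  ∀ L : Measure (Fin n → X), IsProbabilityMeasure L →
    MeasurePreserving (fun x i => T (x i)) L L →
    (∀ s : Finset (Fin n), s.card = m →
      L.map (fun x (i : s) => x i) = Measure.pi (fun _ : s => μ)) →
    L = Measure.pi (fun _ : Fin n => μ)

/-- The class `H`: every pairwise independent joining of `(X, μ, T)` with two arbitrary systems
`Ω₁, Ω₂` (no assumption on them at all) is the independent joining. -/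
def ClassH {X : Type} [MeasurableSpace X] (T : X ≃ᵐ X) (μ : Measure X) : Prop :=
  ∀ (Ω₁ Ω₂ : Type) [MeasurableSpace Ω₁] [MeasurableSpace Ω₂] (T₁ : Ω₁ ≃ᵐ Ω₁) (T₂ : Ω₂ ≃ᵐ Ω₂)
    (L : Measure (Ω₁ × Ω₂ × X)), IsProbabilityMeasure L →
    MeasurePreserving (fun p : Ω₁ × Ω₂ × X => (T₁ p.1, T₂ p.2.1, T p.2.2)) L L →
    L.map (fun p => p.2.2) = μ →
    L.map (fun p => (p.1, p.2.1)) = (L.map (fun p => p.1)).prod (L.map (fun p => p.2.1)) →
    L.map (fun p => (p.1, p.2.2)) = (L.map (fun p => p.1)).prod μ →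
    L.map (fun p => (p.2.1, p.2.2)) = (L.map (fun p => p.2.1)).prod μ →
    L = (L.map (fun p => p.1)).prod ((L.map (fun p => p.2.1)).prod μ)

/-- Integer iterates of an invertible measurable map. -/
def iter {X : Type*} [MeasurableSpace X] (T : X ≃ᵐ X) (n : ℤ) : X → X :=
  ⇑((T.toEquiv : Equiv.Perm X) ^ n)

/-- `σ` is the spectral measure of `f` (finite, with Fourier coefficients the correlations). -/
def IsSpectral {X : Type*} [MeasurableSpace X] (T : X ≃ᵐ X) (μ : Measure X) (f : X → ℂ)
    (σ : Measure UnitAddCircle) : Prop :=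
  IsFiniteMeasure σ ∧ ∀ n : ℤ, ∫ x, (fourier n x : ℂ) ∂σ =
    ∫ x, f (iter T n x) * (starRingEnd ℂ) (f x) ∂μ

end HOST
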