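import Pool.Agent.Lib.MP_8a5982_an.HOST.ExampleA
import Pool.Agent.Lib.MP_8a5982_an.HOST.Uniq

/-!
HOST, module EXAMPLE: two singular measures with all convolution powers singular whose
convolution is Haar measure.
-/

set_option autoImplicit false

open MeasureTheory Measure Filter Topology ProbabilityTheory

namespace HOST.Ex

/-! ### Fourier transform -/

lemma fac_neg (e : ℕ → Bool) (n : ℤ) (k : ℕ) : fac e (-n) k = fac e n k := by
  unfold fac
  split_ifs
  · rw [← Complex.cos_neg]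
    congr 1
    push_cast
    ring
  · rfl

lemma sig_symm (e : ℕ → Bool) : (sig e).map (fun x => -x) = sig e := by
  have : IsProbabilityMeasure ((sig e).map (fun x => -x)) :=
    Measure.isProbabilityMeasure_map (by fun_prop)
  refine measure_ext_fourier _ _ (fun n => ?_)
  rw [integral_map (by fun_prop) (fourier n).continuous.aestronglyMeasurable]
  have h1 : ∀ x : UnitAddCircle, (fourier n (-x) : ℂ) = fourier (-n) x := by
    intro x
    rw [fourier_apply, fourier_apply]
    simp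
  simp_rw [h1]
  refine tendsto_nhds_unique (tendsto_fac e (-n)) ?_
  simp_rw [fac_neg]
  exact tendsto_fac e n

lemma integral_fourier_conv (μ ν : Measure UnitAddCircle) [IsFiniteMeasure μ] [IsFiniteMeasure ν]
    (n : ℤ) : ∫ x, (fourier n x : ℂ) ∂(μ.conv ν) =
      (∫ x, (fourier n x : ℂ) ∂μ) * ∫ x, (fourier n x : ℂ) ∂ν := by
  rw [Measure.conv, integral_map (by fun_prop) (fourier n).continuous.aestronglyMeasurable]
  have h1 : ∀ p : UnitAddCircle × UnitAddCircle, (fourier n (p.1 + p.2) : ℂ) =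
      fourier n p.1 * fourier n p.2 := by
    intro p
    rw [fourier_apply, fourier_apply, fourier_apply, smul_add, AddCircle.toCircle_add,
      Circle.coe_mul]
  simp_rw [h1]
  exact integral_prod_mul (μ := μ) (ν := ν) (fun x => (fourier n x : ℂ)) fun x => (fourier n x : ℂ)

lemma exists_fac_zero (n : ℤ) (hn : n ≠ 0) :
    ∃ k : ℕ, Complex.cos (2 * Real.pi * n * (1 / 2) ^ (k + 2)) = 0 := by
  obtain ⟨v, u, hu, hnu⟩ := Nat.exists_eq_two_pow_mul_odd (n := n.natAbs) (by simpa using hn)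
  obtain ⟨w, hw⟩ := hu
  have key : ∀ n' : ℤ, n' = 2 ^ v * (2 * w + 1) →
      Complex.cos (2 * Real.pi * n' * (1 / 2) ^ (v + 2)) = 0 := by
    intro n' hn'
    rw [Complex.cos_eq_zero_iff]
    refine ⟨w, ?_⟩
    rw [hn']
    push_cast
    rw [pow_add, div_pow, one_pow]
    field_simp
  have hnat : (n.natAbs : ℤ) = 2 ^ v * (2 * w + 1) := by
    rw [hnu, hw]
    push_cast
    ring
  refine ⟨v, ?_⟩
  rcases Int.natAbs_eq n with h | h
  · exact key n (h.trans hnat)
  · have h1 := key (-n) (by rw [h, neg_neg]; exact hnat)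
    rw [← Complex.cos_neg]
    rw [← h1]
    congr 1
    push_cast
    ring

lemma conv_sig (e e' : ℕ → Bool) (h : ∀ k, e' k = !(e k)) : (sig e).conv (sig e') = volume := by
  have : IsProbabilityMeasure ((sig e).conv (sig e')) := by
    unfold Measure.conv
    exact Measure.isProbabilityMeasure_map (by fun_prop)
  refine measure_ext_fourier _ _ (fun n => ?_)
  rw [integral_fourier_conv]
  rcases eq_or_ne n 0 with hn | hn
  · subst hn
    simp [measureReal_def]
  · have hR : ∫ x, (fourier n x : ℂ) ∂(volume : Measure UnitAddCircle) = 0 :=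
      integral_eq_zero_of_add_right_eq_neg (μ := (volume : Measure UnitAddCircle))
        (fourier_add_half_inv_index hn (by norm_num : (0 : ℝ) < 1))
    rw [hR]
    obtain ⟨k₀, hk₀⟩ := exists_fac_zero n hn
    have h1 := (tendsto_fac e n).mul (tendsto_fac e' n)
    refine tendsto_nhds_unique h1 ?_
    refine tendsto_const_nhds.congr' ?_
    filter_upwards [eventually_gt_atTop k₀] with K hK
    rw [← Finset.prod_mul_distrib]
    symm
    refine Finset.prod_eq_zero (Finset.mem_range.2 hK) ?_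
    unfold fac
    rw [h k₀, hk₀]
    cases e k₀ <;> simp

/-! ### Gaps -/

lemma norm_circ_le (x : ℝ) : ‖(x : UnitAddCircle)‖ ≤ |x| := by
  rw [UnitAddCircle.norm_eq]
  have h := round_le x 0
  simpa using h

lemma gap (e : ℕ → Bool) (a b : ℕ) (he : ∀ k, a ≤ k → k < b → e k = false)
    (ω : ℕ → Bool) : ‖(2 ^ (a + 1) : ℕ) • (XX e ω : UnitAddCircle)‖ ≤ 2 ^ a / 2 ^ b := by
  have hs := summable_term e ω
  have h1 : XX e ω = XK e b ω + ∑' i, cf e (i + b) * sg (ω (i + b)) :=
    (hs.sum_add_tsum_nat_add b).symm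
  have h2 : ‖∑' i, cf e (i + b) * sg (ω (i + b))‖ ≤ (1 / 2 : ℝ) ^ (b + 1) := by
    have h3 : HasSum (fun i : ℕ => (1 / 2 : ℝ) ^ (i + b + 2)) ((1 / 2 : ℝ) ^ (b + 1)) := by
      have h4 := hasSum_geometric_two.mul_right ((1 / 2 : ℝ) ^ (b + 2))
      have h5 : (2 : ℝ) * (1 / 2) ^ (b + 2) = (1 / 2 : ℝ) ^ (b + 1) := by
        rw [show b + 2 = (b + 1) + 1 from rfl, pow_succ (1 / 2 : ℝ) (b + 1)]
        ring
      rw [h5] at h4
      refine h4.congr_fun ?_ |> fun h => h
      intro i
      rw [← pow_add, add_assoc]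
    exact tsum_of_norm_bounded h3 (fun i => abs_term_le e ω (i + b))
  have h6 : ∃ z : ℤ, (2 : ℝ) ^ (a + 1) * XK e b ω = z := by
    have h7 : ∀ k ∈ Finset.range b, ∃ z : ℤ, (2 : ℝ) ^ (a + 1) * (cf e k * sg (ω k)) = z := by
      intro k hk
      by_cases hka : k < a
      · by_cases hek : e k = true
        · obtain ⟨j, hj⟩ := Nat.exists_eq_add_of_lt hka
          have h8 : (2 : ℝ) ^ (a + 1) * (1 / 2 : ℝ) ^ (k + 2) = 2 ^ j := by
            rw [show a + 1 = (k + 2) + j by omega, pow_add, div_pow, one_pow]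
            field_simp
          refine ⟨2 ^ j * (if ω k then 1 else -1), ?_⟩
          rw [cf, if_pos hek, ← mul_assoc, h8, sg]
          push_cast
          rfl
        · exact ⟨0, by rw [cf, if_neg hek]; simp⟩
      · have hek : e k = false := he k (not_lt.1 hka) (Finset.mem_range.1 hk)
        exact ⟨0, by rw [cf, if_neg (by simp [hek])]; simp⟩
    choose! z hz using h7
    refine ⟨∑ k ∈ Finset.range b, z k, ?_⟩
    rw [XK, Finset.mul_sum]
    push_cast
    exact Finset.sum_congr rfl hz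
  obtain ⟨z, hz⟩ := h6
  set t := ∑' i, cf e (i + b) * sg (ω (i + b)) with ht
  have h9 : (2 ^ (a + 1) : ℕ) • (XX e ω : UnitAddCircle) =
      (((2 : ℝ) ^ (a + 1) * t : ℝ) : UnitAddCircle) := by
    rw [← AddCircle.coe_nsmul, nsmul_eq_mul, h1, mul_add]
    push_cast
    rw [AddCircle.coe_add, hz]
    have : ((z : ℝ) : UnitAddCircle) = 0 := by
      rw [AddCircle.coe_eq_zero_iff]
      exact ⟨z, by simp⟩
    rw [this, zero_add]
  rw [h9]
  refine (norm_circ_le _).trans ?_
  rw [abs_mul, abs_of_nonneg (by positivity : (0 : ℝ) ≤ 2 ^ (a + 1))]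
  calc (2 : ℝ) ^ (a + 1) * |t| ≤ 2 ^ (a + 1) * (1 / 2 : ℝ) ^ (b + 1) :=
        mul_le_mul_of_nonneg_left h2 (by positivity)
    _ = 2 ^ a / 2 ^ b := by
        rw [div_pow, one_pow, pow_succ, pow_succ]
        field_simp

/-- the carrier condition -/
def Carr (Q : ℕ) (ε : ℝ) (μ : Measure UnitAddCircle) : Prop := ∀ᵐ x ∂μ, ‖Q • x‖ ≤ ε

lemma carr_sig (e : ℕ → Bool) (a b : ℕ)
    (he : ∀ k, a ≤ k → k < b → e k = false) : Carr (2 ^ (a + 1)) (2 ^ a / 2 ^ b) (sig e) := by
  unfold Carr sig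
  rw [ae_map_iff (measurable_circ e).aemeasurable]
  · exact Eventually.of_forall (gap e a b he)
  · exact measurableSet_le (by fun_prop) measurable_const

lemma carr_conv (Q : ℕ) (ε ε' : ℝ) (μ ν : Measure UnitAddCircle) [IsFiniteMeasure μ]
    [IsFiniteMeasure ν] (hμ : Carr Q ε μ) (hν : Carr Q ε' ν) : Carr Q (ε + ε') (μ.conv ν) := by
  unfold Carr Measure.conv
  rw [ae_map_iff (by fun_prop)]
  · have h1 := (Measure.quasiMeasurePreserving_fst (μ := μ) (ν := ν)).ae hμ
    have h2 := (Measure.quasiMeasurePreserving_snd (μ := μ) (ν := ν)).ae hν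
    filter_upwards [h1, h2] with p hp1 hp2
    rw [smul_add]
    exact (norm_add_le _ _).trans (add_le_add hp1 hp2)
  · exact measurableSet_le (by fun_prop) measurable_const

lemma finite_convPow' (σ : Measure UnitAddCircle) [IsFiniteMeasure σ] (m : ℕ) :
    IsFiniteMeasure (convPow σ m) := by
  induction m with
  | zero => rw [convPow]; infer_instance
  | succ m ih => rw [convPow]; infer_instance

lemma carr_convPow (Q : ℕ) (ε : ℝ) (σ : Measure UnitAddCircle) [IsFiniteMeasure σ]
    (h : Carr Q ε σ) (m : ℕ) : Carr Q (m * ε) (convPow σ m) := by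
  induction m with
  | zero =>
    rw [convPow]
    unfold Carr
    rw [ae_dirac_iff (measurableSet_le (by fun_prop) measurable_const)]
    simp
  | succ m ih =>
    rw [convPow]
    have := finite_convPow' σ m
    have h1 := carr_conv Q ε (m * ε) σ (convPow σ m) h ih
    have h2 : ε + m * ε = ((m + 1 : ℕ) : ℝ) * ε := by push_cast; ring
    rwa [h2] at h1

lemma volume_carr (Q : ℕ) (hQ : Q ≠ 0) (ε : ℝ) :
    (volume : Measure UnitAddCircle) {x | ‖Q • x‖ ≤ ε} ≤ ENNReal.ofReal (2 * ε) := by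
  have h1 : MeasurePreserving (fun x : UnitAddCircle => (Q : ℤ) • x) volume volume :=
    measurePreserving_zsmul volume (by exact_mod_cast hQ)
  have h2 : {x : UnitAddCircle | ‖Q • x‖ ≤ ε} =
      (fun x : UnitAddCircle => (Q : ℤ) • x) ⁻¹' (Metric.closedBall 0 ε) := by
    ext x
    simp
  rw [h2, h1.measure_preimage measurableSet_closedBall.nullMeasurableSet,
    AddCircle.volume_closedBall]
  exact ENNReal.ofReal_le_ofReal (min_le_right _ _)

/-- A measure carried by thin sets is singular. -/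
lemma singular_of_carr (μ : Measure UnitAddCircle) (Q : ℕ → ℕ) (hQ : ∀ j, Q j ≠ 0) (ε : ℕ → ℝ)
    (hε : Tendsto ε atTop (𝓝 0)) (h : ∀ j, Carr (Q j) (ε j) μ) :
    μ ⟂ₘ (volume : Measure UnitAddCircle) := by
  set N : Set UnitAddCircle := ⋂ j, {x | ‖Q j • x‖ ≤ ε j} with hN
  have hNm : MeasurableSet N := MeasurableSet.iInter (fun j =>
    measurableSet_le (by fun_prop) measurable_const)
  refine ⟨Nᶜ, hNm.compl, ?_, ?_⟩
  · have : ∀ᵐ x ∂μ, x ∈ N := by
      simp only [hN, Set.mem_iInter, Set.mem_ofPred_eq]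
      exact ae_all_iff.2 h
    exact this
  · rw [compl_compl]
    refine le_antisymm ?_ zero_le
    have h1 : ∀ j, (volume : Measure UnitAddCircle) N ≤ ENNReal.ofReal (2 * ε j) := fun j =>
      (measure_mono (Set.iInter_subset _ j)).trans (volume_carr (Q j) (hQ j) (ε j))
    have h2 : Tendsto (fun j => ENNReal.ofReal (2 * ε j)) atTop (𝓝 0) := by
      have h3 := (ENNReal.continuous_ofReal.tendsto (2 * 0)).comp (hε.const_mul 2)
      have h4 : ENNReal.ofReal (2 * 0) = 0 := by simp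
      rw [h4] at h3
      exact h3
    exact ge_of_tendsto' h2 h1

lemma convPow_singular (e : ℕ → Bool) (p : ℕ → ℕ) (hp : ∀ j, j ≤ p j)
    (he : ∀ j k, (p j) ^ 2 ≤ k → k < (p j + 1) ^ 2 → e k = false) (m : ℕ) :
    convPow (sig e) m ⟂ₘ (volume : Measure UnitAddCircle) := by
  refine singular_of_carr _ (fun j => 2 ^ ((p j) ^ 2 + 1)) (fun j => by positivity)
    (fun j => m * (2 ^ ((p j) ^ 2) / 2 ^ ((p j + 1) ^ 2))) ?_ ?_
  · have h1 : ∀ j, (2 : ℝ) ^ ((p j) ^ 2) / 2 ^ ((p j + 1) ^ 2) ≤ (1 / 2) ^ j := by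
      intro j
      rw [div_pow, one_pow, div_le_div_iff₀ (by positivity) (by positivity), one_mul, ← pow_add]
      refine pow_le_pow_right₀ (by norm_num) ?_
      have := hp j
      nlinarith
    have h2 : Tendsto (fun j : ℕ => (m : ℝ) * (1 / 2) ^ j) atTop (𝓝 0) := by
      have := (tendsto_pow_atTop_nhds_zero_of_lt_one (by norm_num : (0 : ℝ) ≤ 1 / 2)
        (by norm_num)).const_mul (m : ℝ)
      simpa using this
    refine squeeze_zero (fun j => by positivity) (fun j => ?_) h2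
    exact mul_le_mul_of_nonneg_left (h1 j) (Nat.cast_nonneg _)
  · intro j
    exact carr_convPow _ _ _ (carr_sig e _ _ (he j)) m

/-! ### No atoms -/

lemma no_atoms_aux (σ τ : Measure UnitAddCircle) [IsProbabilityMeasure σ]
    [IsProbabilityMeasure τ] (hc : σ.conv τ = volume)
    (hs : τ ⟂ₘ (volume : Measure UnitAddCircle)) (x : UnitAddCircle) : σ {x} = 0 := by
  by_contra hx
  have hac : τ ≪ volume := by
    refine Measure.AbsolutelyContinuous.mk (fun A hA hA0 => ?_)
    have h1 : (volume : Measure UnitAddCircle) ((fun y => -x + y) ⁻¹' A) = 0 := by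
      rw [measure_preimage_add, hA0]
    rw [← hc, Measure.conv, Measure.map_apply (by fun_prop) (hA.preimage (by fun_prop))] at h1
    have h2 : ({x} : Set UnitAddCircle) ×ˢ A ⊆
        (fun p : UnitAddCircle × UnitAddCircle => p.1 + p.2) ⁻¹' ((fun y => -x + y) ⁻¹' A) := by
      rintro ⟨y, z⟩ ⟨hy, hz⟩
      simp only [Set.mem_singleton_iff] at hy
      subst hy
      simpa using hz
    have h3 := measure_mono_null h2 h1
    rw [Measure.prod_prod, mul_eq_zero] at h3
    exact h3.resolve_left hx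
  have h4 : τ = 0 := Measure.eq_zero_of_absolutelyContinuous_of_mutuallySingular hac hs
  exact IsProbabilityMeasure.ne_zero τ h4

lemma convPow_one (σ : Measure UnitAddCircle) [IsFiniteMeasure σ] : convPow σ 1 = σ := by
  rw [convPow, convPow]
  exact Measure.conv_dirac_zero σ

end HOST.Ex

namespace HOST

theorem exists_example : ∃ σ₁ σ₂ : Measure UnitAddCircle, IsProbabilityMeasure σ₁ ∧
    IsProbabilityMeasure σ₂ ∧ σ₁.map (fun x => -x) = σ₁ ∧ σ₂.map (fun x => -x) = σ₂ ∧
    (∀ x, σ₁ {x} = 0) ∧ (∀ x, σ₂ {x} = 0) ∧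
    (∀ k : ℕ, 1 ≤ k → convPow σ₁ k ⟂ₘ (volume : Measure UnitAddCircle)) ∧
    (∀ k : ℕ, 1 ≤ k → convPow σ₂ k ⟂ₘ (volume : Measure UnitAddCircle)) ∧
    σ₁.conv σ₂ = volume := by
  set e₁ : ℕ → Bool := fun k => decide (Nat.sqrt k % 2 = 1) with he₁
  set e₂ : ℕ → Bool := fun k => !(decide (Nat.sqrt k % 2 = 1)) with he₂
  have hsq : ∀ p k : ℕ, p ^ 2 ≤ k → k < (p + 1) ^ 2 → Nat.sqrt k = p := by
    intro p k h1 h2
    refine le_antisymm ?_ (Nat.le_sqrt'.2 h1)
    exact Nat.lt_succ_iff.1 (Nat.sqrt_lt'.2 h2)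
  have h1 : ∀ m, convPow (Ex.sig e₁) m ⟂ₘ (volume : Measure UnitAddCircle) := by
    refine Ex.convPow_singular e₁ (fun j => 2 * j) (fun j => by omega) ?_
    intro j k hk1 hk2
    simp only [he₁, hsq _ _ hk1 hk2]
    simp
  have h2 : ∀ m, convPow (Ex.sig e₂) m ⟂ₘ (volume : Measure UnitAddCircle) := by
    refine Ex.convPow_singular e₂ (fun j => 2 * j + 1) (fun j => by omega) ?_
    intro j k hk1 hk2
    simp only [he₂, hsq _ _ hk1 hk2]
    have : (2 * j + 1) % 2 = 1 := by omega
    simp [this]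
  have hc : (Ex.sig e₁).conv (Ex.sig e₂) = volume := Ex.conv_sig e₁ e₂ (fun k => rfl)
  have hc' : (Ex.sig e₂).conv (Ex.sig e₁) = volume := by
    rw [Measure.conv_comm]
    exact hc
  refine ⟨Ex.sig e₁, Ex.sig e₂, inferInstance, inferInstance, Ex.sig_symm e₁, Ex.sig_symm e₂,
    ?_, ?_, fun k _ => h1 k, fun k _ => h2 k, hc⟩
  · refine Ex.no_atoms_aux _ _ hc ?_
    have := h2 1
    rwa [Ex.convPow_one] at this
  · refine Ex.no_atoms_aux _ _ hc' ?_
    have := h1 1
    rwa [Ex.convPow_one] at this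

end HOST
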