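import Pool.Agent.Lib.MP_8a5982_an.HOST.Defs

/-!
HOST, module EXAMPLE, part A: random signed binary series.
-/

set_option autoImplicit false

open MeasureTheory Filter Topology ProbabilityTheory

namespace HOST.Ex

/-- the sign of a bit -/
def sg (b : Bool) : ℝ := if b then 1 else -1

/-- the coefficient of the `k`-th sign -/
noncomputable def cf (e : ℕ → Bool) (k : ℕ) : ℝ := if e k then (1 / 2 : ℝ) ^ (k + 2) else 0

/-- the fair coin -/
noncomputable def coin : Measure Bool :=
  (1 / 2 : ENNReal) • Measure.dirac true + (1 / 2 : ENNReal) • Measure.dirac false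

instance : IsProbabilityMeasure coin := by
  constructor
  simp only [coin, Measure.coe_add, Measure.coe_smul, Pi.add_apply, Pi.smul_apply, measure_univ,
    smul_eq_mul, mul_one]
  exact ENNReal.add_halves 1

lemma integral_coin (g : Bool → ℂ) : ∫ b, g b ∂coin = (g true + g false) / 2 := by
  have h1 : Integrable g ((1 / 2 : ENNReal) • Measure.dirac true) := by
    apply Integrable.smul_measure _ (by simp)
    exact Integrable.of_finite
  have h2 : Integrable g ((1 / 2 : ENNReal) • Measure.dirac false) := by
    apply Integrable.smul_measure _ (by simp)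
    exact Integrable.of_finite
  rw [coin, integral_add_measure h1 h2, integral_smul_measure, integral_smul_measure,
    integral_dirac, integral_dirac]
  simp
  ring

/-- independent fair coins -/
noncomputable def PP : Measure (ℕ → Bool) := Measure.infinitePi (fun _ => coin)

instance : IsProbabilityMeasure PP := by unfold PP; infer_instance

lemma abs_term_le (e : ℕ → Bool) (ω : ℕ → Bool) (k : ℕ) :
    ‖cf e k * sg (ω k)‖ ≤ (1 / 2 : ℝ) ^ (k + 2) := by
  rw [norm_mul]
  have h1 : ‖sg (ω k)‖ = 1 := by
    unfold sg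
    split_ifs <;> simp
  rw [h1, mul_one]
  unfold cf
  split_ifs
  · rw [Real.norm_of_nonneg (by positivity)]
  · simp

lemma summable_bound : Summable (fun k : ℕ => (1 / 2 : ℝ) ^ (k + 2)) := by
  simp_rw [pow_add]
  exact (summable_geometric_two).mul_right _

lemma summable_term (e : ℕ → Bool) (ω : ℕ → Bool) : Summable (fun k => cf e k * sg (ω k)) :=
  Summable.of_norm_bounded summable_bound (abs_term_le e ω)

/-- partial sums -/
noncomputable def XK (e : ℕ → Bool) (K : ℕ) (ω : ℕ → Bool) : ℝ :=
  ∑ k ∈ Finset.range K, cf e k * sg (ω k)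

/-- the random series -/
noncomputable def XX (e : ℕ → Bool) (ω : ℕ → Bool) : ℝ := ∑' k, cf e k * sg (ω k)

lemma tendsto_XK (e : ℕ → Bool) (ω : ℕ → Bool) :
    Tendsto (fun K => XK e K ω) atTop (𝓝 (XX e ω)) :=
  (summable_term e ω).hasSum.tendsto_sum_nat

lemma measurable_XK (e : ℕ → Bool) (K : ℕ) : Measurable (XK e K) := by
  unfold XK
  refine Finset.measurable_sum _ (fun k _ => ?_)
  exact measurable_const.mul ((measurable_of_countable sg).comp (measurable_pi_apply k))

lemma measurable_XX (e : ℕ → Bool) : Measurable (XX e) :=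
  measurable_of_tendsto_metrizable (measurable_XK e) (tendsto_pi_nhds.2 (tendsto_XK e))

/-- the law of the series on the circle -/
noncomputable def sig (e : ℕ → Bool) : Measure UnitAddCircle :=
  PP.map (fun ω => (XX e ω : UnitAddCircle))

lemma measurable_circ (e : ℕ → Bool) :
    Measurable (fun ω => (XX e ω : UnitAddCircle)) :=
  (AddCircle.measurable_mk'.comp (measurable_XX e))

instance (e : ℕ → Bool) : IsProbabilityMeasure (sig e) :=
  Measure.isProbabilityMeasure_map (measurable_circ e).aemeasurable

/-- the `k`-th factor of the Fourier transform -/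
noncomputable def fac (e : ℕ → Bool) (n : ℤ) (k : ℕ) : ℂ :=
  if e k then Complex.cos (2 * Real.pi * n * (1 / 2) ^ (k + 2)) else 1

lemma fourier_coe (n : ℤ) (x : ℝ) :
    (fourier n (x : UnitAddCircle) : ℂ) = Complex.exp (2 * Real.pi * Complex.I * n * x) := by
  rw [fourier_coe_apply]
  simp

lemma integral_XK (e : ℕ → Bool) (n : ℤ) (K : ℕ) :
    ∫ ω, (fourier n (XK e K ω : UnitAddCircle) : ℂ) ∂PP = ∏ k ∈ Finset.range K, fac e n k := by
  set g : ℕ → Bool → ℂ := fun k b =>
    Complex.exp (2 * Real.pi * Complex.I * n * ((cf e k * sg b : ℝ) : ℂ)) with hg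
  have h1 : ∀ ω, (fourier n (XK e K ω : UnitAddCircle) : ℂ) =
      ∏ k : Finset.range K, g k (ω k) := by
    intro ω
    rw [fourier_coe, XK, Complex.ofReal_sum, Finset.mul_sum, Complex.exp_sum]
    exact (Finset.prod_coe_sort (Finset.range K) (fun k => g k (ω k))).symm
  have hind : iIndepFun (fun (k : Finset.range K) (ω : ℕ → Bool) => g k (ω k)) PP := by
    have h2 : iIndepFun (fun (k : ℕ) (ω : ℕ → Bool) => g k (ω k)) PP :=
      iIndepFun_infinitePi (P := fun _ : ℕ => coin) (X := g)
        (fun k => measurable_of_countable (g k))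
    exact h2.precomp (g := fun k : Finset.range K => (k : ℕ)) Subtype.val_injective
  have hmeas : ∀ k : Finset.range K,
      AEStronglyMeasurable (fun ω : ℕ → Bool => g k (ω k)) PP := fun k =>
    ((measurable_of_countable (g k)).comp (measurable_pi_apply (k : ℕ))).aestronglyMeasurable
  have h3 := hind.integral_fun_prod_eq_prod_integral hmeas
  simp_rw [h1]
  rw [h3, Finset.prod_coe_sort (Finset.range K) (fun k => ∫ ω, g k (ω k) ∂PP)]
  refine Finset.prod_congr rfl (fun k _ => ?_)
  have h4 : ∫ ω, g k (ω k) ∂PP = ∫ b, g k b ∂coin := by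
    have h5 : PP.map (fun ω => ω k) = coin := by
      unfold PP
      exact Measure.infinitePi_map_eval (fun _ : ℕ => coin) k
    rw [← h5, integral_map (measurable_pi_apply k).aemeasurable
      (measurable_of_countable (g k)).aestronglyMeasurable]
  rw [h4, integral_coin]
  have hg1 : ∀ b, g k b =
      Complex.exp (2 * Real.pi * Complex.I * n * ((cf e k * sg b : ℝ) : ℂ)) := fun _ => rfl
  rw [hg1, hg1]
  by_cases he : e k = true
  · simp only [fac, cf, he, sg, if_true, Bool.false_eq_true, if_false]
    rw [Complex.cos]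
    have e1 : 2 * (Real.pi : ℂ) * Complex.I * n * (((1 / 2 : ℝ) ^ (k + 2) * 1 : ℝ) : ℂ) =
        2 * Real.pi * n * (1 / 2) ^ (k + 2) * Complex.I := by
      push_cast
      ring
    have e2 : 2 * (Real.pi : ℂ) * Complex.I * n * (((1 / 2 : ℝ) ^ (k + 2) * -1 : ℝ) : ℂ) =
        -(2 * Real.pi * n * (1 / 2) ^ (k + 2)) * Complex.I := by
      push_cast
      ring
    rw [e1, e2]
  · simp [fac, cf, he]

lemma tendsto_fac (e : ℕ → Bool) (n : ℤ) :
    Tendsto (fun K => ∏ k ∈ Finset.range K, fac e n k) atTop
      (𝓝 (∫ x, (fourier n x : ℂ) ∂(sig e))) := by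
  have h1 : ∫ x, (fourier n x : ℂ) ∂(sig e) =
      ∫ ω, (fourier n (XX e ω : UnitAddCircle) : ℂ) ∂PP := by
    rw [sig, integral_map (measurable_circ e).aemeasurable]
    exact (fourier n).continuous.aestronglyMeasurable
  rw [h1]
  simp_rw [← integral_XK]
  refine tendsto_integral_of_dominated_convergence (fun _ => (1 : ℝ)) ?_ ?_ ?_ ?_
  · intro K
    exact ((fourier n).continuous.measurable.comp
      (AddCircle.measurable_mk'.comp (measurable_XK e K))).aestronglyMeasurable
  · exact integrable_const _
  · intro K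
    refine Eventually.of_forall (fun ω => ?_)
    rw [fourier_apply]
    exact (Circle.norm_coe _).le
  · refine Eventually.of_forall (fun ω => ?_)
    have h2 : Continuous (fun x : ℝ => (fourier n (x : UnitAddCircle) : ℂ)) :=
      (fourier n).continuous.comp (AddCircle.continuous_mk' 1)
    exact (h2.tendsto _).comp (tendsto_XK e ω)

end HOST.Ex
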