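import Pool.Agent.Lib.MP_8a5982_an.HOST.Base

/-!
Project HOST: the class `H` is closed under factors.
-/

open MeasureTheory ProbabilityTheory Set
open scoped ENNReal ProbabilityTheory

namespace HOST

theorem lint_prod_kernel {Ω Y X : Type} [MeasurableSpace Ω] [MeasurableSpace Y]
    [MeasurableSpace X] (P : Measure Ω) [IsProbabilityMeasure P] (ν : Measure Y)
    [IsProbabilityMeasure ν] (κ : Kernel Y X) [IsMarkovKernel κ] {A : Set Ω} {C : Set X}
    (hC : MeasurableSet C) :
    ∫⁻ z in A ×ˢ univ, κ z.2 C ∂(P.prod ν) = P A * ∫⁻ y, κ y C ∂ν := by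
  rw [← Measure.prod_restrict, Measure.restrict_univ]
  have h := lintegral_prod_mul (μ := P.restrict A) (ν := ν) (f := fun _ => (1 : ℝ≥0∞))
    (g := fun y => κ y C) measurable_const.aemeasurable
    (Kernel.measurable_coe κ hC).aemeasurable
  simpa using h

theorem classH_factor {X Y : Type} [MeasurableSpace X] [StandardBorelSpace X]
    [MeasurableSpace Y] [StandardBorelSpace Y] (T : X ≃ᵐ X) (S : Y ≃ᵐ Y) (μ : Measure X)
    [IsProbabilityMeasure μ] (hT : MeasurePreserving T μ μ) (π : X → Y) (hπ : Measurable π)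
    (heq : ∀ᵐ x ∂μ, π (T x) = S (π x)) (h : ClassH T μ) : ClassH S (μ.map π) := by
  intro Ω₁ Ω₂ _ _ T₁ T₂ L hLp hLi h3 h12 h13 h23
  have : Nonempty X := by
    by_contra hne
    rw [not_nonempty_iff] at hne
    have := measure_univ (μ := μ)
    rw [Set.univ_eq_empty_iff.2 hne, measure_empty] at this
    exact zero_ne_one this
  set ν := μ.map π with hν
  have hνp : IsProbabilityMeasure ν := Measure.isProbabilityMeasure_map hπ.aemeasurable
  set κ : Kernel Y X := condDistrib id π μ with hκdef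
  have hκ : ν ⊗ₘ κ = μ.map (fun x => (π x, x)) := by
    exact compProd_map_condDistrib (mβ := inferInstance) (X := π) (Y := id) (μ := μ)
      aemeasurable_id
  have hκrect : ∀ (D : Set Y) (C : Set X), MeasurableSet D → MeasurableSet C →
      ∫⁻ y in D, κ y C ∂ν = μ {x | π x ∈ D ∧ x ∈ C} := by
    intro D C hD hC
    rw [← Measure.compProd_apply_prod hD hC, hκ,
      Measure.map_apply (by fun_prop) (hD.prod hC)]
    rfl
  have hS : MeasurePreserving S ν ν := by
    refine ⟨S.measurable, ?_⟩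
    rw [hν, Measure.map_map S.measurable hπ]
    have h1 : μ.map (S ∘ π) = μ.map (π ∘ T) := Measure.map_congr (by
      filter_upwards [heq] with x hx
      exact hx.symm)
    rw [h1, ← Measure.map_map hπ T.measurable, hT.map_eq]
  have hκ1 : ∀ C : Set X, MeasurableSet C → ∀ᵐ y ∂ν, κ y (T ⁻¹' C) = κ (S y) C := by
    intro C hC
    refine ae_eq_of_forall_setLIntegral_eq_of_sigmaFinite
      (Kernel.measurable_coe κ (T.measurable hC))
      ((Kernel.measurable_coe κ hC).comp S.measurable) fun D hD _ => ?_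
    have e1 : S ⁻¹' (S.symm ⁻¹' D) = D := by
      ext y
      rw [mem_preimage, mem_preimage, MeasurableEquiv.symm_apply_apply]
    have h1 := hS.setLIntegral_comp_preimage (s := S.symm ⁻¹' D) (S.symm.measurable hD)
      (f := fun y => κ y C) (Kernel.measurable_coe κ hC)
    rw [e1] at h1
    rw [hκrect D _ hD (T.measurable hC)]
    refine Eq.trans ?_ h1.symm
    rw [hκrect _ C (S.symm.measurable hD) hC]
    have hms : MeasurableSet {x | π x ∈ S.symm ⁻¹' D ∧ x ∈ C} :=
      (hπ (S.symm.measurable hD)).inter hC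
    rw [← hT.measure_preimage hms.nullMeasurableSet]
    refine measure_congr ?_
    filter_upwards [heq] with x hx
    have : π (T x) ∈ S.symm ⁻¹' D ↔ π x ∈ D := by
      rw [hx, mem_preimage, MeasurableEquiv.symm_apply_apply]
    refine propext ?_
    change (π x ∈ D ∧ T x ∈ C) ↔ (π (T x) ∈ S.symm ⁻¹' D ∧ T x ∈ C)
    rw [this]
  -- the relatively independent extension
  set κ' : Kernel (Ω₁ × Ω₂ × Y) X := κ.comap (fun p => p.2.2) (by fun_prop) with hκ'
  set M : Measure ((Ω₁ × Ω₂ × Y) × X) := L ⊗ₘ κ' with hM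
  have hMrect : ∀ (E : Set (Ω₁ × Ω₂ × Y)) (C : Set X), MeasurableSet E → MeasurableSet C →
      M (E ×ˢ C) = ∫⁻ p in E, κ p.2.2 C ∂L := by
    intro E C hE hC
    rw [hM, Measure.compProd_apply_prod hE hC]
    rfl
  have hMfst : M.map (fun q => q.1) = L := Measure.fst_compProd L κ'
  have hMp : IsProbabilityMeasure M := by rw [hM]; infer_instance
  set ψ : (Ω₁ × Ω₂ × Y) × X → Ω₁ × Ω₂ × X := fun q => (q.1.1, q.1.2.1, q.2) with hψ
  have hψm : Measurable ψ := by fun_prop
  have hL'p : IsProbabilityMeasure (M.map ψ) := Measure.isProbabilityMeasure_map hψm.aemeasurable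
  -- the fibre condition
  have hMpair : M.map (fun q => (q.1.2.2, q.2)) = μ.map (fun x => (π x, x)) := by
    rw [← hκ]
    refine Measure.ext_prod fun {D C} hD hC => ?_
    rw [Measure.map_apply (by fun_prop) (hD.prod hC), Measure.compProd_apply_prod hD hC]
    have : (fun q : (Ω₁ × Ω₂ × Y) × X => (q.1.2.2, q.2)) ⁻¹' (D ×ˢ C) =
        ((fun p : Ω₁ × Ω₂ × Y => p.2.2) ⁻¹' D) ×ˢ C := by
      ext q; simp
    rw [this, hMrect _ _ (by exact (show Measurable fun p : Ω₁ × Ω₂ × Y => p.2.2 by fun_prop) hD)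
      hC, ← h3]
    rw [setLIntegral_map hD (Kernel.measurable_coe κ hC) (by fun_prop)]
  have hdiag : MeasurableSet {z : Y × X | π z.2 = z.1} :=
    measurableSet_eq_fun (hπ.comp measurable_snd) measurable_fst
  have hfib : ∀ᵐ q ∂M, π q.2 = q.1.2.2 := by
    have h1 : ∀ᵐ z ∂(M.map (fun q => (q.1.2.2, q.2))), π z.2 = z.1 := by
      rw [hMpair, ae_map_iff (by fun_prop) hdiag]
      exact Filter.Eventually.of_forall fun x => rfl
    exact ae_of_ae_map (by fun_prop) h1
  -- third marginal
  have hsnd : M.map (fun q => q.2) = μ := by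
    have h1 : M.map (fun q => q.2) = (M.map (fun q => (q.1.2.2, q.2))).map Prod.snd := by
      rw [Measure.map_map measurable_snd (by fun_prop)]; rfl
    rw [h1, hMpair, Measure.map_map measurable_snd (by fun_prop)]
    change μ.map id = μ
    exact Measure.map_id
  have m3 : (M.map ψ).map (fun p => p.2.2) = μ := by
    rw [Measure.map_map (by fun_prop) hψm]
    exact hsnd
  have m1 : (M.map ψ).map (fun p => p.1) = L.map (fun p => p.1) := by
    rw [Measure.map_map (by fun_prop) hψm]
    conv_rhs => rw [← hMfst]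
    rw [Measure.map_map (by fun_prop) (by fun_prop)]
    rfl
  have m2 : (M.map ψ).map (fun p => p.2.1) = L.map (fun p => p.2.1) := by
    rw [Measure.map_map (by fun_prop) hψm]
    conv_rhs => rw [← hMfst]
    rw [Measure.map_map (by fun_prop) (by fun_prop)]
    rfl
  have m12 : (M.map ψ).map (fun p => (p.1, p.2.1)) = L.map (fun p => (p.1, p.2.1)) := by
    rw [Measure.map_map (by fun_prop) hψm]
    conv_rhs => rw [← hMfst]
    rw [Measure.map_map (by fun_prop) (by fun_prop)]
    rfl
  have hμC : ∀ C : Set X, MeasurableSet C → ∫⁻ y, κ y C ∂ν = μ C := by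
    intro C hC
    have := hκrect univ C MeasurableSet.univ hC
    rw [Measure.restrict_univ] at this
    rw [this]; congr 1; ext x; simp
  have pair : ∀ {Ω : Type} [MeasurableSpace Ω] (f : Ω₁ × Ω₂ × Y → Ω), Measurable f →
      L.map (fun p => (f p, p.2.2)) = (L.map f).prod ν →
      M.map (fun q => (f q.1, q.2)) = (L.map f).prod μ := by
    intro Ω _ f hf hprod
    have : IsProbabilityMeasure (L.map f) := Measure.isProbabilityMeasure_map hf.aemeasurable
    symm
    refine Measure.prod_eq fun A C hA hC => ?_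
    rw [Measure.map_apply (by fun_prop) (hA.prod hC)]
    have e1 : (fun q : (Ω₁ × Ω₂ × Y) × X => (f q.1, q.2)) ⁻¹' (A ×ˢ C) = (f ⁻¹' A) ×ˢ C := by
      ext q; simp
    rw [e1, hMrect _ _ (hf hA) hC, ← hμC C hC, ← lint_prod_kernel (L.map f) ν κ (A := A) hC,
      ← hprod]
    have hk2 : Measurable (fun z : Ω × Y => κ z.2 C) :=
      (Kernel.measurable_coe κ hC).comp measurable_snd
    have hfm : Measurable (fun p : Ω₁ × Ω₂ × Y => (f p, p.2.2)) := by fun_prop
    rw [setLIntegral_map (hA.prod MeasurableSet.univ) hk2 hfm]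
    congr 2
    ext p; simp
  have p13 : (M.map ψ).map (fun p => (p.1, p.2.2)) = (L.map (fun p => p.1)).prod μ := by
    rw [Measure.map_map (by fun_prop) hψm]
    exact pair (fun p => p.1) (by fun_prop) h13
  have p23 : (M.map ψ).map (fun p => (p.2.1, p.2.2)) = (L.map (fun p => p.2.1)).prod μ := by
    rw [Measure.map_map (by fun_prop) hψm]
    exact pair (fun p => p.2.1) (by fun_prop) h23
  -- invariance
  have hMi : M.map (fun q => ((T₁ q.1.1, T₂ q.1.2.1, S q.1.2.2), T q.2)) = M := by
    have hmeas : Measurable (fun q : (Ω₁ × Ω₂ × Y) × X =>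
        ((T₁ q.1.1, T₂ q.1.2.1, S q.1.2.2), T q.2)) := by fun_prop
    refine Measure.ext_prod fun {E C} hE hC => ?_
    rw [Measure.map_apply hmeas (hE.prod hC), hMrect E C hE hC]
    have e1 : (fun q : (Ω₁ × Ω₂ × Y) × X =>
        ((T₁ q.1.1, T₂ q.1.2.1, S q.1.2.2), T q.2)) ⁻¹' (E ×ˢ C) =
        ((fun p : Ω₁ × Ω₂ × Y => (T₁ p.1, T₂ p.2.1, S p.2.2)) ⁻¹' E) ×ˢ (T ⁻¹' C) := by
      ext q; simp
    rw [e1, hMrect _ _ (hLi.measurable hE) (T.measurable hC)]
    have h1 : ∀ᵐ p ∂L, κ p.2.2 (T ⁻¹' C) = κ (S p.2.2) C := by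
      have h2 := hκ1 C hC
      rw [← h3] at h2
      exact ae_of_ae_map (by fun_prop) h2
    rw [lintegral_congr_ae (ae_restrict_of_ae h1)]
    exact hLi.setLIntegral_comp_preimage hE
      (f := fun p : Ω₁ × Ω₂ × Y => κ p.2.2 C)
      ((Kernel.measurable_coe κ hC).comp (by fun_prop))
  have hmp : MeasurePreserving (fun p : Ω₁ × Ω₂ × X => (T₁ p.1, T₂ p.2.1, T p.2.2))
      (M.map ψ) (M.map ψ) := by
    have hmeas : Measurable (fun p : Ω₁ × Ω₂ × X => (T₁ p.1, T₂ p.2.1, T p.2.2)) := by fun_prop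
    have hmeas2 : Measurable (fun q : (Ω₁ × Ω₂ × Y) × X =>
        ((T₁ q.1.1, T₂ q.1.2.1, S q.1.2.2), T q.2)) := by fun_prop
    refine ⟨hmeas, ?_⟩
    rw [Measure.map_map hmeas hψm]
    conv_rhs => rw [← hMi]
    rw [Measure.map_map hψm hmeas2]
    rfl
  have hfin := h Ω₁ Ω₂ T₁ T₂ (M.map ψ) hL'p hmp m3 (by rw [m12, m1, m2, h12])
    (by rw [p13, m1]) (by rw [p23, m2])
  rw [m1, m2] at hfin
  -- project back
  have back : (M.map ψ).map (fun p => (p.1, p.2.1, π p.2.2)) = L := by
    rw [Measure.map_map (by fun_prop) hψm]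
    conv_rhs => rw [← hMfst]
    refine Measure.map_congr ?_
    filter_upwards [hfib] with q hq
    simp only [Function.comp_apply, hψ]
    rw [hq]
  rw [← back]
  conv_lhs => rw [hfin]
  have : IsProbabilityMeasure (L.map (fun p => p.1)) :=
    Measure.isProbabilityMeasure_map (by fun_prop)
  have : IsProbabilityMeasure (L.map (fun p => p.2.1)) :=
    Measure.isProbabilityMeasure_map (by fun_prop)
  have b1 : ((M.map ψ).map (fun p => (p.1, p.2.1, π p.2.2))).map (fun p => p.1) =
      L.map (fun p => p.1) := by rw [back]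
  have b2 : ((M.map ψ).map (fun p => (p.1, p.2.1, π p.2.2))).map (fun p => p.2.1) =
      L.map (fun p => p.2.1) := by rw [back]
  rw [b1, b2, hν]
  have e2 : (fun p : Ω₁ × Ω₂ × X => (p.1, p.2.1, π p.2.2)) =
      Prod.map id (Prod.map id π) := by
    funext p; rfl
  rw [e2, ← Measure.map_prod_map _ _ measurable_id (by fun_prop),
    ← Measure.map_prod_map _ _ measurable_id hπ, Measure.map_id, Measure.map_id]

end HOST
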