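import Pool.Agent.Lib.MP_8a5982_an.HOST.Base
import Pool.Agent.Lib.MP_8a5982_an.HO.H84.Herglotz

/-!
Project HOST: modules HOSTLEM, HERG, LH (helper84).
-/

open MeasureTheory
open scoped ComplexConjugate

namespace HOST

theorem hostlem (m1 m2 m3 : Measure UnitAddCircle) [IsFiniteMeasure m1] [IsFiniteMeasure m2]
    [IsFiniteMeasure m3] (θ : Measure (UnitAddCircle × UnitAddCircle)) [IsFiniteMeasure θ]
    (h12 : θ ≪ m1.prod m2)
    (h13 : θ.map (fun p => (p.1, -(p.1 + p.2))) ≪ m1.prod m3)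
    (h23 : θ.map (fun p => (p.2, -(p.1 + p.2))) ≪ m2.prod m3)
    (hc : ∀ x, m3 {x} = 0) (hs : m3 ⟂ₘ (volume : Measure UnitAddCircle)) : θ = 0 :=
  HostSn.H84.hostlem m1 m2 m3 θ h12 h13 h23 ⟨hc⟩ hs

theorem isAction_iter {X : Type*} [MeasurableSpace X] {T : X ≃ᵐ X} {P : Measure X}
    (hT : MeasurePreserving T P P) : HostSn.H84.IsAction P (iter T) :=
  ⟨measurePreserving_iter hT, fun j k ω => iter_add T j k ω, fun ω => iter_zero T ω⟩

theorem exists_spectral {X : Type*} [MeasurableSpace X] (T : X ≃ᵐ X) (P : Measure X)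
    [IsProbabilityMeasure P] (hT : MeasurePreserving T P P) (f : X → ℂ) (hf : Measurable f)
    (C : ℝ) (hC : ∀ x, ‖f x‖ ≤ C) : ∃ σ : Measure UnitAddCircle, IsSpectral T P f σ := by
  obtain ⟨m, hm1, hm2⟩ := HostSn.H84.exists_spec (isAction_iter hT) (a := f) ⟨hf, C, hC⟩
  exact ⟨m, hm1, hm2⟩

/-- The correlations of the products `a(T^n x) b(T^m x)` split. -/
def Split {X : Type*} [MeasurableSpace X] (T : X ≃ᵐ X) (P : Measure X) (a b : X → ℂ) : Prop :=
  ∀ n m n' m' : ℤ, ∫ x, (a (iter T n x) * b (iter T m x)) *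
        (starRingEnd ℂ) (a (iter T n' x) * b (iter T m' x)) ∂P =
      (∫ x, a (iter T (n - n') x) * (starRingEnd ℂ) (a x) ∂P) *
        ∫ x, b (iter T (m - m') x) * (starRingEnd ℂ) (b x) ∂P

theorem Split.pairInd {X : Type*} [MeasurableSpace X] {T : X ≃ᵐ X} {P : Measure X}
    [IsProbabilityMeasure P] (hT : MeasurePreserving T P P) {a b : X → ℂ}
    (ha : HostSn.H84.BM a) (hb : HostSn.H84.BM b) (h : Split T P a b) :
    HostSn.H84.PairInd P (iter T) a b := by
  intro m m' n n'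
  rw [HostSn.H84.corr_two (isAction_iter hT) ha, HostSn.H84.corr_two (isAction_iter hT) hb]
  have h1 := h m n m' n'
  have e : ∀ x, (a (iter T m x) * b (iter T n x)) *
      (starRingEnd ℂ) (a (iter T m' x) * b (iter T n' x)) =
      (a (iter T m x) * conj (a (iter T m' x))) * (b (iter T n x) * conj (b (iter T n' x))) := by
    intro x
    rw [map_mul]
    ring
  simp only [e] at h1
  exact h1

theorem local_host {X : Type*} [MeasurableSpace X] (T : X ≃ᵐ X) (P : Measure X)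
    [IsProbabilityMeasure P] (hT : MeasurePreserving T P P) (a b c : X → ℂ)
    (ha : Measurable a) (hb : Measurable b) (hc : Measurable c) (C : ℝ)
    (hCa : ∀ x, ‖a x‖ ≤ C) (hCb : ∀ x, ‖b x‖ ≤ C) (hCc : ∀ x, ‖c x‖ ≤ C)
    (hab : Split T P a b) (hac : Split T P a c) (hbc : Split T P b c)
    (σ : Measure UnitAddCircle) (hσ : IsSpectral T P c σ) (hna : ∀ x, σ {x} = 0)
    (hs : σ ⟂ₘ (volume : Measure UnitAddCircle)) :
    ∫ x, a x * b x * c x ∂P = 0 := by
  have hτ := isAction_iter hT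
  have hA : HostSn.H84.BM a := ⟨ha, C, hCa⟩
  have hB : HostSn.H84.BM b := ⟨hb, C, hCb⟩
  have hC : HostSn.H84.BM c := ⟨hc, C, hCc⟩
  obtain ⟨ma, hma1, hma2⟩ := HostSn.H84.exists_spec hτ hA
  obtain ⟨mb, hmb1, hmb2⟩ := HostSn.H84.exists_spec hτ hB
  have hfin : IsFiniteMeasure σ := hσ.1
  exact HostSn.H84.eh hτ hA hB hC hma2 hmb2 hσ.2 (hab.pairInd hT hA hB) (hac.pairInd hT hA hC)
    (hbc.pairInd hT hB hC) ⟨hna⟩ hs

end HOST
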