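import Pool.Agent.Lib.MP_8a5982_an.HOST.SpecExp
import Pool.Agent.Lib.MP_8a5982_an.HOST.Moments
import Pool.Agent.Lib.MP_8a5982_an.HOST.Pieces

/-!
Project HOST: module LEBC (helper84): a function whose spectral measure is Lebesgue measure.
-/

open MeasureTheory Set Filter Topology ProbabilityTheory
open scoped ENNReal NNReal ComplexConjugate

set_option linter.unusedSectionVars false

namespace HOST

theorem convPow_two (σ : Measure UnitAddCircle) [IsFiniteMeasure σ] :
    convPow σ 2 = σ.conv σ := by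
  have h1 : convPow σ 2 = σ.conv (σ.conv (Measure.dirac 0)) := rfl
  rw [h1, Measure.conv_dirac_zero]

theorem mutuallySingular_of_conv (σ₁ σ₂ : Measure UnitAddCircle) [IsFiniteMeasure σ₁]
    [IsFiniteMeasure σ₂] (hpow : convPow σ₁ 2 ⟂ₘ (volume : Measure UnitAddCircle))
    (hconv : σ₁.conv σ₂ = volume) : σ₁ ⟂ₘ σ₂ := by
  have hLD : σ₁.HaveLebesgueDecomposition σ₂ := Measure.haveLebesgueDecomposition_of_finiteMeasure
  set τ := σ₂.withDensity (σ₁.rnDeriv σ₂) with hτ
  have hle : τ ≤ σ₁ := Measure.withDensity_rnDeriv_le σ₁ σ₂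
  have hfin : IsFiniteMeasure τ := isFiniteMeasure_of_le σ₁ hle
  have hac1 : τ ≪ σ₁ := Measure.absolutelyContinuous_of_le hle
  have hac2 : τ ≪ σ₂ := withDensity_absolutelyContinuous _ _
  have h1 : τ.conv τ ≪ σ₁.conv σ₁ := by
    rw [Measure.conv, Measure.conv]
    exact (hac1.prod hac1).map (by fun_prop)
  have h2 : τ.conv τ ≪ (volume : Measure UnitAddCircle) := by
    rw [← hconv, Measure.conv, Measure.conv]
    exact (hac1.prod hac2).map (by fun_prop)
  rw [convPow_two] at hpow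
  have h3 : τ.conv τ = 0 := Measure.eq_zero_of_absolutelyContinuous_of_mutuallySingular h2
    (hpow.mono_ac h1 Measure.AbsolutelyContinuous.rfl)
  have h4 : τ univ * τ univ = 0 := by
    have h5 : (τ.conv τ) univ = τ univ * τ univ := by
      rw [Measure.conv, Measure.map_apply (by fun_prop) MeasurableSet.univ, preimage_univ,
        ← univ_prod_univ, Measure.prod_prod]
    rw [← h5, h3]
    rfl
  have h5 : τ = 0 := by
    rw [← Measure.measure_univ_eq_zero]
    simpa using h4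
  have h6 := Measure.haveLebesgueDecomposition_add σ₁ σ₂
  rw [← hτ, h5, add_zero] at h6
  rw [h6]
  exact Measure.mutuallySingular_singularPart σ₁ σ₂

/-- a symmetric separating set -/
theorem exists_symm_sep (σ₁ σ₂ : Measure UnitAddCircle) (h₂ : σ₂.map (fun x => -x) = σ₂)
    (h : σ₁ ⟂ₘ σ₂) :
    ∃ B : Set UnitAddCircle, MeasurableSet B ∧ (∀ x, x ∈ B ↔ -x ∈ B) ∧ σ₁ Bᶜ = 0 ∧ σ₂ B = 0 := by
  obtain ⟨S, hS, hS1, hS2⟩ := h
  have hneg : Measurable fun x : UnitAddCircle => -x := measurable_neg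
  refine ⟨(S ∩ (fun x => -x) ⁻¹' S)ᶜ, (hS.inter (hneg hS)).compl, ?_, ?_, ?_⟩
  · intro x
    simp only [mem_compl_iff, mem_inter_iff, mem_preimage, neg_neg, not_iff_not]
    tauto
  · rw [compl_compl]
    exact measure_mono_null inter_subset_left hS1
  · rw [compl_inter]
    refine measure_union_null hS2 ?_
    have : ((fun x : UnitAddCircle => -x) ⁻¹' S)ᶜ = (fun x => -x) ⁻¹' Sᶜ := rfl
    rw [this, ← Measure.map_apply hneg hS.compl, h₂, hS2]

theorem wd_ind (σ₁ σ₂ : Measure UnitAddCircle) {B : Set UnitAddCircle}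
    (hB : MeasurableSet B) (h1 : σ₁ Bᶜ = 0) (h2 : σ₂ B = 0) :
    (σ₁ + σ₂).withDensity (fun x => ENNReal.ofReal (‖B.indicator (fun _ => (1 : ℂ)) x‖ ^ 2)) = σ₁ := by
  have e : (fun x : UnitAddCircle => ENNReal.ofReal (‖B.indicator (fun _ => (1 : ℂ)) x‖ ^ 2)) =
      B.indicator 1 := by
    ext x
    by_cases hx : x ∈ B
    · simp [hx]
    · simp [hx]
  rw [e, withDensity_indicator_one hB, Measure.restrict_add, Measure.restrict_eq_zero.2 h2, add_zero]
  exact Measure.restrict_eq_self_of_ae_mem (by rw [ae_iff]; exact h1)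

theorem iter_equivariant {μ : Measure (ℤ → ℝ)} (hμ : MeasurePreserving shift μ μ)
    {Ψ : (ℤ → ℝ) → (ℤ → ℝ)} (hΨ : ∀ᵐ ω ∂μ, Ψ (shift ω) = shift (Ψ ω)) (n : ℤ) :
    ∀ᵐ ω ∂μ, Ψ (iter shift n ω) = iter shift n (Ψ ω) := by
  have hsym : MeasurePreserving shift.symm μ μ := hμ.symm shift
  have hΨ' : ∀ᵐ ω ∂μ, Ψ (shift.symm ω) = shift.symm (Ψ ω) := by
    have h1 := hsym.quasiMeasurePreserving.ae hΨ
    filter_upwards [h1] with ω hω
    rw [MeasurableEquiv.apply_symm_apply] at hω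
    rw [hω, MeasurableEquiv.symm_apply_apply]
  rcases Int.eq_nat_or_neg n with ⟨k, rfl | rfl⟩
  · induction k with
    | zero =>
      refine Eventually.of_forall fun ω => ?_
      have e0 : ∀ w : ℤ → ℝ, iter shift ((0 : ℕ) : ℤ) w = w := fun w => iter_zero shift w
      rw [e0, e0]
    | succ k ih =>
      rw [iter_nat_succ]
      have h1 := (measurePreserving_iter hμ (k : ℤ)).quasiMeasurePreserving.ae hΨ
      filter_upwards [ih, h1] with ω h2 h3
      rw [Function.comp_apply, Function.comp_apply, h3, h2]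
  · induction k with
    | zero =>
      refine Eventually.of_forall fun ω => ?_
      have e0 : ∀ w : ℤ → ℝ, iter shift (-((0 : ℕ) : ℤ)) w = w := fun w => by
        simpa using iter_zero shift w
      rw [e0, e0]
    | succ k ih =>
      rw [iter_neg_succ]
      have h1 := (measurePreserving_iter hμ (-(k : ℤ))).quasiMeasurePreserving.ae hΨ'
      filter_upwards [ih, h1] with ω h2 h3
      rw [Function.comp_apply, Function.comp_apply, h3, h2]

theorem indepFun_pieces {μ : Measure (ℤ → ℝ)} [IsProbabilityMeasure μ]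
    {Ψ : ℕ → (ℤ → ℝ) → (ℤ → ℝ)} (hΨm : ∀ j, Measurable (Ψ j))
    (hprod : μ.map (fun ω (j : Fin 2) => Ψ j ω) = Measure.pi (fun j : Fin 2 => μ.map (Ψ j))) :
    IndepFun (Ψ 0) (Ψ 1) μ := by
  rw [indepFun_iff_measure_inter_preimage_eq_mul]
  intro A B hA hB
  have hpr : ∀ j : Fin 2, IsProbabilityMeasure (μ.map (Ψ j)) := fun j =>
    Measure.isProbabilityMeasure_map (hΨm j).aemeasurable
  have hm : Measurable (fun ω (j : Fin 2) => Ψ j ω) := measurable_pi_lambda _ fun j => hΨm j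
  let S : Fin 2 → Set (ℤ → ℝ) := ![A, B]
  have hS : ∀ j, MeasurableSet (S j) := by
    intro j
    fin_cases j
    · exact hA
    · exact hB
  have h1 := Measure.pi_pi (fun j : Fin 2 => μ.map (Ψ j)) S
  rw [← hprod, Measure.map_apply hm (MeasurableSet.univ_pi hS), Fin.prod_univ_two] at h1
  have e : (fun ω (j : Fin 2) => Ψ j ω) ⁻¹' (univ.pi S) = Ψ 0 ⁻¹' A ∩ Ψ 1 ⁻¹' B := by
    ext ω
    simp only [mem_preimage, Set.mem_pi, mem_univ, true_implies, Fin.forall_fin_two, mem_inter_iff]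
    rfl
  rw [e] at h1
  rw [h1]
  simp only [Fin.isValue, Fin.val_zero, Fin.val_one]
  rw [Measure.map_apply (hΨm 0) (hS 0), Measure.map_apply (hΨm 1) (hS 1)]
  rfl

theorem lebesgue_component (σ₁ σ₂ : Measure UnitAddCircle) [IsProbabilityMeasure σ₁]
    [IsProbabilityMeasure σ₂] (h₁ : σ₁.map (fun x => -x) = σ₁)
    (h₂ : σ₂.map (fun x => -x) = σ₂)
    (hpow : convPow σ₁ 2 ⟂ₘ (volume : Measure UnitAddCircle))
    (hconv : σ₁.conv σ₂ = volume) (μ : Measure (ℤ → ℝ)) (hμ : IsGaussianShift (σ₁ + σ₂) μ) :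
    ∃ f : (ℤ → ℝ) → ℂ, Measurable f ∧ MemLp f 2 μ ∧ IsSpectral shift μ f volume := by
  have hprob := hμ.1
  have hsum : (σ₁ + σ₂).map (fun x => -x) = σ₁ + σ₂ := by
    rw [Measure.map_add _ _ measurable_neg, h₁, h₂]
  have hshift := gauss_shift (σ₁ + σ₂) μ hμ
  obtain ⟨B, hB, hBs, hB1, hB2⟩ := exists_symm_sep σ₁ σ₂ h₂ (mutuallySingular_of_conv σ₁ σ₂ hpow hconv)
  -- the two pieces
  let g : ℕ → UnitAddCircle → ℂ := fun j => if j = 0 then B.indicator (fun _ => 1) else
    if j = 1 then Bᶜ.indicator (fun _ => 1) else fun _ => 0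
  have g0 : g 0 = B.indicator (fun _ => 1) := by simp [g]
  have g1 : g 1 = Bᶜ.indicator (fun _ => 1) := by simp [g]
  have gj : ∀ j, j ≠ 0 → j ≠ 1 → g j = fun _ => 0 := by
    intro j h0 h1
    simp [g, h0, h1]
  have hgm : ∀ j, Measurable (g j) := by
    intro j
    by_cases h0 : j = 0
    · subst h0; rw [g0]; exact measurable_const.indicator hB
    · by_cases h1 : j = 1
      · subst h1; rw [g1]; exact measurable_const.indicator hB.compl
      · rw [gj j h0 h1]; exact measurable_const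
  have hgb : ∀ j x, ‖g j x‖ ≤ 1 := by
    intro j x
    by_cases h0 : j = 0
    · subst h0; rw [g0]
      by_cases hx : x ∈ B <;> simp [hx]
    · by_cases h1 : j = 1
      · subst h1; rw [g1]
        by_cases hx : x ∈ B <;> simp [hx]
      · rw [gj j h0 h1]; simp
  have hreal : ∀ j x, g j (-x) = (starRingEnd ℂ) (g j x) := by
    intro j x
    by_cases h0 : j = 0
    · subst h0; rw [g0]
      by_cases hx : x ∈ B
      · have : -x ∈ B := (hBs x).1 hx
        simp [hx, this]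
      · have : -x ∉ B := fun h => hx ((hBs x).2 h)
        simp [hx, this]
    · by_cases h1 : j = 1
      · subst h1; rw [g1]
        by_cases hx : x ∈ B
        · have : -x ∈ B := (hBs x).1 hx
          simp [hx, this]
        · have : -x ∉ B := fun h => hx ((hBs x).2 h)
          simp [hx, this]
      · rw [gj j h0 h1]; simp
  have hdisj : ∀ i j, i ≠ j → ∀ x, g i x = 0 ∨ g j x = 0 := by
    intro i j hij x
    by_cases hi0 : i = 0
    · by_cases hj1 : j = 1
      · subst hi0; subst hj1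
        rw [g0, g1]
        by_cases hx : x ∈ B
        · right; simp [hx]
        · left; simp [hx]
      · right
        rw [gj j (fun h => hij (by omega)) hj1]
    · by_cases hi1 : i = 1
      · by_cases hj0 : j = 0
        · subst hi1; subst hj0
          rw [g0, g1]
          by_cases hx : x ∈ B
          · left; simp [hx]
          · right; simp [hx]
        · right
          rw [gj j hj0 (fun h => hij (by omega))]
      · left
        rw [gj i hi0 hi1]
  obtain ⟨Ψ, hΨm, hΨe, hΨg, hΨp, -⟩ := gaussian_pieces (σ₁ + σ₂) hsum μ hμ g hgm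
    (fun j => MemLp.of_bound (hgm j).aestronglyMeasurable 1 (Eventually.of_forall (hgb j)))
    hreal hdisj
  have hG0 : IsGaussianShift σ₁ (μ.map (Ψ 0)) := by
    have := hΨg 0
    rwa [g0, wd_ind σ₁ σ₂ hB hB1 hB2] at this
  have hG1 : IsGaussianShift σ₂ (μ.map (Ψ 1)) := by
    have := hΨg 1
    rwa [g1, add_comm σ₁ σ₂, wd_ind σ₂ σ₁ hB.compl (by rwa [compl_compl]) hB1] at this
  have hind := indepFun_pieces hΨm (hΨp 2)
  -- moments
  have hL0 : ∀ k : ℤ, MemLp (fun ω => Ψ 0 ω k) 2 μ := by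
    intro k
    have h := gauss_memLp σ₁ h₁ _ hG0 k
    exact (memLp_map_measure_iff (measurable_pi_apply k).aestronglyMeasurable
      (hΨm 0).aemeasurable).1 h
  have hL1 : ∀ k : ℤ, MemLp (fun ω => Ψ 1 ω k) 2 μ := by
    intro k
    have h := gauss_memLp σ₂ h₂ _ hG1 k
    exact (memLp_map_measure_iff (measurable_pi_apply k).aestronglyMeasurable
      (hΨm 1).aemeasurable).1 h
  have hcov0 : ∀ n : ℤ, ((∫ ω, Ψ 0 ω n * Ψ 0 ω 0 ∂μ : ℝ) : ℂ) = ∫ x, (fourier n x : ℂ) ∂σ₁ := by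
    intro n
    have h := gauss_cov σ₁ h₁ _ hG0 n 0
    rw [sub_zero, integral_map (hΨm 0).aemeasurable] at h
    · exact h
    · exact ((measurable_pi_apply n).mul (measurable_pi_apply 0)).aestronglyMeasurable
  have hcov1 : ∀ n : ℤ, ((∫ ω, Ψ 1 ω n * Ψ 1 ω 0 ∂μ : ℝ) : ℂ) = ∫ x, (fourier n x : ℂ) ∂σ₂ := by
    intro n
    have h := gauss_cov σ₂ h₂ _ hG1 n 0
    rw [sub_zero, integral_map (hΨm 1).aemeasurable] at h
    · exact h
    · exact ((measurable_pi_apply n).mul (measurable_pi_apply 0)).aestronglyMeasurable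
  have hmul : ∀ m n : ℤ, ∫ ω, (Ψ 0 ω n * Ψ 0 ω m) * (Ψ 1 ω n * Ψ 1 ω m) ∂μ =
      (∫ ω, Ψ 0 ω n * Ψ 0 ω m ∂μ) * ∫ ω, Ψ 1 ω n * Ψ 1 ω m ∂μ := by
    intro m n
    have hφ : Measurable fun w : ℤ → ℝ => w n * w m :=
      (measurable_pi_apply n).mul (measurable_pi_apply m)
    have h1 : IndepFun (fun ω => Ψ 0 ω n * Ψ 0 ω m) (fun ω => Ψ 1 ω n * Ψ 1 ω m) μ :=
      hind.comp hφ hφ
    exact h1.integral_fun_mul_eq_mul_integral (hφ.comp (hΨm 0)).aestronglyMeasurable
      (hφ.comp (hΨm 1)).aestronglyMeasurable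
  let f : (ℤ → ℝ) → ℂ := fun ω => ((Ψ 0 ω 0 * Ψ 1 ω 0 : ℝ) : ℂ)
  have hfm : Measurable f := Complex.measurable_ofReal.comp
    (((measurable_pi_apply 0).comp (hΨm 0)).mul ((measurable_pi_apply 0).comp (hΨm 1)))
  refine ⟨f, hfm, ?_, inferInstance, fun n => ?_⟩
  · rw [memLp_two_iff_integrable_sq_norm hfm.aestronglyMeasurable]
    have hφ : Measurable fun w : ℤ → ℝ => w 0 * w 0 :=
      (measurable_pi_apply 0).mul (measurable_pi_apply 0)
    have h1 : IndepFun (fun ω => Ψ 0 ω 0 * Ψ 0 ω 0) (fun ω => Ψ 1 ω 0 * Ψ 1 ω 0) μ :=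
      hind.comp hφ hφ
    have i0 : Integrable (fun ω => Ψ 0 ω 0 * Ψ 0 ω 0) μ := (hL0 0).integrable_mul (hL0 0)
    have i1 : Integrable (fun ω => Ψ 1 ω 0 * Ψ 1 ω 0) μ := (hL1 0).integrable_mul (hL1 0)
    have h2 := h1.integrable_mul i0 i1
    refine h2.congr (Eventually.of_forall fun ω => ?_)
    simp only [Pi.mul_apply, f, Complex.norm_real, Real.norm_eq_abs, sq_abs]
    ring
  · have e0 := iter_equivariant hshift (hΨe 0) n
    have e1 := iter_equivariant hshift (hΨe 1) n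
    have h1 : ∫ ω, f (iter shift n ω) * (starRingEnd ℂ) (f ω) ∂μ =
        ∫ ω, (((Ψ 0 ω n * Ψ 0 ω 0) * (Ψ 1 ω n * Ψ 1 ω 0) : ℝ) : ℂ) ∂μ := by
      refine integral_congr_ae ?_
      filter_upwards [e0, e1] with ω h0 h1
      simp only [f, h0, h1, iter_shift, zero_add, Complex.conj_ofReal]
      push_cast
      ring
    rw [h1, integral_complex_ofReal, hmul, Complex.ofReal_mul, hcov0, hcov1,
      ← integral_fourier_conv2, hconv]

end HOST
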