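import Pool.Agent.Lib.MP_8a5982_an.HOST.Base

/-!
Project HOST: a symmetric Borel partition adapted to a countable sum of symmetric measures.
-/

open MeasureTheory Filter Set
open scoped ENNReal

namespace HOST

theorem exists_partition (σ : ℕ → Measure UnitAddCircle)
    [IsFiniteMeasure (Measure.sum σ)] (hsymm : ∀ j, (σ j).map (fun x => -x) = σ j) :
    ∃ B : ℕ → Set UnitAddCircle, (∀ j, MeasurableSet (B j)) ∧ (∀ j x, x ∈ B j ↔ -x ∈ B j) ∧
      (∀ i j, i ≠ j → Disjoint (B i) (B j)) ∧ (⋃ j, B j) = Set.univ ∧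
      ∀ j, (Measure.sum σ).restrict (B j) ≪ σ j := by
  classical
  set S := Measure.sum σ with hS
  have hneg : Measurable (fun x : UnitAddCircle => -x) := measurable_neg
  have hle : ∀ j, σ j ≤ S := fun j => Measure.le_sum σ j
  have hfin : ∀ j, IsFiniteMeasure (σ j) := fun j => isFiniteMeasure_of_le S (hle j)
  have hSsymm : S.map (fun x => -x) = S := by
    rw [hS, Measure.map_sum hneg.aemeasurable]
    congr 1
    funext j
    exact hsymm j
  have hac : ∀ j, σ j ≪ S := fun j => (hle j).absolutelyContinuous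
  let f : ℕ → UnitAddCircle → ℝ≥0∞ := fun j => (σ j).rnDeriv S
  have hfm : ∀ j, Measurable (f j) := fun j => Measure.measurable_rnDeriv _ _
  have hfd : ∀ j, S.withDensity (f j) = σ j := by
    intro j
    have := hfin j
    have := Measure.haveLebesgueDecomposition_of_sigmaFinite (σ j) S
    exact Measure.withDensity_rnDeriv_eq _ _ (hac j)
  let A : ℕ → Set UnitAddCircle := fun j => {x | f j x ≠ 0}
  have hAm : ∀ j, MeasurableSet (A j) := fun j =>
    (hfm j) (measurableSet_singleton (0 : ℝ≥0∞)).compl
  have hA : ∀ j (N : Set UnitAddCircle), MeasurableSet N → σ j N = 0 → S (A j ∩ N) = 0 := by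
    intro j N hN h0
    rw [← hfd j, withDensity_apply _ hN, lintegral_eq_zero_iff (hfm j)] at h0
    rw [Filter.EventuallyEq, ae_restrict_iff' hN] at h0
    have : ∀ᵐ x ∂S, x ∉ A j ∩ N := by
      filter_upwards [h0] with x hx hmem
      exact hmem.1 (hx hmem.2)
    rw [ae_iff] at this
    simpa using this
  -- symmetrise
  let A' : ℕ → Set UnitAddCircle := fun j => A j ∪ (fun x => -x) ⁻¹' (A j)
  have hA'm : ∀ j, MeasurableSet (A' j) := fun j => (hAm j).union (hneg (hAm j))
  have hA's : ∀ j x, x ∈ A' j ↔ -x ∈ A' j := by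
    intro j x
    simp only [A', mem_union, mem_preimage, neg_neg]
    tauto
  have hA' : ∀ j (N : Set UnitAddCircle), MeasurableSet N → σ j N = 0 → S (A' j ∩ N) = 0 := by
    intro j N hN h0
    have h1 := hA j N hN h0
    have h2 : S ((fun x => -x) ⁻¹' (A j) ∩ N) = 0 := by
      have h3 : σ j ((fun x => -x) ⁻¹' N) = 0 := by
        rw [← Measure.map_apply hneg hN, hsymm j, h0]
      have h4 := hA j _ (hneg hN) h3
      rw [← hSsymm, Measure.map_apply hneg ((hAm j).inter (hneg hN))] at h4
      convert h4 using 2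
      ext x
      simp
    have h5 : A' j ∩ N ⊆ (A j ∩ N) ∪ ((fun x => -x) ⁻¹' (A j) ∩ N) := by
      rintro x ⟨hx | hx, hxN⟩
      · exact Or.inl ⟨hx, hxN⟩
      · exact Or.inr ⟨hx, hxN⟩
    exact measure_mono_null h5 (measure_union_null h1 h2)
  -- the leftover
  let R : Set UnitAddCircle := (⋃ j, A' j)ᶜ
  have hRm : MeasurableSet R := (MeasurableSet.iUnion hA'm).compl
  have hRs : ∀ x, x ∈ R ↔ -x ∈ R := by
    intro x
    simp only [R, mem_compl_iff, mem_iUnion, not_exists]
    exact forall_congr' fun j => not_congr (hA's j x)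
  have hR0 : S R = 0 := by
    rw [hS, Measure.sum_apply _ hRm, ENNReal.tsum_eq_zero]
    intro j
    rw [← hfd j, withDensity_apply _ hRm, lintegral_eq_zero_iff (hfm j), Filter.EventuallyEq,
      ae_restrict_iff' hRm]
    refine Filter.Eventually.of_forall fun x hx => ?_
    by_contra hne
    exact hx (mem_iUnion.2 ⟨j, Or.inl hne⟩)
  let C : ℕ → Set UnitAddCircle := fun j => if j = 0 then A' 0 ∪ R else A' j
  have hCm : ∀ j, MeasurableSet (C j) := by
    intro j
    by_cases hj : j = 0
    · simp only [C, hj, if_true]; exact (hA'm 0).union hRm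
    · simp only [C, hj, if_false]; exact hA'm j
  have hCs : ∀ j x, x ∈ C j ↔ -x ∈ C j := by
    intro j x
    by_cases hj : j = 0
    · simp only [C, hj, if_true, mem_union]
      rw [hA's 0 x, hRs x]
    · simp only [C, hj, if_false]
      exact hA's j x
  have hC : ∀ j (N : Set UnitAddCircle), MeasurableSet N → σ j N = 0 → S (C j ∩ N) = 0 := by
    intro j N hN h0
    by_cases hj : j = 0
    · subst hj
      simp only [C, if_true]
      have h5 : (A' 0 ∪ R) ∩ N ⊆ (A' 0 ∩ N) ∪ R := by
        rintro x ⟨hx | hx, hxN⟩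
        · exact Or.inl ⟨hx, hxN⟩
        · exact Or.inr hx
      exact measure_mono_null h5 (measure_union_null (hA' 0 N hN h0) hR0)
    · simp only [C, hj, if_false]
      exact hA' j N hN h0
  refine ⟨fun j => C j ∩ ⋂ i ∈ Finset.range j, (C i)ᶜ, ?_, ?_, ?_, ?_, ?_⟩
  · intro j
    exact (hCm j).inter (Finset.measurableSet_biInter _ fun i _ => (hCm i).compl)
  · intro j x
    simp only [mem_inter_iff, mem_iInter, mem_compl_iff]
    rw [hCs j x]
    refine and_congr_right fun _ => ?_
    exact forall_congr' fun i => forall_congr' fun _ => not_congr (hCs i x)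
  · intro i j hij
    rw [Set.disjoint_left]
    rintro x ⟨hxi, hxi'⟩ ⟨hxj, hxj'⟩
    simp only [mem_iInter, mem_compl_iff, Finset.mem_range] at hxi' hxj'
    rcases lt_or_gt_of_ne hij with h | h
    · exact hxj' i h hxi
    · exact hxi' j h hxj
  · rw [eq_univ_iff_forall]
    intro x
    have hex : ∃ j, x ∈ C j := by
      by_cases hx : x ∈ R
      · exact ⟨0, by simp only [C, if_true]; exact Or.inr hx⟩
      · simp only [R, mem_compl_iff, not_not, mem_iUnion] at hx
        obtain ⟨j, hj⟩ := hx
        refine ⟨j, ?_⟩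
        by_cases hj0 : j = 0
        · subst hj0; simp only [C, if_true]; exact Or.inl hj
        · simp only [C, hj0, if_false]; exact hj
    rw [mem_iUnion]
    refine ⟨Nat.find hex, Nat.find_spec hex, ?_⟩
    simp only [mem_iInter, mem_compl_iff, Finset.mem_range]
    intro i hi
    exact Nat.find_min hex hi
  · intro j
    refine Measure.AbsolutelyContinuous.mk fun N hN h0 => ?_
    rw [Measure.restrict_apply hN]
    refine measure_mono_null ?_ (hC j N hN h0)
    rintro x ⟨hxN, hxC, _⟩
    exact ⟨hxC, hxN⟩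

end HOST
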