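import Pool.Agent.Lib.MP_8a5982_an.HOST.Base
import Pool.Agent.Lib.MP_8a5982_an.HO.H84.Four2

/-!
Project HOST: modules CONV and SPECEXP (helper84).
-/

open MeasureTheory Set Filter Topology
open scoped ENNReal NNReal ComplexConjugate

set_option linter.unusedSectionVars false

namespace HOST

local instance : Fact ((0 : ℝ) < 1) := ⟨one_pos⟩

/-! ### CONV -/

instance finite_convPow (σ : Measure UnitAddCircle) [IsFiniteMeasure σ] (k : ℕ) :
    IsFiniteMeasure (convPow σ k) := by
  induction k with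
  | zero => unfold convPow; infer_instance
  | succ k ih => unfold convPow; infer_instance

theorem integral_fourier_conv2 (σ ν : Measure UnitAddCircle) [IsFiniteMeasure σ]
    [IsFiniteMeasure ν] (n : ℤ) : ∫ x, (fourier n x : ℂ) ∂(σ.conv ν) =
      (∫ x, (fourier n x : ℂ) ∂σ) * ∫ x, (fourier n x : ℂ) ∂ν := by
  rw [Measure.conv, integral_map (by fun_prop) (fourier n).continuous.measurable.aestronglyMeasurable]
  have e : ∀ p : UnitAddCircle × UnitAddCircle, (fourier n (p.1 + p.2) : ℂ) =
      fourier n p.1 * fourier n p.2 := by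
    intro p
    rw [fourier_apply, fourier_apply, fourier_apply, smul_add, AddCircle.toCircle_add]
    simp
  simp only [e]
  exact integral_prod_mul (fun x : UnitAddCircle => (fourier n x : ℂ))
    (fun y : UnitAddCircle => (fourier n y : ℂ))

theorem integral_fourier_convPow (σ : Measure UnitAddCircle) [IsFiniteMeasure σ] (k : ℕ)
    (n : ℤ) : ∫ x, (fourier n x : ℂ) ∂(convPow σ k) = (∫ x, (fourier n x : ℂ) ∂σ) ^ k := by
  induction k with
  | zero =>
    unfold convPow
    rw [integral_dirac]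
    simp [fourier_apply]
  | succ k ih =>
    have : convPow σ (k + 1) = σ.conv (convPow σ k) := rfl
    rw [this, integral_fourier_conv2, ih, pow_succ, mul_comm]

theorem convPow_ac {σ τ : Measure UnitAddCircle} [IsFiniteMeasure σ] [IsFiniteMeasure τ]
    (h : τ ≪ σ) (k : ℕ) : convPow τ k ≪ convPow σ k := by
  induction k with
  | zero => exact Measure.AbsolutelyContinuous.rfl
  | succ k ih =>
    have e1 : convPow σ (k + 1) = σ.conv (convPow σ k) := rfl
    have e2 : convPow τ (k + 1) = τ.conv (convPow τ k) := rfl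
    rw [e1, e2, Measure.conv, Measure.conv]
    exact (h.prod ih).map (by fun_prop)

theorem noAtoms_conv (σ ν : Measure UnitAddCircle) [IsFiniteMeasure σ] [IsFiniteMeasure ν]
    (hna : ∀ x, σ {x} = 0) (x : UnitAddCircle) : (σ.conv ν) {x} = 0 := by
  have hm : Measurable fun p : UnitAddCircle × UnitAddCircle => p.1 + p.2 := by fun_prop
  rw [Measure.conv, Measure.map_apply hm (measurableSet_singleton x),
    Measure.prod_apply_symm (hm (measurableSet_singleton x))]
  have e : ∀ y : UnitAddCircle, ((fun z => (z, y)) ⁻¹'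
      ((fun p : UnitAddCircle × UnitAddCircle => p.1 + p.2) ⁻¹' {x})) = {x - y} := by
    intro y
    ext z
    simp only [mem_preimage, mem_singleton_iff]
    exact eq_sub_iff_add_eq.symm
  simp only [e, hna, lintegral_zero]

theorem noAtoms_convPow (σ : Measure UnitAddCircle) [IsFiniteMeasure σ] (hna : ∀ x, σ {x} = 0)
    (k : ℕ) (hk : 1 ≤ k) (x : UnitAddCircle) : convPow σ k {x} = 0 := by
  obtain ⟨j, rfl⟩ : ∃ j, k = j + 1 := ⟨k - 1, by omega⟩
  exact noAtoms_conv σ (convPow σ j) hna x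

/-! ### SPECEXP -/

/-- the trigonometric polynomial `∑ a_k e_k` -/
noncomputable def strig (s : Finset ℤ) (a : ℤ → ℝ) (x : UnitAddCircle) : ℂ :=
  ∑ k ∈ s, (a k : ℂ) * fourier k x

theorem continuous_strig (s : Finset ℤ) (a : ℤ → ℝ) : Continuous (strig s a) := by
  unfold strig
  fun_prop

theorem strig_neg (s : Finset ℤ) (a : ℤ → ℝ) (x : UnitAddCircle) :
    strig s a (-x) = conj (strig s a x) := by
  unfold strig
  rw [map_sum]
  refine Finset.sum_congr rfl fun k _ => ?_
  rw [map_mul, Complex.conj_ofReal, ← fourier_neg]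
  congr 1
  rw [fourier_apply, fourier_apply, smul_neg, neg_smul]

theorem fourier_integrable (σ : Measure UnitAddCircle) [IsFiniteMeasure σ] (n : ℤ) :
    Integrable (fun x => (fourier n x : ℂ)) σ :=
  Integrable.of_bound (fourier n).continuous.measurable.aestronglyMeasurable 1
    (Eventually.of_forall fun x => (HostSn.H84.norm_fourier_apply n x).le)

theorem quad_eq (σ : Measure UnitAddCircle) [IsFiniteMeasure σ] (s : Finset ℤ) (a : ℤ → ℝ) :
    ∑ k ∈ s, ∑ l ∈ s, ((a k * a l : ℝ) : ℂ) * ∫ x, (fourier (k - l) x : ℂ) ∂σ =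
      ((∫ x, ‖strig s a x‖ ^ 2 ∂σ : ℝ) : ℂ) := by
  rw [← integral_complex_ofReal]
  have e : ∀ x, ((‖strig s a x‖ ^ 2 : ℝ) : ℂ) =
      ∑ k ∈ s, ∑ l ∈ s, ((a k * a l : ℝ) : ℂ) * (fourier (k - l) x : ℂ) := by
    intro x
    rw [Complex.ofReal_pow, ← Complex.mul_conj', strig, map_sum, Finset.sum_mul_sum]
    refine Finset.sum_congr rfl fun i _ => Finset.sum_congr rfl fun j _ => ?_
    rw [map_mul, Complex.conj_ofReal, sub_eq_add_neg, fourier_add, fourier_neg]
    push_cast
    ring
  simp only [e]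
  rw [integral_finsetSum _ (fun i _ => integrable_finsetSum _ fun j _ =>
    (fourier_integrable σ _).const_mul _)]
  refine Finset.sum_congr rfl fun i _ => ?_
  rw [integral_finsetSum _ (fun j _ => (fourier_integrable σ _).const_mul _)]
  refine Finset.sum_congr rfl fun j _ => ?_
  rw [integral_const_mul]

theorem sum_shift {M : Type*} [AddCommMonoid M] (s s' : Finset ℤ) (n : ℤ)
    (hs : ∀ k ∈ s, k + n ∈ s') (G : ℤ → M) :
    ∑ k ∈ s', (if k - n ∈ s then G k else 0) = ∑ k ∈ s, G (k + n) := by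
  rw [← Finset.sum_filter]
  refine (Finset.sum_bij' (fun k _ => k + n) (fun k _ => k - n) ?_ ?_ ?_ ?_ ?_).symm
  · intro k hk
    simp only [Finset.mem_filter]
    exact ⟨hs k hk, by simpa using hk⟩
  · intro k hk
    exact (Finset.mem_filter.1 hk).2
  · intro k _
    ring
  · intro k _
    ring
  · intro k _
    rfl

theorem sum_restrict {M : Type*} [AddCommMonoid M] (s s' : Finset ℤ)
    (hs : s ⊆ s') (G : ℤ → M) :
    ∑ k ∈ s', (if k ∈ s then G k else 0) = ∑ k ∈ s, G k := by
  rw [← Finset.sum_filter]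
  congr 1
  ext k
  simp only [Finset.mem_filter]
  exact ⟨fun h => h.2, fun h => ⟨hs h, h⟩⟩

/-- the correlation of the exponential -/
theorem exp_corr (σ : Measure UnitAddCircle) [IsFiniteMeasure σ]
    (hsymm : σ.map (fun x => -x) = σ) (μ : Measure (ℤ → ℝ)) (hμ : IsGaussianShift σ μ)
    (s : Finset ℤ) (a : ℤ → ℝ) (n : ℤ) :
    ∫ ω, Complex.exp (Complex.I * ((∑ k ∈ s, a k * ω (k + n) : ℝ) : ℂ)) *
      conj (Complex.exp (Complex.I * ((∑ k ∈ s, a k * ω k : ℝ) : ℂ))) ∂μ =
    Complex.exp (-((∫ x, ‖strig s a x‖ ^ 2 ∂σ : ℝ) : ℂ) +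
      ∫ x, (fourier n x : ℂ) * ((‖strig s a x‖ ^ 2 : ℝ) : ℂ) ∂σ) := by
  classical
  set s' : Finset ℤ := s ∪ s.image (fun k => k + n) with hs'
  set b : ℤ → ℝ := fun k => (if k - n ∈ s then a (k - n) else 0) - (if k ∈ s then a k else 0)
    with hb
  have h1 : ∀ k ∈ s, k + n ∈ s' := fun k hk =>
    Finset.mem_union_right _ (Finset.mem_image_of_mem _ hk)
  have h2 : s ⊆ s' := Finset.subset_union_left
  have e1 : ∀ ω : ℤ → ℝ, ∑ k ∈ s', b k * ω k = ∑ k ∈ s, a k * ω (k + n) - ∑ k ∈ s, a k * ω k := by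
    intro ω
    have k1 := sum_shift s s' n h1 (fun k => a (k - n) * ω k)
    have k2 := sum_restrict s s' h2 (fun k => a k * ω k)
    simp only [add_sub_cancel_right] at k1
    rw [← k1, ← k2, ← Finset.sum_sub_distrib]
    refine Finset.sum_congr rfl fun k _ => ?_
    simp only [hb]
    rw [sub_mul]
    congr 1 <;> split_ifs <;> simp
  have e2 : ∀ x : UnitAddCircle, strig s' b x = strig s a x * ((fourier n x : ℂ) - 1) := by
    intro x
    have k1 := sum_shift s s' n h1 (fun k => ((a (k - n) : ℝ) : ℂ) * (fourier k x : ℂ))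
    have k2 := sum_restrict s s' h2 (fun k => ((a k : ℝ) : ℂ) * (fourier k x : ℂ))
    simp only [add_sub_cancel_right] at k1
    have k3 : strig s' b x = ∑ k ∈ s, ((a k : ℝ) : ℂ) * (fourier (k + n) x : ℂ) -
        ∑ k ∈ s, ((a k : ℝ) : ℂ) * (fourier k x : ℂ) := by
      rw [← k1, ← k2, ← Finset.sum_sub_distrib, strig]
      refine Finset.sum_congr rfl fun k _ => ?_
      simp only [hb]
      rw [Complex.ofReal_sub, sub_mul]
      congr 1 <;> split_ifs <;> simp
    rw [k3, mul_sub, mul_one]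
    congr 1
    rw [strig, Finset.sum_mul]
    refine Finset.sum_congr rfl fun k _ => ?_
    rw [fourier_add]
    ring
  have e3 : ∀ ω : ℤ → ℝ, Complex.exp (Complex.I * ((∑ k ∈ s, a k * ω (k + n) : ℝ) : ℂ)) *
      conj (Complex.exp (Complex.I * ((∑ k ∈ s, a k * ω k : ℝ) : ℂ))) =
      Complex.exp (Complex.I * ((∑ k ∈ s', b k * ω k : ℝ) : ℂ)) := by
    intro ω
    rw [← Complex.exp_conj, ← Complex.exp_add, e1 ω, map_mul, Complex.conj_I, Complex.conj_ofReal]
    congr 1
    push_cast
    ring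
  simp only [e3]
  rw [hμ.2 s' b, quad_eq]
  congr 1
  -- the quadratic form
  have hc : Continuous fun x : UnitAddCircle => ‖strig s a x‖ ^ 2 :=
    (continuous_strig s a).norm.pow 2
  have hi : Integrable (fun x : UnitAddCircle => ‖strig s a x‖ ^ 2) σ :=
    hc.integrable_of_hasCompactSupport (HasCompactSupport.of_compactSpace _)
  have hi' : Integrable (fun x : UnitAddCircle => ((‖strig s a x‖ ^ 2 : ℝ) : ℂ)) σ := hi.ofReal
  have hfi : ∀ m : ℤ, Integrable (fun x : UnitAddCircle =>
      (fourier m x : ℂ) * ((‖strig s a x‖ ^ 2 : ℝ) : ℂ)) σ := by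
    intro m
    have : Continuous fun x : UnitAddCircle => (fourier m x : ℂ) * ((‖strig s a x‖ ^ 2 : ℝ) : ℂ) := by
      fun_prop
    exact this.integrable_of_hasCompactSupport (HasCompactSupport.of_compactSpace _)
  have hsym2 : ∫ x, (fourier (-n) x : ℂ) * ((‖strig s a x‖ ^ 2 : ℝ) : ℂ) ∂σ =
      ∫ x, (fourier n x : ℂ) * ((‖strig s a x‖ ^ 2 : ℝ) : ℂ) ∂σ := by
    have hcn : Continuous fun x : UnitAddCircle =>
        (fourier (-n) x : ℂ) * ((‖strig s a x‖ ^ 2 : ℝ) : ℂ) := by fun_prop
    conv_lhs => rw [← hsymm]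
    rw [integral_map (by fun_prop) hcn.measurable.aestronglyMeasurable]
    congr 1
    ext x
    rw [strig_neg, RCLike.norm_conj]
    congr 1
    rw [fourier_apply, fourier_apply, smul_neg, neg_smul, neg_neg]
  have e4 : ((∫ x, ‖strig s' b x‖ ^ 2 ∂σ : ℝ) : ℂ) =
      2 * ((∫ x, ‖strig s a x‖ ^ 2 ∂σ : ℝ) : ℂ) -
        2 * ∫ x, (fourier n x : ℂ) * ((‖strig s a x‖ ^ 2 : ℝ) : ℂ) ∂σ := by
    have e5 : ∀ x, ((‖strig s' b x‖ ^ 2 : ℝ) : ℂ) = 2 * ((‖strig s a x‖ ^ 2 : ℝ) : ℂ) -
        (fourier n x : ℂ) * ((‖strig s a x‖ ^ 2 : ℝ) : ℂ) -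
        (fourier (-n) x : ℂ) * ((‖strig s a x‖ ^ 2 : ℝ) : ℂ) := by
      intro x
      rw [e2, norm_mul, mul_pow]
      have e6 : ((‖(fourier n x : ℂ) - 1‖ ^ 2 : ℝ) : ℂ) = 2 - fourier n x - fourier (-n) x := by
        rw [Complex.ofReal_pow, ← Complex.mul_conj', map_sub, map_one, fourier_neg]
        have e7 : (fourier n x : ℂ) * conj (fourier n x : ℂ) = 1 := by
          rw [Complex.mul_conj', HostSn.H84.norm_fourier_apply]
          simp
        linear_combination e7
      rw [Complex.ofReal_mul, e6]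
      ring
    have hsub : Integrable (fun x : UnitAddCircle => 2 * ((‖strig s a x‖ ^ 2 : ℝ) : ℂ) -
        (fourier n x : ℂ) * ((‖strig s a x‖ ^ 2 : ℝ) : ℂ)) σ := (hi'.const_mul 2).sub (hfi n)
    rw [← integral_complex_ofReal]
    simp only [e5]
    rw [integral_sub hsub (hfi (-n)),
      integral_sub (hi'.const_mul 2) (hfi n), integral_const_mul, hsym2,
      integral_complex_ofReal]
    ring
  rw [e4]
  ring

/-- the mean of the shifted exponential -/
theorem exp_mean (σ : Measure UnitAddCircle) [IsFiniteMeasure σ]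
    (μ : Measure (ℤ → ℝ)) (hμ : IsGaussianShift σ μ)
    (s : Finset ℤ) (a : ℤ → ℝ) (n : ℤ) :
    ∫ ω, Complex.exp (Complex.I * ((∑ k ∈ s, a k * ω (k + n) : ℝ) : ℂ)) ∂μ =
    Complex.exp (-(1 / 2) * ((∫ x, ‖strig s a x‖ ^ 2 ∂σ : ℝ) : ℂ)) := by
  classical
  have hinj : ∀ k ∈ s, ∀ l ∈ s, k + n = l + n → k = l := fun k _ l _ h => by omega
  have h1 := hμ.2 (s.image (fun k => k + n)) (fun k => a (k - n))
  have e1 : ∀ ω : ℤ → ℝ, ∑ k ∈ s.image (fun k => k + n), a (k - n) * ω k =
      ∑ k ∈ s, a k * ω (k + n) := by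
    intro ω
    rw [Finset.sum_image hinj]
    simp only [add_sub_cancel_right]
  simp only [e1] at h1
  rw [h1, ← quad_eq, Finset.sum_image hinj]
  congr 2
  refine Finset.sum_congr rfl fun k _ => ?_
  rw [Finset.sum_image hinj]
  simp only [add_sub_cancel_right, add_sub_add_right_eq_sub]

theorem convPow_univ (σ : Measure UnitAddCircle) [IsFiniteMeasure σ] (k : ℕ) :
    convPow σ k univ = (σ univ) ^ k := by
  induction k with
  | zero => simp [convPow]
  | succ k ih =>
    have : convPow σ (k + 1) = σ.conv (convPow σ k) := rfl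
    rw [this, Measure.conv, Measure.map_apply (by fun_prop) MeasurableSet.univ, preimage_univ,
      ← univ_prod_univ, Measure.prod_prod, ih, pow_succ, mul_comm]

/-- the compound measure -/
noncomputable def poissonPart (σ : Measure UnitAddCircle) (q : ℝ) : Measure UnitAddCircle :=
  Measure.sum fun k : ℕ => ENNReal.ofReal (Real.exp (-q) / (k + 1).factorial) • convPow σ (k + 1)

theorem finite_poissonPart (σ : Measure UnitAddCircle) [IsFiniteMeasure σ] (q : ℝ) :
    IsFiniteMeasure (poissonPart σ q) := by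
  refine ⟨?_⟩
  rw [poissonPart, Measure.sum_apply _ MeasurableSet.univ]
  have e : ∀ k : ℕ, (ENNReal.ofReal (Real.exp (-q) / (k + 1).factorial) •
      convPow σ (k + 1)) univ =
      ENNReal.ofReal (Real.exp (-q) * ((σ.real univ) ^ (k + 1) / (k + 1).factorial)) := by
    intro k
    rw [Measure.smul_apply, convPow_univ, smul_eq_mul, ← ENNReal.ofReal_toReal (measure_ne_top σ univ),
      ← ENNReal.ofReal_pow ENNReal.toReal_nonneg, ← ENNReal.ofReal_mul (by positivity)]
    congr 1
    simp only [Measure.real]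
    ring
  simp only [e]
  have hs : Summable fun k : ℕ => Real.exp (-q) * ((σ.real univ) ^ (k + 1) / (k + 1).factorial) :=
    ((summable_nat_add_iff 1).2 (Real.summable_pow_div_factorial (σ.real univ))).mul_left _
  rw [← ENNReal.ofReal_tsum_of_nonneg (fun k => by positivity) hs]
  exact ENNReal.ofReal_lt_top

theorem integral_fourier_poissonPart (σ : Measure UnitAddCircle) [IsFiniteMeasure σ] (q : ℝ)
    (n : ℤ) : ∫ x, (fourier n x : ℂ) ∂(poissonPart σ q) =
      Complex.exp (-(q : ℂ)) * (Complex.exp (∫ x, (fourier n x : ℂ) ∂σ) - 1) := by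
  have hfin := finite_poissonPart σ q
  have h1 := hasSum_integral_measure (f := fun x : UnitAddCircle => (fourier n x : ℂ))
    (μ := fun k : ℕ => ENNReal.ofReal (Real.exp (-q) / (k + 1).factorial) • convPow σ (k + 1))
    (fourier_integrable (poissonPart σ q) n)
  set S := ∫ x, (fourier n x : ℂ) ∂σ with hS
  have e : ∀ k : ℕ, ∫ x, (fourier n x : ℂ) ∂(ENNReal.ofReal (Real.exp (-q) / (k + 1).factorial) •
      convPow σ (k + 1)) = Complex.exp (-(q : ℂ)) * (S ^ (k + 1) / ((k + 1).factorial : ℂ)) := by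
    intro k
    rw [integral_smul_measure, integral_fourier_convPow, ENNReal.toReal_ofReal (by positivity),
      Complex.real_smul]
    push_cast
    ring
  simp only [e] at h1
  have h2 : HasSum (fun k : ℕ => S ^ k / (k.factorial : ℂ)) (Complex.exp S) := by
    rw [Complex.exp_eq_exp_ℂ]
    exact NormedSpace.exp_series_hasSum_exp' (𝕂 := ℂ) S |> fun h => by simpa [div_eq_inv_mul] using h
  have h3 := (hasSum_nat_add_iff' 1).2 h2
  simp only [Finset.range_one, Finset.sum_singleton, pow_zero, Nat.factorial_zero, Nat.cast_one,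
    div_one] at h3
  exact h1.unique (h3.mul_left _)

theorem spectral_exp (σ : Measure UnitAddCircle) [IsFiniteMeasure σ]
    (hsymm : σ.map (fun x => -x) = σ) (hna : ∀ x, σ {x} = 0)
    (hpow : ∀ k : ℕ, 1 ≤ k → convPow σ k ⟂ₘ (volume : Measure UnitAddCircle))
    (μ : Measure (ℤ → ℝ)) (hμ : IsGaussianShift σ μ) (s : Finset ℤ) (a : ℤ → ℝ) :
    ∃ τ : Measure UnitAddCircle, (∀ x, τ {x} = 0) ∧ τ ⟂ₘ (volume : Measure UnitAddCircle) ∧
      IsSpectral shift μ (fun ω => Complex.exp (Complex.I * ((∑ k ∈ s, a k * ω k : ℝ) : ℂ)) -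
        ∫ ω', Complex.exp (Complex.I * ((∑ k ∈ s, a k * ω' k : ℝ) : ℂ)) ∂μ) τ := by
  have hprob := hμ.1
  set q : ℝ := ∫ x, ‖strig s a x‖ ^ 2 ∂σ with hq
  have hc : Continuous fun x : UnitAddCircle => ‖strig s a x‖ ^ 2 :=
    (continuous_strig s a).norm.pow 2
  have hi : Integrable (fun x : UnitAddCircle => ‖strig s a x‖ ^ 2) σ :=
    hc.integrable_of_hasCompactSupport (HasCompactSupport.of_compactSpace _)
  set σp := σ.withDensity (fun x => ENNReal.ofReal (‖strig s a x‖ ^ 2)) with hσp
  have hfin : IsFiniteMeasure σp := isFiniteMeasure_withDensity_ofReal hi.2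
  have hac : σp ≪ σ := withDensity_absolutelyContinuous _ _
  have hnap : ∀ x, σp {x} = 0 := fun x => hac (hna x)
  have hS : ∀ n : ℤ, ∫ x, (fourier n x : ℂ) ∂σp =
      ∫ x, (fourier n x : ℂ) * ((‖strig s a x‖ ^ 2 : ℝ) : ℂ) ∂σ := by
    intro n
    rw [hσp, integral_withDensity_eq_integral_toReal_smul hc.measurable.ennreal_ofReal
      (Eventually.of_forall fun _ => ENNReal.ofReal_lt_top)]
    congr 1
    ext x
    rw [ENNReal.toReal_ofReal (by positivity), Complex.real_smul, mul_comm]
  refine ⟨poissonPart σp q, ?_, ?_, finite_poissonPart σp q, ?_⟩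
  · intro x
    rw [poissonPart, Measure.sum_apply _ (measurableSet_singleton x), ENNReal.tsum_eq_zero]
    intro k
    rw [Measure.smul_apply, noAtoms_convPow σp hnap (k + 1) (by omega) x, smul_zero]
  · rw [poissonPart, Measure.MutuallySingular.sum_left]
    intro k
    exact ((hpow (k + 1) (by omega)).mono_ac (convPow_ac hac (k + 1))
      Measure.AbsolutelyContinuous.rfl).smul _
  · intro n
    rw [integral_fourier_poissonPart, hS n]
    have m0 := exp_mean σ μ hμ s a 0
    simp only [add_zero] at m0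
    have mn := exp_mean σ μ hμ s a n
    have cn := exp_corr σ hsymm μ hμ s a n
    rw [← hq] at m0 mn cn
    rw [m0]
    set m : ℂ := Complex.exp (-(1 / 2) * (q : ℂ)) with hm
    have hmc : conj m = m := by
      rw [hm, ← Complex.exp_conj]
      congr 1
      rw [map_mul, Complex.conj_ofReal]
      congr 1
      rw [map_neg, map_div₀, map_one, map_ofNat]
    have hbd : ∀ j : ℤ, Integrable (fun ω : ℤ → ℝ =>
        Complex.exp (Complex.I * ((∑ k ∈ s, a k * ω (k + j) : ℝ) : ℂ))) μ := by
      intro j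
      refine Integrable.of_bound (C := 1) ?_ (Eventually.of_forall fun ω => ?_)
      · have : Measurable fun ω : ℤ → ℝ => ∑ k ∈ s, a k * ω (k + j) := by fun_prop
        exact (Complex.measurable_exp.comp
          (measurable_const.mul (Complex.measurable_ofReal.comp this))).aestronglyMeasurable
      · rw [mul_comm, Complex.norm_exp_ofReal_mul_I]
    set c : (ℤ → ℝ) → ℂ := fun ω => Complex.exp (Complex.I * ((∑ k ∈ s, a k * ω k : ℝ) : ℂ)) with hcdef
    set cj : (ℤ → ℝ) → ℂ := fun ω =>
      Complex.exp (Complex.I * ((∑ k ∈ s, a k * ω (k + n) : ℝ) : ℂ)) with hcj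
    have hc0 : Integrable c μ := by
      have := hbd 0
      simpa only [add_zero] using this
    have hcn : Integrable cj μ := hbd n
    have hc0c : Integrable (fun ω => conj (c ω)) μ :=
      hc0.mono (Complex.continuous_conj.comp_aestronglyMeasurable hc0.1)
        (Eventually.of_forall fun ω => by simp)
    have hprod : Integrable (fun ω => cj ω * conj (c ω)) μ := by
      refine hc0c.bdd_mul (c := 1) hcn.1 (Eventually.of_forall fun ω => ?_)
      simp only [hcj]
      rw [mul_comm, Complex.norm_exp_ofReal_mul_I]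
    have e : ∀ ω : ℤ → ℝ, (Complex.exp (Complex.I * ((∑ k ∈ s, a k * iter shift n ω k : ℝ) : ℂ)) - m) *
        (starRingEnd ℂ) (Complex.exp (Complex.I * ((∑ k ∈ s, a k * ω k : ℝ) : ℂ)) - m) =
        (cj ω * conj (c ω) - m * conj (c ω)) - (m * cj ω - m * m) := by
      intro ω
      simp only [iter_shift, map_sub, hmc, hcj, hcdef]
      ring
    simp only [e]
    have i1 : Integrable (fun ω => cj ω * conj (c ω) - m * conj (c ω)) μ :=
      hprod.sub (hc0c.const_mul m)
    have i2 : Integrable (fun ω => m * cj ω - m * m) μ :=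
      (hcn.const_mul m).sub (integrable_const _)
    rw [integral_sub i1 i2, integral_sub hprod (hc0c.const_mul m),
      integral_sub (hcn.const_mul m) (integrable_const _), integral_const_mul, integral_const_mul,
      integral_conj]
    have k1 : ∫ ω, cj ω * conj (c ω) ∂μ = Complex.exp (-(q : ℂ) +
      ∫ x, (fourier n x : ℂ) * ((‖strig s a x‖ ^ 2 : ℝ) : ℂ) ∂σ) := cn
    have k2 : ∫ ω, c ω ∂μ = m := m0
    have k3 : ∫ ω, cj ω ∂μ = m := mn
    rw [k1, k2, k3, hmc, integral_const]
    have k4 : m * m = Complex.exp (-(q : ℂ)) := by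
      rw [hm, ← Complex.exp_add]
      congr 1
      ring
    rw [k4, Complex.exp_add]
    simp
    ring

end HOST
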