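import Pool.Agent.Lib.MP_8a5982_an.HOST.LH
import Pool.Agent.Lib.MP_8a5982_an.HOST.SpecExp
import Pool.Agent.Lib.MP_8a5982_an.HOST.CharF

/-!
Project HOST: a function with continuous singular spectral measure is orthogonal to all products
coming from the two partners of a pairwise independent joining; class `H` for Gaussian systems all
of whose convolution powers are singular.
-/

open MeasureTheory Filter Set
open scoped ENNReal

namespace HOST

section split

variable {Λ U V : Type*} [MeasurableSpace Λ] [MeasurableSpace U] [MeasurableSpace V]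

theorem corr_shift (T : Λ ≃ᵐ Λ) (L : Measure Λ) (hT : MeasurePreserving T L L) (a : Λ → ℂ)
    (ha : Measurable a) (n n' : ℤ) :
    ∫ x, a (iter T n x) * (starRingEnd ℂ) (a (iter T n' x)) ∂L =
      ∫ x, a (iter T (n - n') x) * (starRingEnd ℂ) (a x) ∂L := by
  have hF : Measurable fun x => a (iter T (n - n') x) * (starRingEnd ℂ) (a x) :=
    (ha.comp (measurable_iter T _)).mul (Complex.continuous_conj.measurable.comp ha)
  have h1 := integral_map (μ := L) (measurable_iter T n').aemeasurable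
    hF.aestronglyMeasurable
  rw [(measurePreserving_iter hT n').map_eq] at h1
  rw [h1]
  refine integral_congr_ae (Eventually.of_forall fun x => ?_)
  simp only
  rw [← iter_add, sub_add_cancel]

theorem split_of_pair (T : Λ ≃ᵐ Λ) (S : U ≃ᵐ U) (R : V ≃ᵐ V) (L : Measure Λ)
    [IsProbabilityMeasure L] (hT : MeasurePreserving T L L) (f : Λ → U) (g : Λ → V)
    (hf : Measurable f) (hg : Measurable g)
    (hfT : ∀ n p, f (iter T n p) = iter S n (f p)) (hgT : ∀ n p, g (iter T n p) = iter R n (g p))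
    (hind : L.map (fun p => (f p, g p)) = (L.map f).prod (L.map g))
    (α : U → ℂ) (β : V → ℂ) (hα : Measurable α) (hβ : Measurable β) :
    Split T L (fun p => α (f p)) (fun p => β (g p)) := by
  intro n m n' m'
  have hfp : IsProbabilityMeasure (L.map f) := Measure.isProbabilityMeasure_map hf.aemeasurable
  have hgp : IsProbabilityMeasure (L.map g) := Measure.isProbabilityMeasure_map hg.aemeasurable
  rw [← corr_shift T L hT (fun p => α (f p)) (hα.comp hf) n n',
    ← corr_shift T L hT (fun p => β (g p)) (hβ.comp hg) m m']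
  set F : U → ℂ := fun u => α (iter S n u) * (starRingEnd ℂ) (α (iter S n' u)) with hF
  set G : V → ℂ := fun v => β (iter R m v) * (starRingEnd ℂ) (β (iter R m' v)) with hG
  have hFm : Measurable F := (hα.comp (measurable_iter S _)).mul
    (Complex.continuous_conj.measurable.comp (hα.comp (measurable_iter S _)))
  have hGm : Measurable G := (hβ.comp (measurable_iter R _)).mul
    (Complex.continuous_conj.measurable.comp (hβ.comp (measurable_iter R _)))
  have e1 : ∀ p, (α (f (iter T n p)) * β (g (iter T m p))) *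
      (starRingEnd ℂ) (α (f (iter T n' p)) * β (g (iter T m' p))) = F (f p) * G (g p) := by
    intro p
    simp only [hF, hG, hfT, hgT, map_mul]
    ring
  have e2 : ∀ p, α (f (iter T n p)) * (starRingEnd ℂ) (α (f (iter T n' p))) = F (f p) := by
    intro p; simp only [hF, hfT]
  have e3 : ∀ p, β (g (iter T m p)) * (starRingEnd ℂ) (β (g (iter T m' p))) = G (g p) := by
    intro p; simp only [hG, hgT]
  simp only [e1, e2, e3]
  have h1 := integral_prod_mul (μ := L.map f) (ν := L.map g) F G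
  rw [← hind] at h1
  have hFG : Measurable fun z : U × V => F z.1 * G z.2 :=
    (hFm.comp measurable_fst).mul (hGm.comp measurable_snd)
  rw [integral_map (by fun_prop) hFG.aestronglyMeasurable,
    integral_map hf.aemeasurable hFm.aestronglyMeasurable,
    integral_map hg.aemeasurable hGm.aestronglyMeasurable] at h1
  exact h1

end split

/-- Orthogonality for a pairwise independent joining. -/
theorem joining_orth {X : Type} [MeasurableSpace X] (T : X ≃ᵐ X) (μ : Measure X)
    {Ω₁ Ω₂ : Type} [MeasurableSpace Ω₁] [MeasurableSpace Ω₂] (T₁ : Ω₁ ≃ᵐ Ω₁) (T₂ : Ω₂ ≃ᵐ Ω₂)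
    (L : Measure (Ω₁ × Ω₂ × X)) [IsProbabilityMeasure L]
    (hLi : MeasurePreserving (fun p : Ω₁ × Ω₂ × X => (T₁ p.1, T₂ p.2.1, T p.2.2)) L L)
    (h3 : L.map (fun p => p.2.2) = μ)
    (h12 : L.map (fun p => (p.1, p.2.1)) =
      (L.map (fun p => p.1)).prod (L.map (fun p => p.2.1)))
    (h13 : L.map (fun p => (p.1, p.2.2)) = (L.map (fun p => p.1)).prod μ)
    (h23 : L.map (fun p => (p.2.1, p.2.2)) = (L.map (fun p => p.2.1)).prod μ)
    (c : X → ℂ) (hc : Measurable c) (C : ℝ) (hC : ∀ x, ‖c x‖ ≤ C)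
    (τ : Measure UnitAddCircle) (hτ : IsSpectral T μ c τ) (hna : ∀ x, τ {x} = 0)
    (hs : τ ⟂ₘ (volume : Measure UnitAddCircle)) (A : Set Ω₁) (B : Set Ω₂)
    (hA : MeasurableSet A) (hB : MeasurableSet B) :
    ∫ p in {p | p.1 ∈ A ∧ p.2.1 ∈ B}, c p.2.2 ∂L = 0 := by
  classical
  let T' : (Ω₁ × Ω₂ × X) ≃ᵐ (Ω₁ × Ω₂ × X) :=
    MeasurableEquiv.prodCongr T₁ (MeasurableEquiv.prodCongr T₂ T)
  have hT' : MeasurePreserving T' L L := hLi
  have i1 : ∀ n (p : Ω₁ × Ω₂ × X), (iter T' n p).1 = iter T₁ n p.1 := fun n p => by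
    rw [iter_prodMap]
  have i2 : ∀ n (p : Ω₁ × Ω₂ × X), (iter T' n p).2.1 = iter T₂ n p.2.1 := fun n p => by
    rw [iter_prodMap, iter_prodMap]
  have i3 : ∀ n (p : Ω₁ × Ω₂ × X), (iter T' n p).2.2 = iter T n p.2.2 := fun n p => by
    rw [iter_prodMap, iter_prodMap]
  set α : Ω₁ → ℂ := A.indicator fun _ => 1 with hα
  set β : Ω₂ → ℂ := B.indicator fun _ => 1 with hβ
  have hαm : Measurable α := measurable_const.indicator hA
  have hβm : Measurable β := measurable_const.indicator hB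
  have hαb : ∀ x, ‖α x‖ ≤ 1 := fun x => by
    by_cases hx : x ∈ A
    · simp [hα, hx]
    · simp [hα, hx]
  have hβb : ∀ x, ‖β x‖ ≤ 1 := fun x => by
    by_cases hx : x ∈ B
    · simp [hβ, hx]
    · simp [hβ, hx]
  have s12 := split_of_pair T' T₁ T₂ L hT' (fun p => p.1) (fun p => p.2.1) (by fun_prop)
    (by fun_prop) i1 i2 h12 α β hαm hβm
  have s13 := split_of_pair T' T₁ T L hT' (fun p => p.1) (fun p => p.2.2) (by fun_prop)
    (by fun_prop) i1 i3 (by rw [h13, h3]) α c hαm hc
  have s23 := split_of_pair T' T₂ T L hT' (fun p => p.2.1) (fun p => p.2.2) (by fun_prop)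
    (by fun_prop) i2 i3 (by rw [h23, h3]) β c hβm hc
  have hsp : IsSpectral T' L (fun p => c p.2.2) τ := by
    refine ⟨hτ.1, fun n => ?_⟩
    rw [hτ.2 n, ← h3]
    have hm : Measurable fun x => c (iter T n x) * (starRingEnd ℂ) (c x) :=
      (hc.comp (measurable_iter T _)).mul (Complex.continuous_conj.measurable.comp hc)
    rw [integral_map (by fun_prop) hm.aestronglyMeasurable]
    refine integral_congr_ae (Eventually.of_forall fun p => ?_)
    simp only
    rw [i3 n p]
  have h0 := local_host T' L hT' (fun p => α p.1) (fun p => β p.2.1) (fun p => c p.2.2)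
    (hαm.comp (by fun_prop)) (hβm.comp (by fun_prop)) (hc.comp (by fun_prop)) (max 1 C)
    (fun p => (hαb _).trans (le_max_left _ _)) (fun p => (hβb _).trans (le_max_left _ _))
    (fun p => (hC _).trans (le_max_right _ _)) s12 s13 s23 τ hsp hna hs
  rw [← h0]
  have hD : MeasurableSet {p : Ω₁ × Ω₂ × X | p.1 ∈ A ∧ p.2.1 ∈ B} :=
    (measurable_fst hA).inter ((measurable_fst.comp measurable_snd) hB)
  rw [← integral_indicator hD]
  refine integral_congr_ae (Eventually.of_forall fun p => ?_)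
  by_cases h1 : p.1 ∈ A
  · by_cases h2 : p.2.1 ∈ B
    · simp [hα, hβ, h1, h2]
    · simp [hα, hβ, h1, h2]
  · simp [hα, hβ, h1]

/-- the mass of a rectangle -/
theorem rect_mass {X : Type} [MeasurableSpace X] {Ω₁ Ω₂ : Type} [MeasurableSpace Ω₁]
    [MeasurableSpace Ω₂] (L : Measure (Ω₁ × Ω₂ × X)) [IsProbabilityMeasure L]
    (h12 : L.map (fun p => (p.1, p.2.1)) =
      (L.map (fun p => p.1)).prod (L.map (fun p => p.2.1))) (A : Set Ω₁) (B : Set Ω₂)
    (hA : MeasurableSet A) (hB : MeasurableSet B) :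
    L.real {p | p.1 ∈ A ∧ p.2.1 ∈ B} =
      (L.map (fun p => p.1)).real A * (L.map (fun p => p.2.1)).real B := by
  have h1 : L {p | p.1 ∈ A ∧ p.2.1 ∈ B} = (L.map (fun p => (p.1, p.2.1))) (A ×ˢ B) := by
    rw [Measure.map_apply (by fun_prop) (hA.prod hB)]
    rfl
  have hP2 : IsProbabilityMeasure (L.map (fun p => p.2.1)) :=
    Measure.isProbabilityMeasure_map (by fun_prop)
  rw [measureReal_def, h1, h12, Measure.prod_prod, ENNReal.toReal_mul]
  rfl

theorem classH_of_singular (σ : Measure UnitAddCircle) [IsFiniteMeasure σ]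
    (hsymm : σ.map (fun x => -x) = σ) (hna : ∀ x, σ {x} = 0)
    (hpow : ∀ k : ℕ, 1 ≤ k → convPow σ k ⟂ₘ (volume : Measure UnitAddCircle))
    (μ : Measure (ℤ → ℝ)) (hμ : IsGaussianShift σ μ) : ClassH shift μ := by
  have hμp : IsProbabilityMeasure μ := hμ.1
  refine classH_of_exp μ fun Ω₁ Ω₂ _ _ T₁ T₂ L hLp hLi h3 h12 h13 h23 A B hA hB s a => ?_
  obtain ⟨τ, hτ1, hτ2, hτ3⟩ := spectral_exp σ hsymm hna hpow μ hμ s a
  set M : ℂ := ∫ ω', Complex.exp (Complex.I * ((∑ k ∈ s, a k * ω' k : ℝ) : ℂ)) ∂μ with hM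
  have hXm : Measurable fun ω : ℤ → ℝ => ∑ k ∈ s, a k * ω k :=
    Finset.measurable_sum _ fun k _ => (measurable_pi_apply k).const_mul _
  have hem : Measurable fun ω : ℤ → ℝ =>
      Complex.exp (Complex.I * ((∑ k ∈ s, a k * ω k : ℝ) : ℂ)) :=
    Complex.measurable_exp.comp (measurable_const.mul (Complex.measurable_ofReal.comp hXm))
  have hen : ∀ ω : ℤ → ℝ,
      ‖Complex.exp (Complex.I * ((∑ k ∈ s, a k * ω k : ℝ) : ℂ))‖ ≤ 1 := fun ω => by
    rw [mul_comm, Complex.norm_exp_ofReal_mul_I]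
  have h0 := joining_orth shift μ T₁ T₂ L hLi h3 h12 h13 h23
    (fun ω => Complex.exp (Complex.I * ((∑ k ∈ s, a k * ω k : ℝ) : ℂ)) - M)
    (hem.sub measurable_const) (1 + ‖M‖)
    (fun ω => (norm_sub_le _ _).trans (add_le_add (hen ω) le_rfl)) τ hτ3 hτ1 hτ2 A B hA hB
  have hi : Integrable (fun p : Ω₁ × Ω₂ × (ℤ → ℝ) =>
      Complex.exp (Complex.I * ((∑ k ∈ s, a k * p.2.2 k : ℝ) : ℂ)))
      (L.restrict {p | p.1 ∈ A ∧ p.2.1 ∈ B}) := by
    refine Integrable.of_bound ?_ 1 (Eventually.of_forall fun p => hen p.2.2)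
    have : Measurable (fun p : Ω₁ × Ω₂ × (ℤ → ℝ) =>
      Complex.exp (Complex.I * ((∑ k ∈ s, a k * p.2.2 k : ℝ) : ℂ))) :=
      hem.comp (by fun_prop : Measurable fun p : Ω₁ × Ω₂ × (ℤ → ℝ) => p.2.2)
    exact this.aestronglyMeasurable
  rw [integral_sub hi (integrable_const _), sub_eq_zero] at h0
  rw [h0, setIntegral_const, rect_mass L h12 A B hA hB, Complex.real_smul]
  push_cast
  ring

end HOST
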