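import Pool.Agent.Lib.MP_8a5982_an.HOST.SumInd

/-!
Project HOST: limits of exponentials.
-/

open MeasureTheory Filter Set
open scoped ENNReal

namespace HOST

theorem norm_exp_sub_exp_le (x y : ℝ) :
    ‖Complex.exp (Complex.I * (x : ℂ)) - Complex.exp (Complex.I * (y : ℂ))‖ ≤ |x - y| := by
  have h1 : Complex.exp (Complex.I * (x : ℂ)) - Complex.exp (Complex.I * (y : ℂ)) =
      Complex.exp (Complex.I * (y : ℂ)) *
        (Complex.exp (Complex.I * ((x - y : ℝ) : ℂ)) - 1) := by
    rw [mul_sub, ← Complex.exp_add, mul_one]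
    congr 2
    push_cast
    ring
  rw [h1, norm_mul]
  have h2 : ‖Complex.exp (Complex.I * (y : ℂ))‖ = 1 := by
    rw [mul_comm]; exact Complex.norm_exp_ofReal_mul_I y
  rw [h2, one_mul]
  exact Real.norm_exp_I_mul_ofReal_sub_one_le

theorem measurable_cexp_of {X : Type*} [MeasurableSpace X] {f : X → ℝ} (hf : Measurable f) :
    Measurable fun x => Complex.exp (Complex.I * (f x : ℂ)) :=
  Complex.measurable_exp.comp (measurable_const.mul (Complex.measurable_ofReal.comp hf))

theorem integrable_cexp_of {X : Type*} [MeasurableSpace X] {P : Measure X} [IsFiniteMeasure P]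
    {f : X → ℝ} (hf : Measurable f) :
    Integrable (fun x => Complex.exp (Complex.I * (f x : ℂ))) P := by
  refine Integrable.of_bound (measurable_cexp_of hf).aestronglyMeasurable 1
    (Eventually.of_forall fun x => ?_)
  rw [mul_comm, Complex.norm_exp_ofReal_mul_I]

theorem norm_setIntegral_exp_sub_le {X : Type*} [MeasurableSpace X] {P : Measure X}
    [IsFiniteMeasure P] {f g : X → ℝ} (hf : Measurable f) (hg : Measurable g)
    (hfg : Integrable (fun x => f x - g x) P) (D : Set X) :
    ‖(∫ x in D, Complex.exp (Complex.I * (f x : ℂ)) ∂P) -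
      ∫ x in D, Complex.exp (Complex.I * (g x : ℂ)) ∂P‖ ≤ ∫ x, |f x - g x| ∂P := by
  rw [← integral_sub (integrable_cexp_of hf) (integrable_cexp_of hg)]
  refine (norm_integral_le_integral_norm _).trans ?_
  have h1 : ∫ x in D, ‖Complex.exp (Complex.I * (f x : ℂ)) -
      Complex.exp (Complex.I * (g x : ℂ))‖ ∂P ≤ ∫ x in D, |f x - g x| ∂P := by
    refine integral_mono ?_ ?_ fun x => norm_exp_sub_exp_le _ _
    · exact ((integrable_cexp_of hf).sub (integrable_cexp_of hg)).norm
    · exact hfg.abs.restrict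
  refine h1.trans ?_
  exact setIntegral_le_integral hfg.abs (Eventually.of_forall fun x => abs_nonneg _)

/-- `E |f| ≤ sqrt (E f^2)`. -/
theorem integral_abs_le_sqrt {X : Type*} [MeasurableSpace X] {P : Measure X}
    [IsProbabilityMeasure P] {f : X → ℝ} (hf : MemLp f 2 P) :
    ∫ x, |f x| ∂P ≤ Real.sqrt (∫ x, f x ^ 2 ∂P) := by
  have h1 := ProbabilityTheory.variance_nonneg (fun x => |f x|) P
  have hfa : MemLp (fun x => |f x|) 2 P := hf.abs
  rw [ProbabilityTheory.variance_eq_sub hfa] at h1
  have h2 : (∫ x, ((fun x => |f x|) ^ 2) x ∂P) = ∫ x, f x ^ 2 ∂P := by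
    refine integral_congr_ae (Eventually.of_forall fun x => ?_)
    simp [sq_abs]
  rw [h2] at h1
  refine Real.le_sqrt_of_sq_le ?_
  linarith

end HOST
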