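import Pool.Agent.Lib.MP_8a5982_an.HOST.Partn
import Pool.Agent.Lib.MP_8a5982_an.HOST.SumLim
import Pool.Agent.Lib.MP_8a5982_an.HOST.Pieces

/-!
Project HOST: the class `H` and countable sums of spectral measures.
-/

open MeasureTheory Filter Set
open scoped ENNReal

namespace HOST

/-- the limit argument -/
theorem classH_of_pieces (μ : Measure (ℤ → ℝ)) [IsProbabilityMeasure μ]
    (Ψ : ℕ → (ℤ → ℝ) → (ℤ → ℝ))
    (hm : ∀ j, Measurable (Ψ j)) (he : ∀ j, ∀ᵐ ω ∂μ, Ψ j (shift ω) = shift (Ψ j ω))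
    (hpi : ∀ N : ℕ, μ.map (fun ω (j : Fin N) => Ψ j ω) =
      Measure.pi (fun j : Fin N => μ.map (Ψ j)))
    (hH : ∀ j, ClassH shift (μ.map (Ψ j)))
    (hL2 : ∀ k : ℤ, MemLp (fun ω : ℤ → ℝ => ω k) 2 μ)
    (hL2' : ∀ j (k : ℤ), MemLp (fun ω : ℤ → ℝ => Ψ j ω k) 2 μ)
    (hlim : ∀ k : ℤ, Tendsto (fun N : ℕ => ∫ ω, (ω k - ∑ j ∈ Finset.range N, Ψ j ω k) ^ 2 ∂μ)
      atTop (nhds 0)) : ClassH shift μ := by
  classical
  refine classH_of_exp μ fun Ω₁ Ω₂ _ _ T₁ T₂ L hLp hLi h3 h12 h13 h23 A B hA hB s a => ?_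
  have hP1 : IsProbabilityMeasure (L.map (fun p => p.1)) :=
    Measure.isProbabilityMeasure_map (by fun_prop)
  have hP2 : IsProbabilityMeasure (L.map (fun p => p.2.1)) :=
    Measure.isProbabilityMeasure_map (by fun_prop)
  let XN : ℕ → (ℤ → ℝ) → ℝ := fun N ω => ∑ k ∈ s, a k * ∑ j ∈ Finset.range N, Ψ j ω k
  let X : (ℤ → ℝ) → ℝ := fun ω => ∑ k ∈ s, a k * ω k
  have hΨk : ∀ j (k : ℤ), Measurable fun ω => Ψ j ω k := fun j k =>
    (measurable_pi_apply k).comp (hm j)
  have hXNm : ∀ N, Measurable (XN N) := fun N =>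
    Finset.measurable_sum _ fun k _ => (Finset.measurable_sum _ fun j _ => hΨk j k).const_mul _
  have hXm : Measurable X :=
    Finset.measurable_sum _ fun k _ => (measurable_pi_apply k).const_mul _
  set D : Set (Ω₁ × Ω₂ × (ℤ → ℝ)) := {p | p.1 ∈ A ∧ p.2.1 ∈ B} with hD
  set c : ℂ := ((L.map (fun p => p.1)).real A : ℂ) * ((L.map (fun p => p.2.1)).real B : ℂ)
    with hc
  -- the finite stage
  have hfin : ∀ N, ∫ p in D, Complex.exp (Complex.I * (XN N p.2.2 : ℂ)) ∂L =
      c * ∫ ω, Complex.exp (Complex.I * (XN N ω : ℂ)) ∂μ := by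
    intro N
    let Y : (ℕ → ℤ → ℝ) → ℝ := fun y => ∑ k ∈ s, a k * ∑ j ∈ Finset.range N, y j k
    have hYm : Measurable Y :=
      Finset.measurable_sum _ fun k _ => (Finset.measurable_sum _ fun j _ =>
        (measurable_pi_apply k).comp (measurable_pi_apply j)).const_mul _
    have hYX : ∀ ω, Y (rN Ψ N ω) = XN N ω := by
      intro ω
      refine Finset.sum_congr rfl fun k _ => ?_
      congr 1
      refine Finset.sum_congr rfl fun j hj => ?_
      simp [rN, Finset.mem_range.1 hj]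
    have hr := measurable_rN hm N
    have hνp : IsProbabilityMeasure (μ.map (rN Ψ N)) :=
      Measure.isProbabilityMeasure_map hr.aemeasurable
    have hcl := sum_claim μ hm he hpi hH T₁ T₂ L hLi h3 h12 h13 h23 N
    have hΦ : Measurable (fun p : Ω₁ × Ω₂ × (ℤ → ℝ) => (p.1, p.2.1, rN Ψ N p.2.2)) := by
      fun_prop
    have hfm : Measurable (fun q : Ω₁ × Ω₂ × (ℕ → ℤ → ℝ) =>
        Complex.exp (Complex.I * (Y q.2.2 : ℂ))) :=
      measurable_cexp_of (hYm.comp (by fun_prop))
    have h1 := setIntegral_map (μ := L) (g := fun p : Ω₁ × Ω₂ × (ℤ → ℝ) =>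
        (p.1, p.2.1, rN Ψ N p.2.2)) (hA.prod (hB.prod MeasurableSet.univ))
        hfm.aestronglyMeasurable hΦ.aemeasurable
    have e1 : (fun p : Ω₁ × Ω₂ × (ℤ → ℝ) => (p.1, p.2.1, rN Ψ N p.2.2)) ⁻¹'
        (A ×ˢ B ×ˢ (univ : Set (ℕ → ℤ → ℝ))) = D := by
      ext p; simp [hD]
    rw [e1, hcl] at h1
    simp only [hYX] at h1
    rw [← h1, ← Measure.prod_restrict, ← Measure.prod_restrict, Measure.restrict_univ]
    have h2 := integral_fun_snd (μ := (L.map (fun p => p.1)).restrict A)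
      (ν := ((L.map (fun p => p.2.1)).restrict B).prod (μ.map (rN Ψ N)))
      (fun q : Ω₂ × (ℕ → ℤ → ℝ) => Complex.exp (Complex.I * (Y q.2 : ℂ)))
    have h3' := integral_fun_snd (μ := (L.map (fun p => p.2.1)).restrict B)
      (ν := μ.map (rN Ψ N)) (fun y : (ℕ → ℤ → ℝ) => Complex.exp (Complex.I * (Y y : ℂ)))
    rw [h3'] at h2
    refine h2.trans ?_
    rw [integral_map hr.aemeasurable (measurable_cexp_of hYm).aestronglyMeasurable]
    simp only [hYX]
    simp only [measureReal_restrict_apply_univ, hc]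
    rw [Complex.real_smul, Complex.real_smul]
    ring
  -- limits
  have hdiff : ∀ N, MemLp (fun ω => XN N ω - X ω) 2 μ := by
    intro N
    have h1 : ∀ k, MemLp (fun ω : ℤ → ℝ => ∑ j ∈ Finset.range N, Ψ j ω k) 2 μ := fun k =>
      memLp_finsetSum _ fun j _ => hL2' j k
    have h2 : MemLp (XN N) 2 μ := memLp_finsetSum _ fun k _ => (h1 k).const_mul _
    have h3 : MemLp X 2 μ := memLp_finsetSum _ fun k _ => (hL2 k).const_mul _
    exact h2.sub h3
  have hd : Tendsto (fun N => ∫ ω, |XN N ω - X ω| ∂μ) atTop (nhds 0) := by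
    have hbound : ∀ N, ∫ ω, |XN N ω - X ω| ∂μ ≤
        ∑ k ∈ s, |a k| * Real.sqrt (∫ ω, (ω k - ∑ j ∈ Finset.range N, Ψ j ω k) ^ 2 ∂μ) := by
      intro N
      have hk : ∀ k : ℤ, MemLp (fun ω : ℤ → ℝ => ω k - ∑ j ∈ Finset.range N, Ψ j ω k) 2 μ :=
        fun k => (hL2 k).sub (memLp_finsetSum _ fun j _ => hL2' j k)
      have hki : ∀ k : ℤ, Integrable
          (fun ω : ℤ → ℝ => |a k| * |ω k - ∑ j ∈ Finset.range N, Ψ j ω k|) μ :=
        fun k => (((hk k).integrable (by norm_num)).abs).const_mul _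
      calc ∫ ω, |XN N ω - X ω| ∂μ
          ≤ ∫ ω, ∑ k ∈ s, |a k| * |ω k - ∑ j ∈ Finset.range N, Ψ j ω k| ∂μ := by
            refine integral_mono ((hdiff N).integrable (by norm_num)).abs
              (integrable_finsetSum _ fun k _ => hki k) fun ω => ?_
            change |(∑ k ∈ s, a k * ∑ j ∈ Finset.range N, Ψ j ω k) - ∑ k ∈ s, a k * ω k| ≤
              ∑ k ∈ s, |a k| * |ω k - ∑ j ∈ Finset.range N, Ψ j ω k|
            rw [← Finset.sum_sub_distrib]
            refine (Finset.abs_sum_le_sum_abs _ _).trans (Finset.sum_le_sum fun k _ => ?_)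
            rw [← mul_sub, abs_mul, abs_sub_comm]
        _ = ∑ k ∈ s, |a k| * ∫ ω, |ω k - ∑ j ∈ Finset.range N, Ψ j ω k| ∂μ := by
            rw [integral_finsetSum _ fun k _ => hki k]
            refine Finset.sum_congr rfl fun k _ => ?_
            rw [integral_const_mul]
        _ ≤ _ := by
            refine Finset.sum_le_sum fun k _ => ?_
            exact mul_le_mul_of_nonneg_left (integral_abs_le_sqrt (hk k)) (abs_nonneg _)
    have hzero : Tendsto (fun N => ∑ k ∈ s, |a k| *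
        Real.sqrt (∫ ω, (ω k - ∑ j ∈ Finset.range N, Ψ j ω k) ^ 2 ∂μ)) atTop (nhds 0) := by
      have : Tendsto (fun N => ∑ k ∈ s, |a k| *
          Real.sqrt (∫ ω, (ω k - ∑ j ∈ Finset.range N, Ψ j ω k) ^ 2 ∂μ)) atTop
          (nhds (∑ k ∈ s, |a k| * Real.sqrt 0)) := by
        refine tendsto_finsetSum _ fun k _ => ?_
        exact ((Real.continuous_sqrt.tendsto 0).comp (hlim k)).const_mul _
      simpa using this
    exact squeeze_zero (fun N => integral_nonneg fun ω => abs_nonneg _) hbound hzero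
  have hdL : ∀ N, ∫ p, |XN N p.2.2 - X p.2.2| ∂L = ∫ ω, |XN N ω - X ω| ∂μ := by
    intro N
    have h1 := integral_map (μ := L) (φ := fun p : Ω₁ × Ω₂ × (ℤ → ℝ) => p.2.2)
      (f := fun ω => |XN N ω - X ω|) (by fun_prop) (by
        have : Measurable fun ω => |XN N ω - X ω| := ((hXNm N).sub hXm).abs
        exact this.aestronglyMeasurable)
    rw [h3] at h1
    exact h1.symm
  have hF : Tendsto (fun N => ∫ p in D, Complex.exp (Complex.I * (XN N p.2.2 : ℂ)) ∂L) atTop
      (nhds (∫ p in D, Complex.exp (Complex.I * (X p.2.2 : ℂ)) ∂L)) := by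
    rw [tendsto_iff_norm_sub_tendsto_zero]
    refine squeeze_zero (fun N => norm_nonneg _) (fun N => ?_) hd
    rw [← hdL N]
    refine norm_setIntegral_exp_sub_le ((hXNm N).comp (by fun_prop)) (hXm.comp (by fun_prop))
      ?_ D
    have h4 : Integrable (fun ω => XN N ω - X ω) (L.map (fun p => p.2.2)) := by
      rw [h3]; exact (hdiff N).integrable (by norm_num)
    exact h4.comp_measurable (by fun_prop)
  have hG : Tendsto (fun N => c * ∫ ω, Complex.exp (Complex.I * (XN N ω : ℂ)) ∂μ) atTop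
      (nhds (c * ∫ ω, Complex.exp (Complex.I * (X ω : ℂ)) ∂μ)) := by
    refine Tendsto.const_mul _ ?_
    rw [tendsto_iff_norm_sub_tendsto_zero]
    refine squeeze_zero (fun N => norm_nonneg _) (fun N => ?_) hd
    have := norm_setIntegral_exp_sub_le (P := μ) (hXNm N) hXm
      ((hdiff N).integrable (by norm_num)) univ
    simpa using this
  have hF' : Tendsto (fun N => c * ∫ ω, Complex.exp (Complex.I * (XN N ω : ℂ)) ∂μ) atTop
      (nhds (∫ p in D, Complex.exp (Complex.I * (X p.2.2 : ℂ)) ∂L)) := by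
    refine hF.congr fun N => hfin N
  exact tendsto_nhds_unique hF' hG

theorem classH_sum (σ : ℕ → Measure UnitAddCircle) [IsFiniteMeasure (Measure.sum σ)]
    (hsymm : ∀ j, (σ j).map (fun x => -x) = σ j)
    (hgood : ∀ (j : ℕ) (τ : Measure UnitAddCircle), IsFiniteMeasure τ →
      τ.map (fun x => -x) = τ → τ ≪ σ j → ∀ μ' : Measure (ℤ → ℝ), IsGaussianShift τ μ' →
        ClassH shift μ')
    (μ : Measure (ℤ → ℝ)) (hμ : IsGaussianShift (Measure.sum σ) μ) : ClassH shift μ := by
  classical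
  have hneg : Measurable (fun x : UnitAddCircle => -x) := measurable_neg
  have hμp : IsProbabilityMeasure μ := hμ.1
  obtain ⟨B, hBm, hBs, hBd, hBu, hBac⟩ := exists_partition σ hsymm
  set S := Measure.sum σ with hS
  have hSsymm : S.map (fun x => -x) = S := by
    rw [hS, Measure.map_sum hneg.aemeasurable]
    congr 1
    funext j
    exact hsymm j
  let g : ℕ → UnitAddCircle → ℂ := fun j => (B j).indicator fun _ => (1 : ℂ)
  have hgm : ∀ j, Measurable (g j) := fun j => measurable_const.indicator (hBm j)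
  have hg2 : ∀ j, MemLp (g j) 2 S := fun j => by
    refine MemLp.of_bound (hgm j).aestronglyMeasurable 1 (Eventually.of_forall fun x => ?_)
    by_cases hx : x ∈ B j
    · simp [g, hx]
    · simp [g, hx]
  have hreal : ∀ j x, g j (-x) = (starRingEnd ℂ) (g j x) := by
    intro j x
    by_cases hx : x ∈ B j
    · have hx' := (hBs j x).1 hx
      simp [g, hx, hx']
    · have hx' : -x ∉ B j := fun h => hx ((hBs j x).2 h)
      simp [g, hx, hx']
  have hdisj : ∀ i j, i ≠ j → ∀ x, g i x = 0 ∨ g j x = 0 := by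
    intro i j hij x
    by_cases hx : x ∈ B i
    · right
      have : x ∉ B j := fun h => Set.disjoint_left.1 (hBd i j hij) hx h
      simp [g, this]
    · left; simp [g, hx]
  obtain ⟨Ψ, hm, he, hG, hpi, hlim⟩ := gaussian_pieces S hSsymm μ hμ g hgm hg2 hreal hdisj
  have hone : ∀ x, ∃ j, g j x = 1 := by
    intro x
    have : x ∈ ⋃ j, B j := by rw [hBu]; trivial
    obtain ⟨j, hj⟩ := mem_iUnion.1 this
    exact ⟨j, by simp [g, hj]⟩
  have hw : ∀ j, S.withDensity (fun x => ENNReal.ofReal (‖g j x‖ ^ 2)) = S.restrict (B j) := by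
    intro j
    have : (fun x => ENNReal.ofReal (‖g j x‖ ^ 2)) = (B j).indicator 1 := by
      funext x
      by_cases hx : x ∈ B j
      · simp [g, hx]
      · simp [g, hx]
    rw [this, withDensity_indicator_one (hBm j)]
  have hGj : ∀ j, IsGaussianShift (S.restrict (B j)) (μ.map (Ψ j)) := by
    intro j
    have := hG j
    rwa [hw j] at this
  have hsy : ∀ j, (S.restrict (B j)).map (fun x => -x) = S.restrict (B j) := by
    intro j
    have h1 := Measure.restrict_map (μ := S) hneg (hBm j)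
    rw [hSsymm] at h1
    have h2 : (fun x : UnitAddCircle => -x) ⁻¹' (B j) = B j := by
      ext x; exact (hBs j x).symm
    rw [h2] at h1
    exact h1.symm
  have hH : ∀ j, ClassH shift (μ.map (Ψ j)) := fun j =>
    hgood j (S.restrict (B j)) inferInstance (hsy j) (hBac j) _ (hGj j)
  refine classH_of_pieces μ Ψ hm he hpi hH (gauss_memLp S hSsymm μ hμ) ?_ (hlim hone)
  intro j k
  have h1 := gauss_memLp (S.restrict (B j)) (hsy j) _ (hGj j) k
  exact h1.comp_of_map (hm j).aemeasurable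

end HOST
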