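import Pool.Agent.Lib.MP_8a5982_an.HOST.Base

/-!
Project HOST: absorbing one independent piece after the other.
-/

open MeasureTheory Filter Set
open scoped ENNReal

namespace HOST

/-- the first `N` pieces (the others replaced by `0`) -/
def rN (Ψ : ℕ → (ℤ → ℝ) → (ℤ → ℝ)) (N : ℕ) (x : ℤ → ℝ) : ℕ → ℤ → ℝ :=
  fun j => if j < N then Ψ j x else 0

variable {Ψ : ℕ → (ℤ → ℝ) → (ℤ → ℝ)}

theorem measurable_rN (hm : ∀ j, Measurable (Ψ j)) (N : ℕ) : Measurable (rN Ψ N) := by
  refine measurable_pi_lambda _ fun j => ?_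
  by_cases hj : j < N
  · simpa [rN, hj] using hm j
  · simp [rN, hj]

theorem rN_succ (N : ℕ) (x : ℤ → ℝ) :
    rN Ψ (N + 1) x = Function.update (rN Ψ N x) N (Ψ N x) := by
  funext j
  by_cases hj : j = N
  · subst hj; simp [rN]
  · rw [Function.update_of_ne hj]
    simp only [rN]
    have : j < N + 1 ↔ j < N := by omega
    simp [this]

theorem indep_step (μ : Measure (ℤ → ℝ)) [IsProbabilityMeasure μ]
    (hm : ∀ j, Measurable (Ψ j))
    (hpi : ∀ N : ℕ, μ.map (fun ω (j : Fin N) => Ψ j ω) =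
      Measure.pi (fun j : Fin N => μ.map (Ψ j))) (N : ℕ) :
    μ.map (fun x => (rN Ψ N x, Ψ N x)) = (μ.map (rN Ψ N)).prod (μ.map (Ψ N)) := by
  have hprob : ∀ j, IsProbabilityMeasure (μ.map (Ψ j)) := fun j =>
    Measure.isProbabilityMeasure_map (hm j).aemeasurable
  let E : (Fin N → ℤ → ℝ) → (ℕ → ℤ → ℝ) := fun y j => if h : j < N then y ⟨j, h⟩ else 0
  have hE : Measurable E := by
    refine measurable_pi_lambda _ fun j => ?_
    by_cases hj : j < N
    · simpa [E, hj] using (measurable_pi_apply (⟨j, hj⟩ : Fin N) : Measurable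
        fun y : Fin N → ℤ → ℝ => y ⟨j, hj⟩)
    · simp [E, hj]
  have hΨN : Measurable (fun (ω : ℤ → ℝ) (j : Fin N) => Ψ j ω) :=
    measurable_pi_lambda _ fun j => hm j
  have hΨN1 : Measurable (fun (ω : ℤ → ℝ) (j : Fin (N + 1)) => Ψ j ω) :=
    measurable_pi_lambda _ fun j => hm j
  have e1 : rN Ψ N = E ∘ (fun (ω : ℤ → ℝ) (j : Fin N) => Ψ j ω) := by
    funext x j
    by_cases hj : j < N
    · simp [rN, E, hj]
    · simp [rN, E, hj]
  have e2 : μ.map (rN Ψ N) = (Measure.pi (fun j : Fin N => μ.map (Ψ j))).map E := by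
    rw [e1, ← Measure.map_map hE hΨN, hpi N]
  have e3 : (fun x => (rN Ψ N x, Ψ N x)) =
      (Prod.map E id ∘ Prod.swap ∘ (MeasurableEquiv.piFinSuccAbove (fun _ => ℤ → ℝ) (Fin.last N))) ∘
        (fun (ω : ℤ → ℝ) (j : Fin (N + 1)) => Ψ j ω) := by
    funext x
    simp only [Function.comp_apply, MeasurableEquiv.piFinSuccAbove, e1]
    refine Prod.ext ?_ ?_
    · simp only [MeasurableEquiv.coe_mk, Fin.insertNthEquiv_last]
      congr 1
    · simp
  rw [e3, ← Measure.map_map (by fun_prop) hΨN1, hpi (N + 1)]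
  rw [← Measure.map_map (by fun_prop) (by fun_prop), ← Measure.map_map (by fun_prop) (by fun_prop),
    (measurePreserving_piFinSuccAbove (fun j : Fin (N + 1) => μ.map (Ψ j)) (Fin.last N)).map_eq,
    Measure.prod_swap, ← Measure.map_prod_map _ _ hE measurable_id, Measure.map_id, e2]
  simp

theorem sum_claim (μ : Measure (ℤ → ℝ)) [IsProbabilityMeasure μ]
    (hm : ∀ j, Measurable (Ψ j)) (he : ∀ j, ∀ᵐ ω ∂μ, Ψ j (shift ω) = shift (Ψ j ω))
    (hpi : ∀ N : ℕ, μ.map (fun ω (j : Fin N) => Ψ j ω) =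
      Measure.pi (fun j : Fin N => μ.map (Ψ j)))
    (hH : ∀ j, ClassH shift (μ.map (Ψ j)))
    {Ω₁ Ω₂ : Type} [MeasurableSpace Ω₁] [MeasurableSpace Ω₂] (T₁ : Ω₁ ≃ᵐ Ω₁) (T₂ : Ω₂ ≃ᵐ Ω₂)
    (L : Measure (Ω₁ × Ω₂ × (ℤ → ℝ))) [IsProbabilityMeasure L]
    (hLi : MeasurePreserving
      (fun p : Ω₁ × Ω₂ × (ℤ → ℝ) => (T₁ p.1, T₂ p.2.1, shift p.2.2)) L L)
    (h3 : L.map (fun p => p.2.2) = μ)
    (h12 : L.map (fun p => (p.1, p.2.1)) =
      (L.map (fun p => p.1)).prod (L.map (fun p => p.2.1)))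
    (h13 : L.map (fun p => (p.1, p.2.2)) = (L.map (fun p => p.1)).prod μ)
    (h23 : L.map (fun p => (p.2.1, p.2.2)) = (L.map (fun p => p.2.1)).prod μ) (N : ℕ) :
    L.map (fun p => (p.1, p.2.1, rN Ψ N p.2.2)) =
      (L.map (fun p => p.1)).prod ((L.map (fun p => p.2.1)).prod (μ.map (rN Ψ N))) := by
  have hP1 : IsProbabilityMeasure (L.map (fun p => p.1)) :=
    Measure.isProbabilityMeasure_map (by fun_prop)
  have hP2 : IsProbabilityMeasure (L.map (fun p => p.2.1)) :=
    Measure.isProbabilityMeasure_map (by fun_prop)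
  have hrm : ∀ N, Measurable (rN Ψ N) := measurable_rN hm
  have hprob : ∀ j, IsProbabilityMeasure (μ.map (Ψ j)) := fun j =>
    Measure.isProbabilityMeasure_map (hm j).aemeasurable
  have hprobr : ∀ N, IsProbabilityMeasure (μ.map (rN Ψ N)) := fun j =>
    Measure.isProbabilityMeasure_map (hrm j).aemeasurable
  induction N with
  | zero =>
    have e0 : rN Ψ 0 = fun _ => (0 : ℕ → ℤ → ℝ) := by
      funext x j; simp [rN]
    have e1 : (fun p : Ω₁ × Ω₂ × (ℤ → ℝ) => (p.1, p.2.1, rN Ψ 0 p.2.2)) =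
        (Prod.map id (fun y => (y, (0 : ℕ → ℤ → ℝ)))) ∘ (fun p => (p.1, p.2.1)) := by
      funext p; simp [e0]
    rw [e1, ← Measure.map_map (by fun_prop) (by fun_prop), h12,
      ← Measure.map_prod_map _ _ measurable_id (by fun_prop), Measure.map_id, e0,
      Measure.map_const, measure_univ, one_smul, Measure.prod_dirac]
  | succ N ih =>
    let T₂' : (Ω₂ × (ℕ → ℤ → ℝ)) ≃ᵐ (Ω₂ × (ℕ → ℤ → ℝ)) :=
      MeasurableEquiv.prodCongr T₂ (MeasurableEquiv.piCongrRight fun _ : ℕ => shift)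
    have hr := hrm N
    have hΨN := hm N
    set Θ : Ω₁ × Ω₂ × (ℤ → ℝ) → Ω₁ × (Ω₂ × (ℕ → ℤ → ℝ)) × (ℤ → ℝ) :=
      fun p => (p.1, (p.2.1, rN Ψ N p.2.2), Ψ N p.2.2) with hΘ
    have hΘm : Measurable Θ := by fun_prop
    have hL'p : IsProbabilityMeasure (L.map Θ) := Measure.isProbabilityMeasure_map hΘm.aemeasurable
    -- marginals
    have m1 : (L.map Θ).map (fun p => p.1) = L.map (fun p => p.1) := by
      rw [Measure.map_map (by fun_prop) hΘm]; rfl
    have m12 : (L.map Θ).map (fun p => (p.1, p.2.1)) = (L.map (fun p => p.1)).prod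
        ((L.map (fun p => p.2.1)).prod (μ.map (rN Ψ N))) := by
      rw [Measure.map_map (by fun_prop) hΘm, ← ih]; rfl
    have m2 : (L.map Θ).map (fun p => p.2.1) =
        (L.map (fun p => p.2.1)).prod (μ.map (rN Ψ N)) := by
      have : (L.map Θ).map (fun p => p.2.1) =
          ((L.map Θ).map (fun p => (p.1, p.2.1))).map Prod.snd := by
        rw [Measure.map_map measurable_snd (by fun_prop)]; rfl
      rw [this, m12]
      exact Measure.snd_prod
    have m3 : (L.map Θ).map (fun p => p.2.2) = μ.map (Ψ N) := by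
      rw [Measure.map_map (by fun_prop) hΘm, ← h3, Measure.map_map hΨN (by fun_prop)]; rfl
    have m13 : (L.map Θ).map (fun p => (p.1, p.2.2)) =
        (L.map (fun p => p.1)).prod (μ.map (Ψ N)) := by
      have e1 : (fun p : Ω₁ × (Ω₂ × (ℕ → ℤ → ℝ)) × (ℤ → ℝ) => (p.1, p.2.2)) ∘ Θ =
          (Prod.map id (Ψ N)) ∘ (fun p => (p.1, p.2.2)) := rfl
      rw [Measure.map_map (by fun_prop) hΘm, e1,
        ← Measure.map_map (by fun_prop) (by fun_prop), h13,
        ← Measure.map_prod_map _ _ measurable_id hΨN, Measure.map_id]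
    have assoc : ((L.map (fun p => p.2.1)).prod (μ.map (rN Ψ N))).prod (μ.map (Ψ N)) =
        ((L.map (fun p => p.2.1)).prod ((μ.map (rN Ψ N)).prod (μ.map (Ψ N)))).map
          MeasurableEquiv.prodAssoc.symm := by
      rw [← Measure.prodAssoc_prod, Measure.map_map (MeasurableEquiv.measurable _)
        (MeasurableEquiv.measurable _)]
      simp
    have m23 : (L.map Θ).map (fun p => (p.2.1, p.2.2)) =
        ((L.map (fun p => p.2.1)).prod (μ.map (rN Ψ N))).prod (μ.map (Ψ N)) := by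
      have e1 : (fun p : Ω₁ × (Ω₂ × (ℕ → ℤ → ℝ)) × (ℤ → ℝ) => (p.2.1, p.2.2)) ∘ Θ =
          (MeasurableEquiv.prodAssoc.symm ∘ (Prod.map id (fun x => (rN Ψ N x, Ψ N x)))) ∘
            (fun p => (p.2.1, p.2.2)) := rfl
      rw [Measure.map_map (by fun_prop) hΘm, e1,
        ← Measure.map_map (by fun_prop) (by fun_prop), h23,
        ← Measure.map_map (by fun_prop) (by fun_prop),
        ← Measure.map_prod_map _ _ measurable_id (by fun_prop), Measure.map_id,
        indep_step μ hm hpi N, assoc]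
    -- invariance
    have hmp : MeasurePreserving (fun p : Ω₁ × (Ω₂ × (ℕ → ℤ → ℝ)) × (ℤ → ℝ) =>
        (T₁ p.1, T₂' p.2.1, shift p.2.2)) (L.map Θ) (L.map Θ) := by
      have hmeas : Measurable (fun p : Ω₁ × (Ω₂ × (ℕ → ℤ → ℝ)) × (ℤ → ℝ) =>
        (T₁ p.1, T₂' p.2.1, shift p.2.2)) := by fun_prop
      refine ⟨hmeas, ?_⟩
      rw [Measure.map_map hmeas hΘm]
      conv_rhs => rw [← hLi.map_eq]
      rw [Measure.map_map hΘm hLi.measurable]
      refine Measure.map_congr ?_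
      have hae : ∀ᵐ p ∂L, ∀ j, Ψ j (shift p.2.2) = shift (Ψ j p.2.2) := by
        have h4 : ∀ᵐ x ∂(L.map (fun p => p.2.2)), ∀ j, Ψ j (shift x) = shift (Ψ j x) := by
          rw [h3, ae_all_iff]; exact he
        exact ae_of_ae_map (by fun_prop) h4
      filter_upwards [hae] with p hp
      simp only [Function.comp_apply, hΘ]
      have e2 : rN Ψ N (shift p.2.2) = fun j => shift (rN Ψ N p.2.2 j) := by
        funext j
        by_cases hj : j < N
        · simp [rN, hj, hp j]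
        · simp only [rN, hj, if_false]; rfl
      rw [e2, hp N]
      rfl
    have hfin := hH N Ω₁ (Ω₂ × (ℕ → ℤ → ℝ)) T₁ T₂' (L.map Θ) hL'p hmp m3
      (by rw [m12, m1, m2]) (by rw [m13, m1]) (by rw [m23, m2])
    rw [m1, m2] at hfin
    -- reassemble
    set U : (ℕ → ℤ → ℝ) × (ℤ → ℝ) → (ℕ → ℤ → ℝ) := fun q => Function.update q.1 N q.2 with hU
    have hUm : Measurable U := measurable_update'
    have e5 : (fun p : Ω₁ × Ω₂ × (ℤ → ℝ) => (p.1, p.2.1, rN Ψ (N + 1) p.2.2)) =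
        (Prod.map id ((Prod.map id U) ∘ MeasurableEquiv.prodAssoc)) ∘ Θ := by
      funext p
      simp only [Function.comp_apply, hΘ, Prod.map_apply, id, hU, MeasurableEquiv.prodAssoc,
        rN_succ]
      rfl
    have e6 : U ∘ (fun x => (rN Ψ N x, Ψ N x)) = rN Ψ (N + 1) := by
      funext x
      simp only [Function.comp_apply, hU]
      rw [rN_succ]
    rw [e5, ← Measure.map_map (by fun_prop) hΘm, hfin,
      ← Measure.map_prod_map _ _ measurable_id (by fun_prop), Measure.map_id,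
      ← Measure.map_map (by fun_prop) (by fun_prop), Measure.prodAssoc_prod,
      ← Measure.map_prod_map _ _ measurable_id hUm, Measure.map_id, ← indep_step μ hm hpi N,
      Measure.map_map hUm (by fun_prop), e6]

end HOST
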